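import Pool.Agent.H910.Dsc.CoreAn
import Pool.Graph.R_seed8.Y618.SC.AnC

/-!
Binary forms over the field of the meromorphic functions near infinity, whose contact orders with
constants and with the discriminant satisfy a condition on their sums.
-/

set_option autoImplicit false

open Polynomial Filter Topology Set Metric

namespace Pool.Agent.H910.Dsc

open FF Pool.Agent.W603.BP Pool.Agent.W601.PH Pool.Agent.Y216 Pool.Agent.Y190.BV
  Pool.Agent.W603.LV Pool.Agent.Y190.AN
open Pool.Agent.W601.SM (dF)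
open Pool.Agent.Y618.SA (cl_pow')

section field

/-- the constant roots -/
theorem split_const {k K : Type} [Field k] [Field K] [Algebra k K] {H : K[X]} (hH : H ≠ 0) :
    ∃ (Pc : k[X]) (F : K[X]), Pc ≠ 0 ∧ H = Pc.map (algebraMap k K) * F ∧
      ∀ b : k, F.eval (algebraMap k K b) ≠ 0 := by
  induction hn : H.natDegree using Nat.strong_induction_on generalizing H with
  | _ m ih =>
    by_cases h : ∀ b : k, H.eval (algebraMap k K b) ≠ 0
    · exact ⟨1, H, one_ne_zero, by rw [Polynomial.map_one, one_mul], h⟩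
    · push Not at h
      obtain ⟨b, hb⟩ := h
      obtain ⟨H1, hH1⟩ := dvd_iff_isRoot.2 hb
      have hH10 : H1 ≠ 0 := by
        rintro rfl
        exact hH (by rw [hH1, mul_zero])
      have hdeg : H.natDegree = 1 + H1.natDegree := by
        rw [hH1, natDegree_mul (X_sub_C_ne_zero _) hH10, natDegree_X_sub_C]
      obtain ⟨Pc, F, h1, h2, h3⟩ := ih H1.natDegree (by omega) hH10 rfl
      refine ⟨(X - C b) * Pc, F, mul_ne_zero (X_sub_C_ne_zero _) h1, ?_, h3⟩
      rw [Polynomial.map_mul, Polynomial.map_sub, map_X, map_C, mul_assoc, ← h2]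
      exact hH1

/-- root data of a squarefree polynomial -/
theorem rd_of_sqf {K L : Type} [Field K] [Field L] [Algebra K L] [CharZero K] {e : ℕ} {F : K[X]}
    (hsq : Squarefree F) (hdeg : F.natDegree = e + 1) (hs : (F.map (algebraMap K L)).Splits) :
    ∃ r : Fin F.natDegree → L, RD F e (Fin F.natDegree) r := by
  obtain ⟨r, hr, -, hcoef⟩ := exists_roots (L := L) F
    (PerfectField.separable_iff_squarefree.2 hsq) hs
  refine ⟨r, hr, ?_, hsq.ne_zero, Or.inl ?_⟩
  · ext j
    rw [coeff_map, hcoef j]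
    unfold pr
    rw [coeff_C_mul]
  · rw [Fintype.card_fin, hdeg]

theorem dsf_ne_of_sqf {K : Type} [Field K] [CharZero K] {e : ℕ} {F : K[X]}
    (hsq : Squarefree F) (hdeg : F.natDegree = e + 1) : dsf e F ≠ 0 := by
  obtain ⟨r, hr⟩ := rd_of_sqf (L := F.SplittingField) hsq hdeg (SplittingField.splits _)
  have hcL : CharZero F.SplittingField :=
    charZero_of_injective_algebraMap (algebraMap K F.SplittingField).injective
  have h1 : dsf e (F.map (algebraMap K F.SplittingField)) ≠ 0 := by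
    rw [hr.eq]
    exact dsf_ne hr.lead hr.inj hr.card
  rwa [map_dsf, _root_.map_ne_zero] at h1

variable {k K : Type} [Field k] [Field K] [Algebra k K]

/-- If the contact with the discriminant vanishes, it vanishes for all factors. -/
theorem dct_zero_of_dvd [CharZero k] {P : Place k K} {H F : K[X]} {n e : ℕ} (hH : H ≠ 0)
    (hdeg : H.natDegree ≤ n + 1) (hdsf : dsf n H ≠ 0) (hF : F.natDegree = e + 1) (hdvd : F ∣ H)
    (h0 : dct P n H = 0) : dct P e F = 0 := by
  have hchK : CharZero K := charZero_of_injective_algebraMap (algebraMap k K).injective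
  have hsq := (sqf_of_dsf hH hdeg hdsf).1
  have hsep : H.Separable := PerfectField.separable_iff_squarefree.2 hsq
  let L := H.SplittingField
  have hgal : IsGalois K L := IsGalois.of_separable_splitting_field hsep
  obtain ⟨r, hr⟩ := exists_rd (L := L) hH hdeg hdsf (SplittingField.splits _)
  obtain ⟨r', hr'⟩ := rd_of_sqf (L := L) (hsq.squarefree_of_dvd hdvd) hF
    ((SplittingField.splits H).of_dvd (Polynomial.map_ne_zero hH) (Polynomial.map_dvd _ hdvd))
  obtain ⟨S, T', _, hT, hsum⟩ := exists_places_over (K' := L) P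
  have hSne : S.Nonempty := by
    by_contra hcon
    rw [Finset.not_nonempty_iff_eq_empty] at hcon
    rw [hcon, Finset.sum_empty] at hsum
    have : 0 < Module.finrank K L := Module.finrank_pos
    omega
  obtain ⟨W, hW⟩ := hSne
  obtain ⟨e0, hWP, _⟩ := hT W hW
  exact dct_zero_of_roots hr hr' (by rw [Fintype.card_fin, hF]) hdvd hWP h0

/-- the contacts of the product with a constant polynomial -/
theorem disC_const [CharZero k] {q n M cD : ℕ} {μ c : Fin q → ℕ} {a : Fin q → k}
    {P : Place k K}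
    {H Y : K[X]} {Pc : k[X]} (hPc : Pc ≠ 0) {s : K} (hs : s ≠ 0) (hH0 : H ≠ 0)
    (hH : H = C s * (Y * Pc.map (algebraMap k K))) (hdsf : dsf n H ≠ 0)
    (h0 : ∀ i, H.eval (algebraMap k K (a i)) ≠ 0) (hY : cnt P Y = 0)
    (hS : DisC n M μ c cD a H P) :
    (dct P n H = 0 ∧ ∀ i, P.ord (Y.eval (algebraMap k K (a i))) = 0 ∨
      (M : ℤ) ≤ ((M : ℤ) - μ i) * P.ord (Y.eval (algebraMap k K (a i)))) ∨
      (M : ℤ) ≤ ∑ i, (c i : ℤ) * P.ord (Y.eval (algebraMap k K (a i))) +
        cD * P.ord (dsf n (Y * Pc.map (algebraMap k K))) := by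
  have hinf : Infinite k := inferInstance
  have hP0 : Pc.map (algebraMap k K) ≠ 0 := Polynomial.map_ne_zero hPc
  have hY0 : Y ≠ 0 := by
    rintro rfl
    rw [zero_mul, mul_zero] at hH
    exact hH0 hH
  have hYP : Y * Pc.map (algebraMap k K) ≠ 0 := mul_ne_zero hY0 hP0
  have hd' : dsf n (Y * Pc.map (algebraMap k K)) ≠ 0 := by
    intro h1
    apply hdsf
    rw [hH, dsf_C_mul, h1, mul_zero]
  have hdct : dct P n H = P.ord (dsf n (Y * Pc.map (algebraMap k K))) := by
    rw [hH, dct_C_mul P n hs hYP hd']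
    unfold dct
    rw [cnt_mul P hY0 hP0, hY, cnt_const P hPc]
    ring
  have hct : ∀ i, ct P H (a i) = P.ord (Y.eval (algebraMap k K (a i))) := by
    intro i
    have h1 := h0 i
    rw [hH, eval_mul, eval_mul] at h1
    have h2 := right_ne_zero_of_mul h1
    rw [hH, ct_C_mul P hs (by rw [eval_mul]; exact h2), ct_mul P (left_ne_zero_of_mul h2)
      (right_ne_zero_of_mul h2)]
    have h3 : ct P (Pc.map (algebraMap k K)) (a i) = 0 := by
      unfold ct
      rw [cnt_const P hPc, eval_map_apply, P.ord_const]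
      · rw [sub_zero]
      · intro h4
        apply right_ne_zero_of_mul h2
        rw [eval_map_apply, h4, map_zero]
    rw [h3, add_zero]
    unfold ct
    rw [hY, sub_zero]
  rcases hS with ⟨h1, h2⟩ | h1
  · left
    exact ⟨h1, fun i => by rw [← hct]; exact h2 i⟩
  · right
    simp only [← hct]
    rw [← hdct]
    exact h1

end field

/-- **Forms with high contact are meromorphic at infinity.** -/
theorem an_dsc {r0 : ℝ} {hr0 : 0 < r0} {n q M cD : ℕ} {a : Fin q → ℂ}
    (ha : Function.Injective a) {μ c : Fin q → ℕ} (hμ : ∀ i, μ i ≤ M)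
    (hbound : (n + 1) * (∑ i, c i + 2 * n * cD) + 2 * M < ∑ i, μ i)
    {H : (MK (exD r0 hr0))[X]} (hH : H ≠ 0) (hdeg : H.natDegree ≤ n + 1) (hdsf : dsf n H ≠ 0)
    (hHa : ∀ i, H.eval (algebraMap ℂ (MK (exD r0 hr0)) (a i)) ≠ 0)
    (hS : ∀ (z : ℂ) (hz : z ∈ (exD r0 hr0).U), DisC n M μ c cD a H (PL hz)) :
    ∃ (u : MK (exD r0 hr0)) (H' : (Minf r0 hr0)[X]), u ≠ 0 ∧
      H = C u * H'.map (algebraMap (Minf r0 hr0) (MK (exD r0 hr0))) := by
  classical
  obtain ⟨Pc, F, hPc, hHF, hroot⟩ := split_const (k := ℂ) hH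
  have hF0 : F ≠ 0 := by
    rintro rfl
    exact hroot 0 eval_zero
  have hPc' : (Pc.map (algebraMap ℂ (Minf r0 hr0))).map
      (algebraMap (Minf r0 hr0) (MK (exD r0 hr0))) = Pc.map (algebraMap ℂ (MK (exD r0 hr0))) := by
    rw [Polynomial.map_map, ← IsScalarTower.algebraMap_eq]
  obtain ⟨hsqH, -⟩ := sqf_of_dsf hH hdeg hdsf
  have hFdvd : F ∣ H := ⟨_, by rw [hHF, mul_comm]⟩
  have hsqF : Squarefree F := hsqH.squarefree_of_dvd hFdvd
  have hFdeg : F.natDegree ≤ n + 1 := (natDegree_le_of_dvd hFdvd hH).trans hdeg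
  rcases Nat.eq_zero_or_pos F.natDegree with hd0 | hd0
  · obtain ⟨f0, hf0⟩ := natDegree_eq_zero.1 hd0
    refine ⟨f0, Pc.map (algebraMap ℂ (Minf r0 hr0)), ?_, ?_⟩
    · rintro rfl
      rw [C_0] at hf0
      exact hF0 hf0.symm
    · rw [hPc', hHF, ← hf0, mul_comm]
  obtain ⟨e, he⟩ : ∃ e, F.natDegree = e + 1 := ⟨F.natDegree - 1, by omega⟩
  have hen : e ≤ n := by omega
  let x : Fin (e + 2) → MK (exD r0 hr0) := fun j => F.coeff j
  have hpx : F = pol x := eq_pol he.le
  have hxl : x (Fin.last _) ≠ 0 := by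
    change F.coeff ((Fin.last (e + 1) : Fin (e + 2)) : ℕ) ≠ 0
    rw [Fin.val_last, ← he, coeff_natDegree]
    exact leadingCoeff_ne_zero.2 hF0
  obtain ⟨r1, h01, s, G, hG, hs, hGan, hGnz, hxG⟩ := primitive hr0 x fun h0 =>
    hxl (congrFun h0 _)
  let y : Fin (e + 2) → MK (exD r0 hr0) := fun j => cl (fun z => G z j) (hG j)
  have hxy : x = fun j => s * y j := funext hxG
  have hRy : F = C s * pol y := by rw [hpx, hxy, pol_smul]
  have hyl : y (Fin.last _) ≠ 0 := by
    intro h0
    apply hxl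
    rw [hxG]
    exact mul_eq_zero_of_right s h0
  have hydeg : (pol y).natDegree = e + 1 := natDegree_pol hyl
  have hysq : Squarefree (pol y) := by
    rw [hRy] at hsqF
    exact hsqF.of_mul_right
  have hyroot : ∀ b : ℂ, (pol y).eval (algebraMap ℂ (MK (exD r0 hr0)) b) ≠ 0 := by
    intro b h0
    apply hroot b
    rw [hRy, eval_mul, h0, mul_zero]
  have hHy : H = C s * (pol y * Pc.map (algebraMap ℂ (MK (exD r0 hr0)))) := by
    rw [hHF, hRy]
    ring
  -- the polynomial functions
  have hval : ∀ Φ : MvPolynomial (Fin (e + 2)) ℂ, ∃ h : MeromorphicOn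
      (fun z => MvPolynomial.eval (G z) Φ) (exD r0 hr0).U,
      cl (fun z => MvPolynomial.eval (G z) Φ) h = MvPolynomial.aeval y Φ := by
    intro Φ
    have h1 := Pool.Agent.Y216.LG.eval_mero' Φ hG
    exact ⟨h1, (Pool.Agent.Y216.LG.aeval_cl Φ hG h1).symm⟩
  have hsubU : ∀ z ∈ Ext r1, z ∈ (exD r0 hr0).U := fun z hz => Ext_mono h01.le hz
  have hne_of : ∀ (f : ℂ → ℂ) (hf : MeromorphicOn f (exD r0 hr0).U), cl f hf ≠ 0 →
      ∃ z ∈ Ext r1, f z ≠ 0 := by
    intro f hf hf0
    by_contra hcon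
    push Not at hcon
    obtain ⟨z1, hz1⟩ := Ext_nonempty r1
    apply hf0
    rw [cl_eq_zero]
    refine zero_all hf (hsubU z1 hz1) ?_
    filter_upwards [nhdsWithin_le_nhds ((Ext_open r1).mem_nhds hz1)] with w hw
    exact hcon w hw
  have hneΦ : ∀ Φ : MvPolynomial (Fin (e + 2)) ℂ, MvPolynomial.aeval y Φ ≠ 0 →
      ∃ z ∈ Ext r1, MvPolynomial.eval (G z) Φ ≠ 0 := by
    intro Φ hΦ
    obtain ⟨h1, h2⟩ := hval Φ
    exact hne_of _ h1 (by rw [h2]; exact hΦ)
  obtain ⟨hPM, hPcl⟩ := cl_Pf G hG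
  have hRs : Rs y (fun j => MDer (exD r0 hr0) (y j)) ≠ 0 :=
    res_ne_zero' (D := MDer (exD r0 hr0)) (fun x hx => MDer_eq_zero hx) hyl hysq hyroot
  have hd' : dsf n (pol y * Pc.map (algebraMap ℂ (MK (exD r0 hr0)))) ≠ 0 := by
    intro h1
    apply hdsf
    rw [hHy, dsf_C_mul, h1, mul_zero]
  have hdy : dsf e (pol y) ≠ 0 := dsf_ne_of_sqf hysq hydeg
  have hcnt : ∀ z (hz : z ∈ (exD r0 hr0).U), z ∈ Ext r1 → cnt (PL hz) (pol y) = 0 := by
    intro z hz hz1
    apply cnt_unique
    · intro j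
      by_cases hj : j < e + 2
      · rw [coeff_pol_lt _ hj]
        exact ge_cl _ (hGan z hz1 ⟨j, hj⟩)
      · rw [coeff_pol_ge _ (by omega)]
        exact Ge.zero
    · obtain ⟨j, hj⟩ := Function.ne_iff.1 (hGnz z hz1)
      have h1 : analyticOrderAt (fun z => G z j) z = ((0 : ℕ) : ℕ∞) := by
        rw [Nat.cast_zero, (hGan z hz1 j).analyticOrderAt_eq_zero]
        exact hj
      have h2 : (PL hz).ord (y j) = 0 := by
        have := ord_cl (hg := hG j) hz (hGan z hz1 j) h1
        exact_mod_cast this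
      have h3 : y j ≠ 0 := by
        intro h0
        have h4 := cl_eq_zero.1 h0 z hz
        have h5 : ∀ᶠ w in 𝓝[≠] z, G w j ≠ 0 :=
          nhdsWithin_le_nhds ((hGan z hz1 j).continuousAt.eventually_ne hj)
        obtain ⟨w, hw1, hw2⟩ := (h4.and h5).exists
        exact hw2 hw1
      exact ⟨(j : ℕ), by rw [coeff_pol]; exact h3, by rw [coeff_pol]; exact h2⟩
  have hordΦ : ∀ (Φ : MvPolynomial (Fin (e + 2)) ℂ) z (hz : z ∈ (exD r0 hr0).U), z ∈ Ext r1 →
      ∀ m : ℕ, analyticOrderAt (fun z => MvPolynomial.eval (G z) Φ) z = m →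
      (PL hz).ord (MvPolynomial.aeval y Φ) = m := by
    intro Φ z hz hz1 m hm
    obtain ⟨h1, h2⟩ := hval Φ
    rw [← h2]
    exact ord_cl (hg := h1) hz (eval_an Φ (hGan z hz1)) hm
  -- the core statement
  let b : Fin (e + 2) → ℂ := fun l => ((l : ℕ) : ℂ)
  have hb : Function.Injective b := by
    intro i j hij
    have h1 : ((i : ℕ) : ℂ) = ((j : ℕ) : ℂ) := hij
    exact Fin.ext (by exact_mod_cast h1)
  have hcore := core_an ha hμ hbound hen b (hr0.trans h01) hGan Pc
    (hne_of _ hPM (by rw [hPcl]; exact hRs)) (hneΦ _ (by rw [aeval_phiE]; exact hd'))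
    (hne_of _ (hG _) hyl)
    (hneΦ _ (by rw [aeval_phiE, Polynomial.map_one, mul_one]; exact hdy))
    (fun l => hneΦ _ (by rw [aeval_phiU]; exact hyroot _))
    (fun i => hneΦ _ (by rw [aeval_phiU]; exact hyroot _)) (by
      intro z hz1 bP bE bD bU hbP hbE hbD hbU
      have hz : z ∈ (exD r0 hr0).U := hsubU z hz1
      have oP : (PL hz).ord (Rs y fun j => MDer (exD r0 hr0) (y j)) = bP := by
        rw [← hPcl]
        exact ord_cl (hg := hPM) hz (Pf_an (hGan z hz1)) hbP
      have oE := hordΦ _ z hz hz1 bE hbE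
      have oD := hordΦ _ z hz hz1 bD hbD
      have oU := fun i => hordΦ _ z hz hz1 (bU i) (hbU i)
      rw [aeval_phiE] at oE oD
      rw [Polynomial.map_one, mul_one] at oD
      simp only [aeval_phiU] at oU
      have hc0 := hcnt z hz hz1
      obtain ⟨hA, hB⟩ := ord_res (P := PL hz) (derReg_PL hz) hyl hysq hyroot ha hRs
      have hdctE : dct (PL hz) e (pol y) = bD := by
        unfold dct
        rw [oD, hc0, mul_zero, sub_zero]
      have hctE : ∀ i, ct (PL hz) (pol y) (a i) = bU i := by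
        intro i
        unfold ct
        rw [oU, hc0, sub_zero]
      rw [oP, hc0, hdctE] at hA hB
      simp only [hctE, mul_zero, zero_add] at hA hB
      constructor
      · have h2 : (bD : ℤ) + ∑ i, (bU i : ℤ) ≤ bP + (e + 1) := by linarith
        exact_mod_cast h2
      · have h1 := disC_const hPc hs hH hHy hdsf hHa hc0 (hS z hz)
        simp only [oU, oE] at h1
        rcases h1 with ⟨h3, h4⟩ | h1
        · left
          have h5 := dct_zero_of_dvd hH hdeg hdsf hydeg
            ⟨C s * Pc.map (algebraMap ℂ (MK (exD r0 hr0))), by rw [hHy]; ring⟩ h3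
          rw [hdctE] at h5
          refine ⟨by exact_mod_cast h5, fun i => ?_, ?_⟩
          · rcases h4 i with h6 | h6
            · left
              exact_mod_cast h6
            · right
              have h7 : ((M - μ i : ℕ) : ℤ) = (M : ℤ) - μ i := Nat.cast_sub (hμ i)
              rw [← h7] at h6
              exact_mod_cast h6
          · have h6 := hB h5
            have h7 : ∀ i, ((bU i - 1 : ℕ) : ℤ) = (bU i : ℤ) - if 0 < (bU i : ℤ) then 1 else 0 := by
              intro i
              split_ifs with h8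
              · have : 1 ≤ bU i := by exact_mod_cast h8
                rw [Nat.cast_sub this, Nat.cast_one]
              · have : bU i = 0 := by
                  by_contra h9
                  exact h8 (by exact_mod_cast Nat.pos_of_ne_zero h9)
                rw [this]
                simp
            have h8 : ((∑ i, (bU i - 1) : ℕ) : ℤ) ≤ bP := by
              rw [Nat.cast_sum, Finset.sum_congr rfl fun i _ => h7 i]
              exact h6
            exact_mod_cast h8
        · right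
          exact_mod_cast h1)
  -- the ratios
  have hratio : ∀ l, F.eval (algebraMap ℂ (MK (exD r0 hr0)) (b l)) /
      F.eval (algebraMap ℂ (MK (exD r0 hr0)) (b 0)) ∈ Minf r0 hr0 := by
    intro l
    obtain ⟨κ, hκ, Q, hQ, R0, hQ'⟩ := hcore l
    obtain ⟨hM1, hM2⟩ := hval (phiU e (b l))
    obtain ⟨hM3, hM4⟩ := hval (phiU e (b 0))
    rw [aeval_phiU] at hM2 hM4
    have e1 : F.eval (algebraMap ℂ (MK (exD r0 hr0)) (b l)) /
        F.eval (algebraMap ℂ (MK (exD r0 hr0)) (b 0)) =
        cl ((fun z => MvPolynomial.eval (G z) (phiU e (b l))) /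
          fun z => MvPolynomial.eval (G z) (phiU e (b 0))) (hM1.div hM3) := by
      rw [← cl_div hM1 hM3, hM2, hM4, hRy, eval_mul, eval_mul, eval_C, eval_C,
        mul_div_mul_left _ _ hs]
    rw [e1]
    refine Minf_closed ?_
    obtain ⟨hn, hcl⟩ := cl_pow' (hM1.div hM3) κ
    refine IsAlgebraic.of_pow (Nat.pos_of_ne_zero hκ) ?_
    rw [← hcl]
    have hmem : cl _ hn ∈ Minf r0 hr0 := by
      refine mem_of_large (R := Q) (R0 := max R0 r0) hQ fun z hz => ?_
      have hzR : R0 < ‖z‖ := lt_of_le_of_lt (le_max_left _ _) hz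
      have hzU : z ∈ (exD r0 hr0).U := lt_of_le_of_lt (le_max_right R0 r0) hz
      have h2 := (meromorphicOrderAt_ne_top_iff_eventually_ne_zero (hM3 z hzU)).1
        (cl_ne_zero (by rw [hM4]; exact hyroot _) z hzU)
      have h3 : ∀ᶠ w in 𝓝 z, R0 < ‖w‖ := (continuous_norm.tendsto z).eventually_const_lt hzR
      filter_upwards [h2, nhdsWithin_le_nhds h3] with w hw1 hw2
      change (MvPolynomial.eval (G w) (phiU e (b l)) /
        MvPolynomial.eval (G w) (phiU e (b 0))) ^ κ = Q w
      rw [div_pow, hQ' w hw2, mul_div_cancel_right₀ _ (pow_ne_zero _ hw1)]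
    exact isAlgebraic_algebraMap (⟨_, hmem⟩ : Minf r0 hr0)
  -- the monic polynomial
  have hlc : F.leadingCoeff ≠ 0 := leadingCoeff_ne_zero.2 hF0
  have hmon : (C F.leadingCoeff⁻¹ * F).Monic := by
    rw [Polynomial.Monic.def, leadingCoeff_mul, leadingCoeff_C, inv_mul_cancel₀ hlc]
  obtain ⟨G', -, hG'⟩ := interp_mem (Minf r0 hr0) b hb hmon
    ((natDegree_C_mul_le _ _).trans he.le) (fun l => by
      rw [eval_mul, eval_mul, eval_C, eval_C, mul_div_mul_left _ _ (inv_ne_zero hlc)]
      exact hratio l) (by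
      rw [eval_mul, eval_C]
      exact mul_ne_zero (inv_ne_zero hlc) (hroot _))
  refine ⟨F.leadingCoeff, Pc.map (algebraMap ℂ (Minf r0 hr0)) * G', hlc, ?_⟩
  rw [Polynomial.map_mul, hPc', hG', hHF]
  have h1 : F = C F.leadingCoeff * (C F.leadingCoeff⁻¹ * F) := by
    rw [← mul_assoc, ← C_mul, mul_inv_cancel₀ hlc, C_1, one_mul]
  conv_lhs => rw [h1]
  ring

end Pool.Agent.H910.Dsc
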