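import Pool.Agent.H910.Dsc.Ext
import Pool.Graph.R_seed8.Y190.SC.Res

/-!
Quasi-projective varieties over the space of binary forms with a condition on the sums of the
contact orders with hyperplanes and with the discriminant hypersurface: log general type, Picard,
Brody and Lang (adapted from `Pool.Agent.Y190.SC`).
-/

set_option autoImplicit false

open MvPolynomial Metric Filter Topology

namespace Pool.Agent.H910.Dsc

open Pool.Agent.W602.Cov Pool.Agent.W602.Cov.Cover Pool.Agent.W602.Cov.R Pool.Agent.W603.BP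
open Pool.Agent.W601.PH Pool.Agent.W602.GT Pool.Agent.Y216 Pool.Agent.Y216.LG
open Pool.Agent.TH152.HY hiding aeval_inr main
open Pool.Agent.Y191 (SemiAbelianOff semi_of_brody lf)
open Pool.Agent.Y190.SC (norm_cnt lfP aeval_lfP hom_lfP FiniteOver exists_pt)

variable {N n q : ℕ}

/-- the product of the linear forms of the hyperplanes and of the discriminant -/
noncomputable def hypD (N n : ℕ) {q : ℕ} (a : Fin q → ℂ) : BiPoly N (n + 1) :=
  rename Sum.inr ((∏ i : Fin q, lfP (n + 1) (a i)) * dscP n)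

theorem aeval_hypD (a : Fin q → ℂ) {L : Type} [Field L] [Algebra ℂ L] (x : Fin (N + 1) → L)
    (y : Fin (n + 2) → L) : aeval (Sum.elim x y) (hypD N n a) =
      (∏ i, lf (fun l : Fin (n + 2) => a i ^ (l : ℕ)) y) * bdisc y := by
  unfold hypD
  rw [aeval_rename]
  change aeval y ((∏ i : Fin q, lfP (n + 1) (a i)) * dscP n) = _
  rw [map_mul, map_prod, aeval_dscP]
  congr 1
  exact Finset.prod_congr rfl fun i _ => aeval_lfP _ _

/-- the coefficients generate -/
theorem alg_pol {L : Type} [Field L] [Algebra ℂ L] {y : Fin (n + 2) → L}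
    (h : Algebra.IsAlgebraic
      (IntermediateField.adjoin ℂ {f : L | ∃ i j, y j ≠ 0 ∧ f = y i / y j}) L) :
    Algebra.IsAlgebraic (Algebra.adjoin ℂ {z | ∃ i j, z = (pol y).coeff i /
        (pol y).coeff j}) L := by
  rw [← IntermediateField.isAlgebraic_adjoin_iff_top]
  refine Pool.Agent.TH152.HY.alg_mono ?_ h
  rw [IntermediateField.adjoin_le_iff]
  rintro _ ⟨i, j, hj, rfl⟩
  exact IntermediateField.subset_adjoin ℂ _ ⟨(i : ℕ), (j : ℕ), by
    rw [coeff_pol, coeff_pol]⟩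

/-- **The main theorem**, general case. -/
theorem main_dsc {a : Fin q → ℂ} (ha : Function.Injective a) {M : ℕ} {μ c : Fin q → ℕ}
    {cD : ℕ} (hμ : ∀ i, μ i ≤ M)
    (hbound : (n + 1) * (∑ i, c i + 2 * n * cD) + 2 * M < ∑ i, μ i) {X D : BiSet N (n + 1)}
    (hR : RamifiedDisc X D a M μ c cD)
    {K : Type} [Field K] [Algebra ℂ K] {x : Fin (N + 1) → K} {y : Fin (n + 2) → K}
    (hK : X.FunctionField K x y)
    (halg : Algebra.IsAlgebraic
      (IntermediateField.adjoin ℂ {f : K | ∃ i j, y j ≠ 0 ∧ f = y i / y j}) K)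
    (h0 : ∀ i, lf (fun l : Fin (n + 2) => a i ^ (l : ℕ)) y ≠ 0) (hd0 : bdisc y ≠ 0) :
    ∃ (G : BiPoly N (n + 1)) (E : ℕ), BiHom G 0 E ∧ aeval (Sum.elim x y) G ≠ 0 ∧
      PicardOff X D G ∧ BrodyOff X D G ∧ SemiAbelianOff X D G ∧ LangOff X D G := by
  classical
  choose Dg mm e hrel using fun i j => exists_rel hK halg i j
  let Q0 : MvPolynomial (Fin (n + 2)) ℂ :=
    ∏ i : Fin (N + 1), ∏ j : Fin (N + 1), e i j (mm i j)
  let Q : MvPolynomial (Fin (n + 2)) ℂ := Q0 * ((∏ i : Fin q, lfP (n + 1) (a i)) * dscP n)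
  obtain ⟨E, hQh⟩ : ∃ E, Q.IsHomogeneous E :=
    ⟨_, (IsHomogeneous.prod _ _ _ fun i _ => IsHomogeneous.prod _ _ _ fun j _ =>
      (hrel i j).1.hom _ le_rfl).mul ((IsHomogeneous.prod _ _ _ fun i _ =>
        hom_lfP (n + 1) (a i)).mul (hom_dscP n))⟩
  have hsplit : ∀ {L : Type} [Field L] [Algebra ℂ L] (y' : Fin (n + 2) → L), aeval y' Q ≠ 0 →
      (∀ i j, aeval y' (e i j (mm i j)) ≠ 0) ∧ (∀ i, aeval y' (lfP (n + 1) (a i)) ≠ 0) ∧
      aeval y' (dscP n) ≠ 0 := by
    intro L _ _ y' hy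
    simp only [Q, Q0, map_mul, map_prod] at hy
    refine ⟨fun i j h0 => hy ?_, fun i h0 => hy ?_, fun h0 => hy ?_⟩
    · rw [Finset.prod_eq_zero (Finset.mem_univ i) (Finset.prod_eq_zero (Finset.mem_univ j) h0),
        zero_mul]
    · rw [Finset.prod_eq_zero (f := fun i => aeval y' (lfP (n + 1) (a i))) (Finset.mem_univ i) h0,
        zero_mul, mul_zero]
    · rw [h0, mul_zero, mul_zero]
  have hyQ : aeval y Q ≠ 0 := by
    simp only [Q, Q0, map_mul, map_prod]
    refine mul_ne_zero (Finset.prod_ne_zero_iff.mpr fun i _ =>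
      Finset.prod_ne_zero_iff.mpr fun j _ => (hrel i j).2) (mul_ne_zero
        (Finset.prod_ne_zero_iff.mpr fun i _ => ?_) ?_)
    · rw [aeval_lfP]
      exact h0 i
    · rw [aeval_dscP]
      exact hd0
  have hinr : ∀ {L : Type} [Field L] [Algebra ℂ L] (x' : Fin (N + 1) → L) (y' : Fin (n + 2) → L),
      aeval (Sum.elim x' y') (rename Sum.inr Q : BiPoly N (n + 1)) = aeval y' Q := by
    intro L _ _ x' y'
    rw [aeval_rename]
    rfl
  have hLang : LangOff X D (rename Sum.inr Q) := by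
    intro L _ _ x' y' w hmem _ hne hgen htr hw
    rw [hinr] at hne
    obtain ⟨h1, h2, h2'⟩ := hsplit y' hne
    have h3 := alg_sub (fun i j => (hrel i j).1) hmem h1 hgen
    have h5 : ∀ i, (pol y').eval (algebraMap ℂ L (a i)) ≠ 0 := by
      intro i
      have := h2 i
      rw [aeval_lfP] at this
      rw [eval_pol_eq]
      exact this
    have h6 : dsf n (pol y') ≠ 0 := by
      rwa [aeval_dscP, bdisc_eq] at h2'
    exact core_dsc hw htr a ha hμ hbound (pol y') (pol_ne hmem.2.1) (natDegree_pol_le y') h6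
      (alg_pol h3) h5 _ fun P _ hP => hR.disC hμ hmem h5 h6 hP
  have hPic : PicardOff X D (rename Sum.inr Q) := by
    rintro u v huv ⟨z0, hz0, hne⟩
    have hu := fun j => an_of_diffOn huv.diffu j
    have hmem : ∀ z ∈ PB 1, QMem X D (u z) (v z) := fun z hz => huv.mem z (mem_disc.mpr hz)
    have hne' : aeval (v z0) Q ≠ 0 := by
      rw [← hinr (u z0) (v z0)]
      exact hne
    obtain ⟨h1, h2, h2'⟩ := hsplit (v z0) hne'
    have hE : Extends v := disc_extends ha hμ hbound hR huv (mem_disc.mp hz0) (fun i => h2 i) h2'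
    exact ⟨extends_lift (X := conv X) hu (fun z hz => (hmem z hz).1) hE (mem_disc.mp hz0)
      (fib_finite (fun i j => (hrel i j).1) h1), hE⟩
  exact ⟨rename Sum.inr Q, E, biHom_rename hQh, by rw [hinr]; exact hyQ, hPic,
    brody_of_picard hPic, semi_of_brody (brody_of_picard hPic), hLang⟩

/-- **The main theorem for finite morphisms.** -/
theorem main_fin_dsc {a : Fin q → ℂ} (ha : Function.Injective a) {M : ℕ} {μ c : Fin q → ℕ}
    {cD : ℕ} (hμ : ∀ i, μ i ≤ M)
    (hbound : (n + 1) * (∑ i, c i + 2 * n * cD) + 2 * M < ∑ i, μ i) {X D : BiSet N (n + 1)}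
    (hR : RamifiedDisc X D a M μ c cD) (hfin : FiniteOver X) :
    PicardOff X D (hypD N n a) ∧ BrodyOff X D (hypD N n a) ∧ SemiAbelianOff X D (hypD N n a) ∧
      LangOff X D (hypD N n a) := by
  classical
  have hLang : LangOff X D (hypD N n a) := by
    intro L _ _ x' y' w hmem _ hne hgen htr hw
    rw [aeval_hypD] at hne
    have h3 := hfin.alg hmem hgen
    have h5 : ∀ i, (pol y').eval (algebraMap ℂ L (a i)) ≠ 0 := by
      intro i
      rw [eval_pol_eq]
      exact (Finset.prod_ne_zero_iff.1 (left_ne_zero_of_mul hne)) i (Finset.mem_univ i)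
    have h6 : dsf n (pol y') ≠ 0 := by
      rw [← bdisc_eq]
      exact right_ne_zero_of_mul hne
    exact core_dsc hw htr a ha hμ hbound (pol y') (pol_ne hmem.2.1) (natDegree_pol_le y') h6
      (alg_pol h3) h5 _ fun P _ hP => hR.disC hμ hmem h5 h6 hP
  have hPic : PicardOff X D (hypD N n a) := by
    rintro u v huv ⟨z0, hz0, hne⟩
    have hu := fun j => an_of_diffOn huv.diffu j
    have hmem : ∀ z ∈ PB 1, QMem X D (u z) (v z) := fun z hz => huv.mem z (mem_disc.mpr hz)
    have hne' : aeval (Sum.elim (u z0) (v z0)) (hypD N n a) ≠ 0 := hne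
    rw [aeval_hypD] at hne'
    have hE : Extends v := disc_extends ha hμ hbound hR huv (mem_disc.mp hz0) (fun i => by
      have h1 := (Finset.prod_ne_zero_iff.1 (left_ne_zero_of_mul hne')) i (Finset.mem_univ i)
      have h2 : aeval (v z0) (lfP (n + 1) (a i)) ≠ 0 := by
        rw [aeval_lfP]
        exact h1
      exact h2) (by
      have h2 : aeval (v z0) (dscP n) ≠ 0 := by
        rw [aeval_dscP]
        exact right_ne_zero_of_mul hne'
      exact h2)
    exact ⟨extends_lift (X := conv X) hu (fun z hz => (hmem z hz).1) hE (mem_disc.mp hz0)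
      (hfin.fib (hmem z0 (mem_disc.mp hz0)).1.2.1), hE⟩
  exact ⟨hPic, brody_of_picard hPic, semi_of_brody (brody_of_picard hPic), hLang⟩

/-- **The result.** -/
theorem final_dsc {a : Fin q → ℂ} (ha : Function.Injective a) {M : ℕ} {μ c : Fin q → ℕ}
    {cD : ℕ} (hμ : ∀ i, μ i ≤ M)
    (hbound : (n + 1) * (∑ i, c i + 2 * n * cD) + 2 * M < ∑ i, μ i) {X D : BiSet N (n + 1)}
    (hR : RamifiedDisc X D a M μ c cD)
    {K : Type} [Field K] [Algebra ℂ K] {x : Fin (N + 1) → K} {y : Fin (n + 2) → K} {t : ℕ}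
    (hK : X.FunctionField K x y) (hD : ¬ D.Mem x y)
    (halg : Algebra.IsAlgebraic
      (IntermediateField.adjoin ℂ {f : K | ∃ i j, y j ≠ 0 ∧ f = y i / y j}) K)
    (ht : Algebra.trdeg ℂ K = t) (ht1 : 1 ≤ t)
    (h0 : ∀ i, lf (fun l : Fin (n + 2) => a i ^ (l : ℕ)) y ≠ 0) (hd0 : bdisc y ≠ 0) :
    ∃ (G : BiPoly N (n + 1)) (E : ℕ), BiHom G 0 E ∧
      (∃ u v, QMem X D u v ∧ eval (Sum.elim u v) G ≠ 0) ∧
      LogGeneralType ℂ K t (CentreIn D x y) ∧
      PicardOff X D G ∧ BrodyOff X D G ∧ SemiAbelianOff X D G ∧ LangOff X D G ∧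
      (FiniteOver X → G = hypD N n a) := by
  by_cases hfin : FiniteOver X
  · obtain ⟨h1, h2, h3, h4⟩ := main_fin_dsc ha hμ hbound hR hfin
    have hh : ((∏ i : Fin q, lfP (n + 1) (a i)) * dscP n).IsHomogeneous
        ((∑ _i : Fin q, 1) + 2 * n) :=
      (IsHomogeneous.prod _ _ _ fun i _ => hom_lfP (n + 1) (a i)).mul (hom_dscP n)
    have hG : BiHom (hypD N n a) 0 ((∑ _i : Fin q, 1) + 2 * n) := biHom_rename hh
    have hne : aeval (Sum.elim x y) (hypD N n a) ≠ 0 := by
      rw [aeval_hypD]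
      exact mul_ne_zero (Finset.prod_ne_zero_iff.2 fun i _ => h0 i) hd0
    exact ⟨hypD N n a, _, hG, exists_pt hK hD hG hne,
      h4 K x y t hK.mem hD hne hK.gen ht ht1, h1, h2, h3, h4, fun _ => rfl⟩
  · obtain ⟨G, E, hG, hne, h1, h2, h3, h4⟩ := main_dsc ha hμ hbound hR hK halg h0 hd0
    exact ⟨G, E, hG, exists_pt hK hD hG hne, h4 K x y t hK.mem hD hne hK.gen ht ht1, h1, h2, h3,
      h4, fun h => absurd h hfin⟩

end Pool.Agent.H910.Dsc
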