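import Pool.Graph.R_seed8.Y216.EcB

/-!
The discriminant of a polynomial and its roots.
-/

set_option autoImplicit false
set_option linter.unusedSectionVars false

open Polynomial

namespace Pool.Agent.H910.Dsc

open Pool.Agent.Y216

section ring

variable {R : Type*} [CommRing R] {n : ℕ}

/-- The discriminant of the polynomial `F` of degree at most `n + 1`, as a binary form of degree
`n + 1`, up to a constant factor: the resultant of the partial derivatives. -/
noncomputable def dsf (n : ℕ) (F : R[X]) : R :=
  resultant (derivative F) (C ((n + 1 : ℕ) : R) * F - X * derivative F) n n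

theorem bdisc_eq (f : Fin (n + 2) → R) : bdisc f = dsf n (pol f) := by
  unfold bdisc dsf
  rw [pol_parX, pol_parY]

theorem map_dsf {S : Type*} [CommRing S] (φ : R →+* S) (F : R[X]) :
    dsf n (F.map φ) = φ (dsf n F) := by
  unfold dsf
  rw [← resultant_map_map, Polynomial.map_sub, Polynomial.map_mul, Polynomial.map_mul, map_C,
    map_X, derivative_map, map_natCast φ]

theorem dsf_C_mul (u : R) (F : R[X]) : dsf n (C u * F) = u ^ (2 * n) * dsf n F := by
  unfold dsf
  rw [derivative_C_mul, show C ((n + 1 : ℕ) : R) * (C u * F) - X * (C u * derivative F) =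
    C u * (C ((n + 1 : ℕ) : R) * F - X * derivative F) by ring, resultant_C_mul_left,
    resultant_C_mul_right]
  ring

end ring

section field

variable {L : Type*} [Field L] {κ : Type*} [Fintype κ] [DecidableEq κ] {n : ℕ}

/-- the polynomial with given roots -/
noncomputable def pr (h : L) (τ : κ → L) : L[X] := C h * ∏ k, (X - C (τ k))

theorem pr_ne {h : L} (hh : h ≠ 0) (τ : κ → L) : pr h τ ≠ 0 :=
  mul_ne_zero (C_ne_zero.2 hh) (Finset.prod_ne_zero_iff.2 fun _ _ => X_sub_C_ne_zero _)

theorem pr_roots {h : L} (hh : h ≠ 0) (τ : κ → L) : (pr h τ).roots = Finset.univ.val.map τ := by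
  unfold pr
  rw [roots_C_mul _ hh, roots_prod _ _ (Finset.prod_ne_zero_iff.2 fun k _ => X_sub_C_ne_zero _)]
  simp only [roots_X_sub_C]
  exact Multiset.bind_singleton _ _

theorem pr_splits (h : L) (τ : κ → L) : (pr h τ).Splits :=
  (Splits.C _).mul (Splits.prod fun _ _ => Splits.X_sub_C _)

theorem pr_natDegree {h : L} (hh : h ≠ 0) (τ : κ → L) : (pr h τ).natDegree = Fintype.card κ := by
  rw [(pr_splits h τ).natDegree_eq_card_roots, pr_roots hh]
  simp

theorem pr_lead {h : L} (τ : κ → L) : (pr h τ).leadingCoeff = h := by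
  unfold pr
  rw [leadingCoeff_mul, leadingCoeff_C, leadingCoeff_prod]
  simp

/-- the resultant as a product -/
theorem res_pr {h : L} (hh : h ≠ 0) (τ : κ → L) (g : L[X]) {m : ℕ} (hg : g.natDegree ≤ m) :
    resultant (pr h τ) g (Fintype.card κ) m = h ^ m * ∏ k, g.eval (τ k) := by
  have h1 := resultant_eq_prod_eval (pr h τ) g m hg (pr_splits h τ)
  rw [pr_natDegree hh, pr_lead, pr_roots hh, Multiset.map_map] at h1
  rw [h1]
  rfl

theorem der_pr (h : L) (τ : κ → L) (k : κ) :
    (derivative (pr h τ)).eval (τ k) = h * ∏ l ∈ Finset.univ.erase k, (τ k - τ l) := by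
  unfold pr
  rw [derivative_C_mul, ← Finset.mul_prod_erase Finset.univ _ (Finset.mem_univ k),
    derivative_mul, derivative_sub, derivative_X, derivative_C, eval_mul, eval_C, eval_add,
    eval_mul, eval_mul, eval_prod]
  simp

theorem natDegree_aux {F : L[X]} (hF : F.natDegree ≤ n + 1) :
    (C ((n + 1 : ℕ) : L) * F - X * derivative F).natDegree ≤ n := by
  rw [natDegree_le_iff_coeff_eq_zero]
  intro i hi
  obtain ⟨j, rfl⟩ : ∃ j, i = j + 1 := ⟨i - 1, by omega⟩
  rw [coeff_sub, coeff_C_mul, coeff_X_mul, coeff_derivative]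
  by_cases hj : j = n
  · subst hj
    push_cast
    ring
  · rw [coeff_eq_zero_of_natDegree_lt (by omega)]
    ring

/-- the discriminant of a polynomial of maximal degree -/
theorem dsf_pr {h : L} (hh : h ≠ 0) (τ : κ → L) (hc : Fintype.card κ = n + 1) :
    ((n + 1 : ℕ) : L) ^ n * (h ^ n * ∏ k, (derivative (pr h τ)).eval (τ k)) =
      ((n + 1 : ℕ) : L) * h * dsf n (pr h τ) := by
  set F := pr h τ with hF
  have hFd : F.natDegree = n + 1 := by rw [hF, pr_natDegree hh, hc]
  have hd : (derivative F).natDegree ≤ n := by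
    have := natDegree_derivative_le F
    omega
  set Y := C ((n + 1 : ℕ) : L) * F - X * derivative F with hY
  have hYd : Y.natDegree ≤ n := natDegree_aux hFd.le
  have h1 : resultant F (derivative F) (n + 1) n = h ^ n * ∏ k, (derivative F).eval (τ k) := by
    rw [← hc]
    exact res_pr hh τ _ hd
  have h2 : resultant (C ((n + 1 : ℕ) : L) * F) (derivative F) (n + 1) n =
      ((n + 1 : ℕ) : L) ^ n * resultant F (derivative F) (n + 1) n := resultant_C_mul_left _ _ _ _ _
  have h3 : C ((n + 1 : ℕ) : L) * F = Y + derivative F * X := by rw [hY]; ring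
  have h4 : resultant (Y + derivative F * X) (derivative F) (n + 1) n =
      resultant Y (derivative F) (n + 1) n := by
    apply resultant_add_mul_left
    · have := natDegree_X_le (R := L)
      omega
    · exact hd
  have h5 : resultant Y (derivative F) (n + 1) n =
      (-1) ^ n * (derivative F).coeff n * resultant Y (derivative F) n n :=
    resultant_succ_left_deg _ _ _ _ hYd
  have h6 : resultant Y (derivative F) n n = (-1) ^ (n * n) * resultant (derivative F) Y n n :=
    resultant_comm _ _ _ _
  have h7 : (derivative F).coeff n = ((n + 1 : ℕ) : L) * h := by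
    rw [coeff_derivative, ← hFd, coeff_natDegree, hF, pr_lead, pr_natDegree hh, hc]
    push_cast
    ring
  have h8 : ((-1 : L)) ^ n * (-1) ^ (n * n) = 1 := by
    rw [← pow_add]
    have : Even (n + n * n) := by
      have := Nat.even_mul_succ_self n
      rw [show n + n * n = n * (n + 1) by ring]
      exact this
    exact this.neg_one_pow
  rw [← h1, ← h2, h3, h4, h5, h6, h7]
  change _ = ((n + 1 : ℕ) : L) * h * resultant (derivative F) Y n n
  linear_combination (((n + 1 : ℕ) : L) * h * resultant (derivative F) Y n n) * h8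

/-- the discriminant of a polynomial of submaximal degree -/
theorem dsf_pr' {h : L} (hh : h ≠ 0) (τ : κ → L) (hc : Fintype.card κ = n + 1) :
    dsf (n + 1) (pr h τ) = (-1) ^ (n + 1) * ((n + 2 : ℕ) : L) ^ n * h * (h ^ n *
      ∏ k, (derivative (pr h τ)).eval (τ k)) := by
  set F := pr h τ with hF
  have hFd : F.natDegree = n + 1 := by rw [hF, pr_natDegree hh, hc]
  have hd : (derivative F).natDegree ≤ n := by
    have := natDegree_derivative_le F
    omega
  set Y := C ((n + 1 + 1 : ℕ) : L) * F - X * derivative F with hY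
  have hYd : Y.natDegree ≤ n + 1 := natDegree_aux (n := n + 1) (by omega)
  have h1 : resultant F (derivative F) (n + 1) n = h ^ n * ∏ k, (derivative F).eval (τ k) := by
    rw [← hc]
    exact res_pr hh τ _ hd
  have hYc : Y.coeff (n + 1) = h := by
    rw [hY, coeff_sub, coeff_C_mul, coeff_X_mul, coeff_derivative, ← hFd, coeff_natDegree, hF,
      pr_lead, pr_natDegree hh, hc]
    push_cast
    ring
  have h2 : dsf (n + 1) F = (-1) ^ (n + 1) * Y.coeff (n + 1) *
      resultant (derivative F) Y n (n + 1) := resultant_succ_left_deg _ _ _ _ hd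
  have h3 : Y = C ((n + 1 + 1 : ℕ) : L) * F + derivative F * (-X) := by rw [hY]; ring
  have h4 : resultant (derivative F) Y n (n + 1) =
      resultant (derivative F) (C ((n + 1 + 1 : ℕ) : L) * F) n (n + 1) := by
    rw [h3]
    apply resultant_add_mul_right
    · rw [natDegree_neg]
      have := natDegree_X_le (R := L)
      omega
    · exact hd
  have h5 : resultant (derivative F) (C ((n + 1 + 1 : ℕ) : L) * F) n (n + 1) =
      ((n + 1 + 1 : ℕ) : L) ^ n * resultant (derivative F) F n (n + 1) :=
    resultant_C_mul_right _ _ _ _ _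
  have h6 : resultant (derivative F) F n (n + 1) =
      (-1) ^ (n * (n + 1)) * resultant F (derivative F) (n + 1) n := resultant_comm _ _ _ _
  have h8 : ((-1 : L)) ^ (n * (n + 1)) = 1 := (Nat.even_mul_succ_self n).neg_one_pow
  rw [h2, hYc, h4, h5, h6, h8, h1]
  ring

/-- The resultant of a polynomial and the polynomial of its derivatives. -/
theorem res_der {h : L} (hh : h ≠ 0) (τ : κ → L) (hc : Fintype.card κ = n + 1) {g : L[X]}
    (hg : g.natDegree ≤ n + 1) (t : κ → L)
    (ht : ∀ k, g.eval (τ k) = -((derivative (pr h τ)).eval (τ k) * t k)) :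
    ((n + 1 : ℕ) : L) ^ n * resultant (pr h τ) g (n + 1) (n + 1) =
      (-1) ^ (n + 1) * ((n + 1 : ℕ) : L) * h ^ 2 * dsf n (pr h τ) * ∏ k, t k := by
  have h1 := res_pr hh τ g hg
  rw [hc] at h1
  have h2 : ∏ k, g.eval (τ k) = (-1) ^ (n + 1) * (∏ k, (derivative (pr h τ)).eval (τ k)) *
      ∏ k, t k := by
    have h3 : ∀ k, g.eval (τ k) = (-1) * ((derivative (pr h τ)).eval (τ k) * t k) := fun k => by
      rw [ht k]; ring
    rw [Finset.prod_congr rfl fun k _ => h3 k, Finset.prod_mul_distrib, Finset.prod_const,
      Finset.card_univ, hc, Finset.prod_mul_distrib]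
    ring
  have h4 := dsf_pr hh τ hc
  rw [h1, h2]
  linear_combination ((-1) ^ (n + 1) * h * ∏ k, t k) * h4

end field

end Pool.Agent.H910.Dsc
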