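import Pool.Agent.H910.Dsc.Prm

/-!
The core statement for one curve in the space of binary forms near infinity.
-/

set_option autoImplicit false

open Polynomial Filter Topology Set Metric

namespace Pool.Agent.H910.Dsc

open Pool.Agent.Y190.BV Pool.Agent.Y216 Pool.Agent.W601.PH Pool.Agent.W601.SM
  Pool.Agent.W603.BP Pool.Agent.Y190.AN

/-- the indices of the functions -/
abbrev Ob (e q : ℕ) : Type := Option (Option (Option (Option (Fin (e + 2) ⊕ Fin q))))

/-- a function on the indices -/
def ob {e q : ℕ} {R : Type*} (P E h D : R) (V : Fin (e + 2) → R) (U : Fin q → R) : Ob e q → R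
  | none => P
  | some none => E
  | some (some none) => h
  | some (some (some none)) => D
  | some (some (some (some (Sum.inl l)))) => V l
  | some (some (some (some (Sum.inr i)))) => U i

theorem prod_ob {e q : ℕ} {R : Type*} [CommMonoid R] (f : Ob e q → R) :
    ∏ o, f o = f none * (f (some none) * (f (some (some none)) * (f (some (some (some none))) *
      ((∏ l, f (some (some (some (some (Sum.inl l)))))) *
        ∏ i, f (some (some (some (some (Sum.inr i))))))))) := by
  rw [Fintype.prod_option, Fintype.prod_option, Fintype.prod_option, Fintype.prod_option,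
    Fintype.prod_sum_type]

theorem sum_ob {e q : ℕ} {R : Type*} [AddCommMonoid R] (f : Ob e q → R) :
    ∑ o, f o = f none + (f (some none) + (f (some (some none)) + (f (some (some (some none))) +
      ((∑ l, f (some (some (some (some (Sum.inl l)))))) +
        ∑ i, f (some (some (some (some (Sum.inr i))))))))) := by
  rw [Fintype.sum_option, Fintype.sum_option, Fintype.sum_option, Fintype.sum_option,
    Fintype.sum_sum_type]

/-- **The core statement.** -/
theorem core_an {n e q M cD : ℕ} {a : Fin q → ℂ} (ha : Function.Injective a) {μ c : Fin q → ℕ}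
    (hμ : ∀ i, μ i ≤ M)
    (hbound : (n + 1) * (∑ i, c i + 2 * n * cD) + 2 * M < ∑ i, μ i) (hen : e ≤ n)
    (b : Fin (e + 2) → ℂ) {r1 : ℝ} (hr1 : 0 < r1) {G : ℂ → Fin (e + 2) → ℂ}
    (hG : ∀ z ∈ Ext r1, AnA G z) (Pc : ℂ[X])
    (hneP : ∃ z ∈ Ext r1, Pf G z ≠ 0)
    (hneE : ∃ z ∈ Ext r1, MvPolynomial.eval (G z) (phiE n e Pc) ≠ 0)
    (hneh : ∃ z ∈ Ext r1, G z (Fin.last _) ≠ 0)
    (hneD : ∃ z ∈ Ext r1, MvPolynomial.eval (G z) (phiE e e 1) ≠ 0)
    (hneV : ∀ l, ∃ z ∈ Ext r1, MvPolynomial.eval (G z) (phiU e (b l)) ≠ 0)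
    (hneU : ∀ i, ∃ z ∈ Ext r1, MvPolynomial.eval (G z) (phiU e (a i)) ≠ 0)
    (hord : ∀ z ∈ Ext r1, ∀ (bP bE bD : ℕ) (bU : Fin q → ℕ),
      analyticOrderAt (Pf G) z = bP →
      analyticOrderAt (fun z => MvPolynomial.eval (G z) (phiE n e Pc)) z = bE →
      analyticOrderAt (fun z => MvPolynomial.eval (G z) (phiE e e 1)) z = bD →
      (∀ i, analyticOrderAt (fun z => MvPolynomial.eval (G z) (phiU e (a i))) z = bU i) →
      bD + ∑ i, bU i ≤ bP + (e + 1) ∧
      ((bD = 0 ∧ (∀ i, bU i = 0 ∨ M ≤ (M - μ i) * bU i) ∧ ∑ i, (bU i - 1) ≤ bP) ∨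
        M ≤ ∑ i, c i * bU i + cD * bE))
    (l : Fin (e + 2)) :
    ∃ K : ℕ, K ≠ 0 ∧ ∃ R : ℂ → ℂ, MeromorphicAt (fun w => R w⁻¹) 0 ∧ ∃ R0 : ℝ, ∀ z, R0 < ‖z‖ →
      MvPolynomial.eval (G z) (phiU e (b l)) ^ K =
        R z * MvPolynomial.eval (G z) (phiU e (b 0)) ^ K := by
  classical
  have hμs : ∑ i, μ i ≤ q * M := by
    refine (Finset.sum_le_sum fun i _ => hμ i).trans (le_of_eq ?_)
    rw [Finset.sum_const, Finset.card_univ, Fintype.card_fin, smul_eq_mul]
  have hM : 0 < M := by
    rcases Nat.eq_zero_or_pos M with h | h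
    · rw [h, mul_zero] at hμs
      omega
    · exact h
  have hq2 : 2 < q := by
    have h1 : 2 * M < q * M := lt_of_lt_of_le (lt_of_le_of_lt (Nat.le_add_left _ _) hbound) hμs
    exact lt_of_mul_lt_mul_right h1 (Nat.zero_le _)
  set d : ℕ := e + 1 with hd
  set X0 : ℕ := ∑ i, c i + 2 * n * cD with hX0
  have hdX : d * X0 + 2 * M + 1 ≤ ∑ i, μ i := by
    have h1 : d * X0 ≤ (n + 1) * X0 := Nat.mul_le_mul_right _ (by omega)
    omega
  -- the exponents
  set N : ℕ := q * M + 1 with hN
  obtain ⟨k0, hk0⟩ : ∃ k0, k0 + 2 * N = q * (N - 1) := by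
    have h1 : 2 * N ≤ q * (N - 1) := by
      rw [hN]
      have h2 : 3 * (q * M) ≤ q * (q * M) := Nat.mul_le_mul_right _ hq2
      have h3 : 2 ≤ q * M := by nlinarith
      have e1 : q * M + 1 - 1 = q * M := rfl
      rw [e1]
      omega
    exact ⟨q * (N - 1) - 2 * N, by omega⟩
  set ν : Fin q → ℕ := fun i => N * μ i - M with hνdef
  have hνle : ∀ i, ν i ≤ (N - 1) * M := by
    intro i
    simp only [hνdef]
    have h1 : N * μ i ≤ N * M := Nat.mul_le_mul_left _ (hμ i)
    have h2 : N * M = (N - 1) * M + M := by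
      have : N = (N - 1) + 1 := by omega
      conv_lhs => rw [this]
      ring
    omega
  obtain ⟨κ, hκ0, hκ⟩ : ∃ κ, 0 < κ ∧
      k0 * M = ∑ i, ((N - 1) * M - ν i) + d * N * X0 + κ := by
    have h1 : ∑ i, ((N - 1) * M - ν i) + d * N * X0 + 1 ≤ k0 * M := by
      have h2 : k0 * M + 2 * N * M = q * (N - 1) * M := by rw [← hk0]; ring
      have h8 : ∑ i, ((N - 1) * M - ν i) + ∑ i, ν i = q * (N - 1) * M := by
        rw [← Finset.sum_add_distrib]
        have h9 : ∀ i ∈ (Finset.univ : Finset (Fin q)), (N - 1) * M - ν i + ν i = (N - 1) * M :=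
          fun i _ => Nat.sub_add_cancel (hνle i)
        rw [Finset.sum_congr rfl h9, Finset.sum_const, Finset.card_univ, Fintype.card_fin,
          smul_eq_mul]
        ring
      have h10 : N * ∑ i, μ i ≤ ∑ i, ν i + q * M := by
        rw [Finset.mul_sum]
        have h11 : ∑ i, ν i + q * M = ∑ i, (ν i + M) := by
          rw [Finset.sum_add_distrib, Finset.sum_const, Finset.card_univ, Fintype.card_fin,
            smul_eq_mul]
        rw [h11]
        refine Finset.sum_le_sum fun i _ => ?_
        simp only [hνdef]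
        omega
      have h4 : N * (d * X0 + 2 * M + 1) ≤ N * ∑ i, μ i := Nat.mul_le_mul_left _ hdX
      have h5 : N * (d * X0 + 2 * M + 1) = d * N * X0 + 2 * N * M + N := by ring
      have h7 : N = q * M + 1 := hN
      generalize d * N * X0 = A1 at *
      generalize k0 * M = A2 at *
      generalize 2 * N * M = A3 at *
      generalize q * (N - 1) * M = A4 at *
      generalize q * M = A6 at *
      generalize ∑ i, ((N - 1) * M - ν i) = A7 at *
      generalize ∑ i, ν i = A8 at *
      generalize N * ∑ i, μ i = A9 at *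
      omega
    exact ⟨k0 * M - (∑ i, ((N - 1) * M - ν i) + d * N * X0), by omega, by omega⟩
  set m2 : ℕ := 2 * e + 1 with hm2
  -- the constants
  obtain ⟨C1, hC1, hpi⟩ := pi_ineq (e := e) (q := q) (m := N - 1) (k := k0) (by omega)
    (by rw [← hk0]; congr 1) a ha
  obtain ⟨CE, hCE, hbE⟩ := bound_phiE n e Pc
  obtain ⟨CD, hCD, hbD⟩ := bound_phiE e e 1
  have hbU0 := fun i => bound_phiU e (a i)
  choose CU hCU hbU using hbU0
  have hbV0 := fun l => bound_phiU e (b l)
  choose CV hCV hbV using hbV0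
  have nU : ∀ i, 0 ≤ CU i := fun i => by linarith [hCU i]
  have nV : ∀ l, 0 ≤ CV l := fun l => by linarith [hCV l]
  set B : ℝ := 1 + CE + CD + ∑ i, CU i + ∑ l, CV l with hB
  have sU : 0 ≤ ∑ i, CU i := Finset.sum_nonneg fun i _ => nU i
  have sV : 0 ≤ ∑ l, CV l := Finset.sum_nonneg fun i _ => nV i
  have hB1 : 1 ≤ B := by linarith
  have hBE : CE ≤ B := by linarith
  have hBD : CD ≤ B := by linarith
  have hBU : ∀ i, CU i ≤ B := fun i => by
    have := Finset.single_le_sum (f := CU) (fun i _ => nU i) (Finset.mem_univ i)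
    linarith
  have hBV : ∀ i, CV i ≤ B := fun i => by
    have := Finset.single_le_sum (f := CV) (fun i _ => nV i) (Finset.mem_univ i)
    linarith
  have hB0 : 0 ≤ B := by linarith
  -- the data
  let f : Ob e q → ℂ → ℂ := ob (Pf G) (fun z => MvPolynomial.eval (G z) (phiE n e Pc))
    (fun z => G z (Fin.last _)) (fun z => MvPolynomial.eval (G z) (phiE e e 1))
    (fun l z => MvPolynomial.eval (G z) (phiU e (b l)))
    (fun i z => MvPolynomial.eval (G z) (phiU e (a i)))
  let α : Ob e q → ℕ := ob (N * M * m2) (d * N * cD * m2) 0 0 (fun _ => 0)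
    (fun i => d * N * c i * m2)
  let β : Ob e q → ℕ := ob 0 0 0 (N * M * m2) (fun _ => 0) (fun i => ν i * m2)
  let oh : Ob e q := some (some none)
  let oD : Ob e q := some (some (some none))
  let oV : Fin (e + 2) → Ob e q := fun l => some (some (some (some (Sum.inl l))))
  let oU : Fin q → Ob e q := fun i => some (some (some (some (Sum.inr i))))
  let γ : Fin (e + 2) ⊕ (Fin q ⊕ Bool) → Ob e q → ℕ := fun m => match m with
    | Sum.inl l => fun o => if o = oV l then κ * m2 else 0
    | Sum.inr (Sum.inl i) => fun o => if o = oU i then κ * m2 else 0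
    | Sum.inr (Sum.inr false) => fun o => if o = oh then κ * m2 else 0
    | Sum.inr (Sum.inr true) => fun o => (if o = oD then κ else 0) + if o = oV 0 then κ else 0
  have hm20 : m2 ≠ 0 := by omega
  have hκm : κ * m2 ≠ 0 := Nat.mul_ne_zero hκ0.ne' hm20
  have hmain := core_mono' (O := Ob e q) hr1 f ?_ ?_ α β γ ?_
    (C := ((B ^ 2) ^ m2) ^ κ *
      (B ^ (d * N * cD + ∑ i, d * N * c i + ∑ i, ((N - 1) * M - ν i))) ^ m2 * C1 ^ (M * m2))
    ?_ (d * N * (M * m2)) ?_ (Sum.inl 0) (Sum.inl l)
  · obtain ⟨R, hR, R0, hRe⟩ := hmain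
    refine ⟨κ * m2, hκm, R, hR, R0, fun z hz => ?_⟩
    have h1 := hRe z hz
    have e1 : ∀ l', ∏ o, f o z ^ γ (Sum.inl l') o =
        MvPolynomial.eval (G z) (phiU e (b l')) ^ (κ * m2) := fun l' =>
      prod_pow_single (fun o => f o z) (oV l') (κ * m2)
    rw [e1, e1] at h1
    exact h1
  · -- analytic
    rintro (_ | _ | _ | _ | (l' | i)) z hz
    · exact Pf_an (hG z hz)
    · exact eval_an _ (hG z hz)
    · exact hG z hz _
    · exact eval_an _ (hG z hz)
    · exact eval_an _ (hG z hz)
    · exact eval_an _ (hG z hz)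
  · -- not zero
    rintro (_ | _ | _ | _ | (l' | i))
    · exact hneP
    · exact hneE
    · exact hneh
    · exact hneD
    · exact hneV l'
    · exact hneU i
  · -- orders
    intro z hz bb hbb
    obtain ⟨h1, h2⟩ := hord z hz (bb none) (bb (some none)) (bb oD) (fun i => bb (oU i))
      (hbb none) (hbb (some none)) (hbb oD) fun i => hbb (oU i)
    rw [sum_ob, sum_ob]
    simp only [α, β, ob, zero_mul, zero_add, Finset.sum_const_zero]
    change N * M * m2 * bb oD + ∑ i, ν i * m2 * bb (oU i) ≤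
      N * M * m2 * bb none + (d * N * cD * m2 * bb (some none) +
        ∑ i, d * N * c i * m2 * bb (oU i))
    have e2 : ∑ i, d * N * c i * m2 * bb (oU i) = d * N * m2 * ∑ i, c i * bb (oU i) := by
      rw [Finset.mul_sum]
      exact Finset.sum_congr rfl fun i _ => by ring
    rw [e2]
    rcases h2 with ⟨h5, h3, h4⟩ | h2
    · rw [h5, mul_zero, zero_add]
      have h6 : ∑ i, ν i * m2 * bb (oU i) ≤ N * M * m2 * ∑ i, (bb (oU i) - 1) := by
        rw [Finset.mul_sum]
        refine Finset.sum_le_sum fun i _ => ?_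
        rcases h3 i with h7 | h7
        · rw [h7, mul_zero]
          exact Nat.zero_le _
        · have h8 : ν i * bb (oU i) ≤ N * M * (bb (oU i) - 1) := by
            have h9 : 0 < bb (oU i) := by
              rcases Nat.eq_zero_or_pos (bb (oU i)) with h | h
              · rw [h, mul_zero] at h7
                omega
              · exact h
            have h10 : N * μ i * bb (oU i) + N * M ≤ N * M * bb (oU i) := by
              have h11 : μ i * bb (oU i) + M ≤ M * bb (oU i) := by
                have h12 : M * bb (oU i) = μ i * bb (oU i) + (M - μ i) * bb (oU i) := by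
                  rw [← add_mul, Nat.add_sub_cancel' (hμ i)]
                rw [h12]
                exact Nat.add_le_add_left h7 _
              calc N * μ i * bb (oU i) + N * M = N * (μ i * bb (oU i) + M) := by ring
                _ ≤ N * (M * bb (oU i)) := Nat.mul_le_mul_left _ h11
                _ = _ := by ring
            have h13 : ν i * bb (oU i) ≤ N * μ i * bb (oU i) :=
              Nat.mul_le_mul_right _ (Nat.sub_le _ _)
            have h14 : N * M * (bb (oU i) - 1) = N * M * bb (oU i) - N * M := by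
              rw [Nat.mul_sub, mul_one]
            rw [h14]
            omega
          calc ν i * m2 * bb (oU i) = m2 * (ν i * bb (oU i)) := by ring
            _ ≤ m2 * (N * M * (bb (oU i) - 1)) := Nat.mul_le_mul_left _ h8
            _ = _ := by ring
      calc ∑ i, ν i * m2 * bb (oU i) ≤ N * M * m2 * ∑ i, (bb (oU i) - 1) := h6
        _ ≤ N * M * m2 * bb none := Nat.mul_le_mul_left _ h4
        _ ≤ _ := Nat.le_add_right _ _
    · have h6 : N * m2 * (M * d) ≤
          N * m2 * (d * (∑ i, c i * bb (oU i) + cD * bb (some none))) := by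
        refine Nat.mul_le_mul_left _ ?_
        rw [mul_comm M d]
        exact Nat.mul_le_mul_left _ h2
      have h7 : N * M * m2 * (bb oD + ∑ i, bb (oU i)) ≤ N * M * m2 * (bb none + d) :=
        Nat.mul_le_mul_left _ h1
      have h8 : ∑ i, ν i * m2 * bb (oU i) ≤ N * M * m2 * ∑ i, bb (oU i) := by
        rw [Finset.mul_sum]
        refine Finset.sum_le_sum fun i _ => Nat.mul_le_mul_right _ (Nat.mul_le_mul_right _ ?_)
        refine (hνle i).trans (Nat.mul_le_mul_right _ ?_)
        omega
      calc N * M * m2 * bb oD + ∑ i, ν i * m2 * bb (oU i)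
          ≤ N * M * m2 * bb oD + N * M * m2 * ∑ i, bb (oU i) := Nat.add_le_add_left h8 _
        _ = N * M * m2 * (bb oD + ∑ i, bb (oU i)) := by ring
        _ ≤ N * M * m2 * (bb none + d) := h7
        _ = N * M * m2 * bb none + N * m2 * (M * d) := by ring
        _ ≤ N * M * m2 * bb none +
            N * m2 * (d * (∑ i, c i * bb (oU i) + cD * bb (some none))) :=
              Nat.add_le_add_left h6 _
        _ = _ := by ring
  · -- the constant
    exact one_le_mul_of_one_le_of_one_le (one_le_mul_of_one_le_of_one_le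
      (one_le_pow₀ (one_le_pow₀ (one_le_pow₀ hB1))) (one_le_pow₀ (one_le_pow₀ hB1)))
      (one_le_pow₀ hC1)
  · -- the bound
    intro z ε hε hε1 hball hnv m
    have hzE : z ∈ Ext r1 := hball (mem_closedBall_self hε.le)
    have hbb : ∀ w ∈ ball z ε, w ∈ closedBall z ε := fun w hw => ball_subset_closedBall hw
    set S : ℝ := ∑ j, ‖G z j‖ with hS
    have hhz : G z (Fin.last _) ≠ 0 := hnv (Sum.inr (Sum.inr false)) oh
      (by simp only [γ, if_true]; exact hκm) z (mem_closedBall_self hε.le)
    have hSpos : 0 < S := by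
      have h3 := Finset.single_le_sum (f := fun j => ‖G z j‖) (fun _ _ => norm_nonneg _)
        (Finset.mem_univ (Fin.last (e + 1)))
      exact lt_of_lt_of_le (norm_pos_iff.2 hhz) h3
    have hS0 : 0 ≤ S := hSpos.le
    have h1 := hpi G z ε hε (fun w hw => hG w (hball (hbb w hw)))
      (fun w hw => hnv (Sum.inr (Sum.inr false)) oh (by simp only [γ, if_true]; exact hκm) w
        (hbb w hw))
      (fun w hw => by
        have h2 := hnv (Sum.inr (Sum.inr true)) oD (by simp only [γ, if_true]; omega) w (hbb w hw)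
        change MvPolynomial.eval (G w) (phiE e e 1) ≠ 0 at h2
        rwa [eval_phiE, mul_one] at h2)
      (fun i w hw => by
        have h2 := hnv (Sum.inr (Sum.inl i)) (oU i) (by simp only [γ, if_true]; exact hκm) w
          (hbb w hw)
        change MvPolynomial.eval (G w) (phiU e (a i)) ≠ 0 at h2
        rwa [eval_phiU] at h2)
    have hN1 : N - 1 + 1 = N := by omega
    rw [hN1] at h1
    set P0 : ℝ := ‖Pf G z‖ with hP0
    set E0 : ℝ := ‖MvPolynomial.eval (G z) (phiE n e Pc)‖ with hE0
    set D0 : ℝ := ‖MvPolynomial.eval (G z) (phiE e e 1)‖ with hD0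
    set U0 : Fin q → ℝ := fun i => ‖MvPolynomial.eval (G z) (phiU e (a i))‖ with hU0
    have h1' : P0 ^ N * S ^ k0 ≤ (C1 * (1 / ε) ^ (d * N)) * D0 ^ N * ∏ i, U0 i ^ (N - 1) := by
      refine h1.trans (le_of_eq ?_)
      rw [hD0, eval_phiE, mul_one]
      congr 1
      refine Finset.prod_congr rfl fun i _ => ?_
      simp only [hU0]
      rw [eval_phiU]
    have hSB : 0 ≤ B * S := by positivity
    have hVS : ∀ l, ‖MvPolynomial.eval (G z) (phiU e (b l))‖ ≤ B * S := fun l =>
      (hbV l (G z)).trans (mul_le_mul_of_nonneg_right (hBV l) hS0)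
    have hUS : ∀ i, U0 i ≤ B * S := fun i =>
      (hbU i (G z)).trans (mul_le_mul_of_nonneg_right (hBU i) hS0)
    have hhS : ‖G z (Fin.last _)‖ ≤ B * S := by
      have h3 := Finset.single_le_sum (f := fun j => ‖G z j‖) (fun _ _ => norm_nonneg _)
        (Finset.mem_univ (Fin.last (e + 1)))
      refine h3.trans ?_
      exact le_mul_of_one_le_left hS0 hB1
    have hDS : D0 ≤ B * S ^ (2 * e) :=
      (hbD (G z)).trans (mul_le_mul_of_nonneg_right hBD (by positivity))
    -- the member
    have hB2 : B ≤ B ^ 2 := le_self_pow₀ hB1 two_ne_zero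
    have hpow : ∀ x : ℝ, 0 ≤ x → x ≤ B * S →
        x ^ (κ * m2) ≤ ((B ^ 2) ^ m2) ^ κ * (S ^ κ) ^ m2 := by
      intro x hx0 hx
      calc x ^ (κ * m2) ≤ (B ^ 2 * S) ^ (κ * m2) :=
            pow_le_pow_left₀ hx0 (hx.trans (mul_le_mul_of_nonneg_right hB2 hS0)) _
        _ = _ := by
            rw [mul_pow, ← pow_mul (B ^ 2), ← pow_mul S]
            congr 2
            ring
    have hmem : ∏ o, ‖f o z‖ ^ γ m o ≤ ((B ^ 2) ^ m2) ^ κ * (S ^ κ) ^ m2 := by
      rcases m with l' | i | b'
      · rw [show (∏ o, ‖f o z‖ ^ γ (Sum.inl l') o) = ‖f (oV l') z‖ ^ (κ * m2) from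
          prod_pow_single (fun o => ‖f o z‖) (oV l') (κ * m2)]
        exact hpow _ (norm_nonneg _) (hVS l')
      · rw [show (∏ o, ‖f o z‖ ^ γ (Sum.inr (Sum.inl i)) o) = ‖f (oU i) z‖ ^ (κ * m2) from
          prod_pow_single (fun o => ‖f o z‖) (oU i) (κ * m2)]
        exact hpow _ (norm_nonneg _) (hUS i)
      · cases b' with
        | false =>
          rw [show (∏ o, ‖f o z‖ ^ γ (Sum.inr (Sum.inr false)) o) = ‖f oh z‖ ^ (κ * m2) from
            prod_pow_single (fun o => ‖f o z‖) oh (κ * m2)]
          exact hpow _ (norm_nonneg _) hhS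
        | true =>
          have e1 : (∏ o, ‖f o z‖ ^ γ (Sum.inr (Sum.inr true)) o) =
              ‖f oD z‖ ^ κ * ‖f (oV 0) z‖ ^ κ := by
            rw [← prod_pow_single (fun o => ‖f o z‖) oD κ,
              ← prod_pow_single (fun o => ‖f o z‖) (oV 0) κ, ← Finset.prod_mul_distrib]
            exact Finset.prod_congr rfl fun o _ => pow_add _ _ _
          rw [e1, ← mul_pow]
          have e2 : ‖f oD z‖ * ‖f (oV 0) z‖ ≤ (B ^ 2) ^ m2 * S ^ m2 := by
            have e3 : D0 * ‖MvPolynomial.eval (G z) (phiU e (b 0))‖ ≤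
                (B * S ^ (2 * e)) * (B * S) :=
              mul_le_mul hDS (hVS 0) (norm_nonneg _) (by positivity)
            refine e3.trans ?_
            have e4 : (B * S ^ (2 * e)) * (B * S) = B ^ 2 * S ^ m2 := by
              rw [hm2, pow_succ S]
              ring
            rw [e4]
            exact mul_le_mul_of_nonneg_right (le_self_pow₀ (one_le_pow₀ hB1) hm20)
              (by positivity)
          calc (‖f oD z‖ * ‖f (oV 0) z‖) ^ κ ≤ ((B ^ 2) ^ m2 * S ^ m2) ^ κ :=
                pow_le_pow_left₀ (mul_nonneg (norm_nonneg _) (norm_nonneg _)) e2 _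
            _ = _ := by
                rw [mul_pow, ← pow_mul S, ← pow_mul S, mul_comm m2 κ]
    have h2 := real_main (q := q) (N := N) (M := M) (d := d) (n := n) (cD := cD) (κ := κ)
      (k0 := k0) (m2 := m2) (c := c) (ν := ν) (P := P0) (S := S) (Dz := D0) (E := E0) (B := B)
      (U := U0) (norm_nonneg _) hSpos (norm_nonneg _) (norm_nonneg _) (fun i => norm_nonneg _)
      (by positivity) hB1 (B2 := ((B ^ 2) ^ m2) ^ κ) (by positivity) h1'
      ((hbE (G z)).trans (mul_le_mul_of_nonneg_right hBE (by positivity))) hUS hνle hκ hmem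
    have eα : ∏ o, ‖f o z‖ ^ α o =
        (P0 ^ (N * M) * E0 ^ (d * N * cD) * ∏ i, U0 i ^ (d * N * c i)) ^ m2 := by
      rw [prod_ob]
      simp only [f, α, ob, pow_zero, Finset.prod_const_one, one_mul]
      rw [mul_pow, mul_pow, ← Finset.prod_pow]
      simp only [← pow_mul]
      exact (mul_assoc _ _ _).symm
    have eβ : ∏ o, ‖f o z‖ ^ β o =
        (D0 ^ (N * M) * ∏ i, U0 i ^ ν i) ^ m2 := by
      rw [prod_ob]
      simp only [f, β, ob, pow_zero, Finset.prod_const_one, one_mul]
      rw [mul_pow, ← Finset.prod_pow]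
      simp only [← pow_mul]
      rfl
    rw [eα, eβ]
    refine h2.trans (le_of_eq ?_)
    rw [mul_pow C1, ← pow_mul]
    ring

end Pool.Agent.H910.Dsc
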