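import Pool.Graph.R_seed8.TH152.HY.QDefs
import Pool.Graph.R_seed8.Y191.Lf
import Pool.Graph.R_seed8.Y216.EcA

/-!
Quasi-projective varieties over the projective space of the binary forms of degree `n + 1`, with a
condition on the sum of the contact orders with the hyperplanes of the forms which vanish at given
numbers and with the discriminant hypersurface.
-/

set_option autoImplicit false

open Pool.Agent.W602.Cov.R Pool.Agent.W602.GT Pool.Agent.TH152.HY
open Pool.Agent.Y191 (lf)
open Pool.Agent.Y216 (bdisc)

namespace Pool.Agent.H910.Dsc

variable {N n q : ℕ}

/-- The morphism from `X - D` to `P^(n + 1)` (the second projection), the projective space of the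
polynomials `∑ l, y l * T ^ l` of degree at most `n + 1`, is ramified over the hyperplanes of the
polynomials which vanish at `a i` and over the discriminant hypersurface, in the following sense.
For every point of `X` over a field `L` with a discrete valuation `P` whose centre is in `X - D`,
such that the point is not over one of the hyperplanes or the discriminant hypersurface, with the
contact orders `s i` with the hyperplanes and `t` with the discriminant hypersurface (the
valuations of the values of the polynomial at `a i`, minus the minimum `b` of the valuations of its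
coefficients, and the valuation of its discriminant, a form of degree `2 * n` in the coefficients,
minus `2 * n * b`): either `t = 0` and each `s i` is zero or at least `M / (M - μ i)`, or the sum of
the `c i * s i` and of `cD * t` is at least `M`. -/
def RamifiedDisc (X D : BiSet N (n + 1)) (a : Fin q → ℂ) (M : ℕ) (μ c : Fin q → ℕ) (cD : ℕ) :
    Prop :=
  ∀ (L : Type) [Field L] [Algebra ℂ L] (x : Fin (N + 1) → L) (y : Fin (n + 2) → L), X.Mem x y →
    (∀ i, lf (fun l : Fin (n + 2) => a i ^ (l : ℕ)) y ≠ 0) → bdisc y ≠ 0 →
    ∀ P : FF.Place ℂ L, ¬ CentreIn D x y P → ∀ (b : ℤ) (s : Fin q → ℕ) (t : ℕ), Norm P y b →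
    (∀ i, P.ord (lf (fun l : Fin (n + 2) => a i ^ (l : ℕ)) y) = b + s i) →
    P.ord (bdisc y) = 2 * n * b + t →
    (t = 0 ∧ ∀ i, s i = 0 ∨ M ≤ (M - μ i) * s i) ∨ M ≤ ∑ i, c i * s i + cD * t

end Pool.Agent.H910.Dsc
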