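import Pool.Agent.H910.Dsc.Loc
import Pool.Graph.R_seed8.Y190.SC.Core

/-!
Pluricanonical forms from the derivatives of the roots of a polynomial over a function field.
-/

set_option autoImplicit false
set_option linter.unusedSectionVars false

open FF Pool.Agent.W603.LV Pool.Agent.W602.GT Polynomial

namespace Pool.Agent.H910.Dsc

open Pool.Agent.Y190.BV Pool.Agent.Y216 Pool.Agent.Y190.SC

/-- Either the contact order of `H` with the discriminant is zero and the contact orders with the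
constants `a i` are zero or at least `M / (M - μ i)`, or the weighted sum of the contact orders is
at least `M`. -/
def DisC {k K : Type} [Field k] [Field K] [Algebra k K] {q : ℕ} (n M : ℕ) (μ c : Fin q → ℕ)
    (cD : ℕ) (a : Fin q → k) (H : K[X]) (P : Place k K) : Prop :=
  (dct P n H = 0 ∧ ∀ i, ct P H (a i) = 0 ∨ (M : ℤ) ≤ ((M : ℤ) - μ i) * ct P H (a i)) ∨
    (M : ℤ) ≤ ∑ i, (c i : ℤ) * ct P H (a i) + cD * dct P n H

section scale

variable {k K : Type} [Field k] [Field K] [Algebra k K] [Infinite k]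

theorem dct_C_mul (P : Place k K) (n : ℕ) {u : K} (hu : u ≠ 0) {F : K[X]} (hF : F ≠ 0)
    (h0 : dsf n F ≠ 0) : dct P n (C u * F) = dct P n F := by
  unfold dct
  rw [dsf_C_mul, cnt_mul P (C_ne_zero.2 hu) hF, cnt_C P hu, P.ord_mul (pow_ne_zero _ hu) h0,
    P.ord_pow]
  push_cast
  ring

theorem ct_C_mul (P : Place k K) {u : K} (hu : u ≠ 0) {F : K[X]} {y : k}
    (h : F.eval (algebraMap k K y) ≠ 0) : ct P (C u * F) y = ct P F y := by
  rw [ct_mul P (by rwa [eval_C]) h, ct_C P hu, zero_add]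

end scale

variable {k K L : Type} [Field k] [Field K] [Field L] [Algebra k K] [Algebra k L] [Algebra K L]
  [IsScalarTower k K L]

variable {κ ι : Type} [Fintype κ] [DecidableEq κ] [Fintype ι] {n w q : ℕ}

/-- the data for the forms -/
structure Fam2 (k K L : Type) [Field k] [Field K] [Field L] [Algebra k K] [Algebra k L]
    [Algebra K L] (κ ι : Type) [Fintype κ] [DecidableEq κ] [Fintype ι] (n w : ℕ) where
  H : K[X]
  mon : H.Monic
  τ : κ → L
  rd : RD H n κ τ
  T : ι → L
  inc : ι → κ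
  hinc : ∀ l, T l = τ (inc l)
  sumT : ∀ W : Place k L, ∑ x, tau W (τ x) = ∑ l, tau W (T l)
  cc : ι → Fin w → ι
  j0 : ι → Fin w
  hj0 : ∀ l, cc l (j0 l) = l

namespace Fam2

variable (Φ : Fam2 k K L κ ι n w)

/-- the transcendence bases -/
def J (l : ι) (j : Fin w) : L := Φ.T (Φ.cc l j)

/-- the determinant of the derivatives of the basis -/
noncomputable def dt (l : ι) (D : Fin w → Derivation k K K) : L :=
  (mat2 (fun j => (minpoly K (Φ.J l j)).natDegree) (fun j => (minpoly K (Φ.J l j)).coeff)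
    (Φ.J l) D).det * ∏ j, (-aeval (Φ.J l j) (derivative (minpoly K (Φ.J l j))))⁻¹

/-- the denominator -/
noncomputable def den (μ : Fin q → ℕ) (a : Fin q → k) : K :=
  ∏ l, ∏ j, ∏ i, (Algebra.norm K (Φ.J l j - algebraMap k L (a i))) ^ μ i

/-- the values -/
noncomputable def val (c : Fin q → ℕ) (cD : ℕ) (a : Fin q → k) : K :=
  (∏ i, (Φ.H.eval (algebraMap k K (a i))) ^ c i) * dsf n Φ.H ^ cD

/-- the forms -/
noncomputable def phi (M : ℕ) (μ c : Fin q → ℕ) (cD : ℕ) (a : Fin q → k) (ψ : K)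
    (D : Fin w → Derivation k K K) : K :=
  ψ / Φ.den μ a * Φ.val c cD a ^ (Fintype.card ι * Module.finrank K L) *
    (∏ l, Algebra.norm K (Φ.dt l D)) ^ M

theorem phi_pluri (M : ℕ) (μ c : Fin q → ℕ) (cD : ℕ) (a : Fin q → k) (ψ : K) :
    IsPluri (M * (Fintype.card ι * Module.finrank K L)) (Φ.phi M μ c cD a ψ) := by
  intro B D
  unfold phi
  have h1 : ∀ l, Algebra.norm K (Φ.dt l (fun i => ∑ j, B i j • D j)) =
      B.det ^ Module.finrank K L * Algebra.norm K (Φ.dt l D) := by
    intro l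
    unfold dt
    rw [mat2_mul, Matrix.det_mul, mul_assoc, map_mul]
    congr 1
    have : (B.map (algebraMap K L)).det = algebraMap K L B.det := by
      rw [RingHom.map_det]; rfl
    rw [this, Algebra.norm_algebraMap]
  rw [Finset.prod_congr rfl fun l _ => h1 l, Finset.prod_mul_distrib, Finset.prod_const,
    Finset.card_univ, mul_pow, ← pow_mul, ← pow_mul,
    show Module.finrank K L * (Fintype.card ι * M) = M * (Fintype.card ι * Module.finrank K L) by
      ring]
  ring

variable [FiniteDimensional K L] [IsGalois K L]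

theorem dt_eq (l : ι) {D : Fin w → Derivation k K K} {E : Fin w → Derivation k L L}
    (hE : ∀ i, ∀ x : K, E i (algebraMap K L x) = algebraMap K L (D i x)) :
    Φ.dt l D = (Matrix.of fun i j => E i (Φ.J l j)).det := by
  have hne : ∀ j, -aeval (Φ.J l j) (derivative (minpoly K (Φ.J l j))) ≠ 0 := fun j =>
    neg_ne_zero.2 ((Algebra.IsSeparable.isSeparable K (Φ.J l j)).aeval_derivative_ne_zero
      (minpoly.aeval K (Φ.J l j)))
  have h1 : mat2 (fun j => (minpoly K (Φ.J l j)).natDegree) (fun j => (minpoly K (Φ.J l j)).coeff)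
      (Φ.J l) D = Matrix.of fun i j =>
      (fun j => -aeval (Φ.J l j) (derivative (minpoly K (Φ.J l j)))) j *
        (Matrix.of fun i j => E i (Φ.J l j)) i j := by
    ext i j
    have h2 := der_ev (hE i) ((minpoly K (Φ.J l j)).natDegree + 1) (minpoly K (Φ.J l j)).coeff
      (Φ.J l j)
    rw [ev_eq_aeval, minpoly.aeval, map_zero, sum_derivative] at h2
    change ev L ((minpoly K (Φ.J l j)).natDegree + 1) (fun m => D i ((minpoly K (Φ.J l j)).coeff m))
      (Φ.J l j) = -aeval (Φ.J l j) (derivative (minpoly K (Φ.J l j))) * E i (Φ.J l j)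
    linear_combination -h2
  unfold dt
  rw [h1, Matrix.det_mul_row (fun j => -aeval (Φ.J l j) (derivative (minpoly K (Φ.J l j))))
    (Matrix.of fun i j => E i (Φ.J l j)), Finset.prod_inv_distrib, mul_right_comm,
    mul_inv_cancel₀ (Finset.prod_ne_zero_iff.2 fun j _ => hne j), one_mul]

/-- **The forms have no poles.** -/
theorem ge_phi [CharZero k] {W : Place k L} {P : Place k K} {e0 : ℕ}
    (hWP : Over W P e0) {b : Bool} (D : Fin w → Derivation k K K) (hD : ∀ i, DKind b P (D i))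
    (a : Fin q → k) (ha : Function.Injective a) {M : ℕ} {μ c : Fin q → ℕ} {cD : ℕ}
    (hμ : ∀ i, μ i ≤ M)
    (h0 : ∀ i, Φ.H.eval (algebraMap k K (a i)) ≠ 0)
    (hram : b = true → DisC n M μ c cD a Φ.H P)
    (hbound : Fintype.card ι * (∑ i, c i + 2 * n * cD) + 2 * M < ∑ i, μ i)
    (ψ : K) (hψ : Ge W (-∑ s : L ≃ₐ[K] L, ∑ l, tau (W.comp (rs (k := k) s)) (Φ.T l))
      (algebraMap K L ψ)) :
    Ge W 0 (algebraMap K L (Φ.phi M μ c cD a ψ D)) := by
  classical
  have hinf : Infinite k := inferInstance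
  have he0 : (0 : ℤ) < e0 := by exact_mod_cast hWP.1
  choose E hE using fun i => exists_ext (L := L) (D i)
  have hTa : ∀ l i, Φ.T l ≠ algebraMap k L (a i) := by
    intro l i h
    have h1 := Φ.rd.root (Φ.inc l)
    rw [← Φ.hinc, h, IsScalarTower.algebraMap_apply k K L, aeval_algebraMap_apply, map_eq_zero,
      coe_aeval_eq_eval] at h1
    exact h0 i h1
  have hJa : ∀ l j i, Φ.J l j ≠ algebraMap k L (a i) := fun l j i => hTa _ i
  have h5 : Fintype.card (L ≃ₐ[K] L) = Module.finrank K L := by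
    rw [← Nat.card_eq_fintype_card]
    exact IsGalois.card_aut_eq_finrank K L
  set g : ℤ := (Module.finrank K L : ℤ) with hg
  set V : (L ≃ₐ[K] L) → Place k L := fun s => W.comp (rs (k := k) s) with hV
  set good : Prop := dct P n Φ.H = 0 ∧
    ∀ i, ct P Φ.H (a i) = 0 ∨ (M : ℤ) ≤ ((M : ℤ) - μ i) * ct P Φ.H (a i) with hgood
  set β : (L ≃ₐ[K] L) → ι → Fin w → ℤ := fun s l j =>
    ∑ i, vv (V s) (Φ.J l j) (a i) - 2 * tau (V s) (Φ.J l j) with hβ
  set lo : (L ≃ₐ[K] L) → ι → Fin w → ℤ := fun s l j =>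
    if ∃ i, 0 < vv (V s) (Φ.J l j) (a i) then (e0 : ℤ) else 0 with hlo
  set NE : (L ≃ₐ[K] L) → ι → ℤ := fun s l =>
    if b = true then (if good then ∑ j, lo s l j else (e0 : ℤ)) else 0 with hNE
  -- the determinants
  have hdet : ∀ s l, Ge (V s) (∑ j, β s l j - NE s l) (Φ.dt l D) := by
    intro s l
    rw [Φ.dt_eq l hE]
    by_cases hb : b = true ∧ good
    · obtain ⟨hb, hgd⟩ := hb
      subst hb
      have hNE1 : NE s l = ∑ j, lo s l j := by
        simp only [hNE, if_true]
        rw [if_pos hgd]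
      rw [hNE1, ← Finset.sum_sub_distrib]
      refine ge_det _ _ _ (fun i j => β s l j - lo s l j) (fun i j => ?_) (fun σ => le_rfl)
      by_cases hex : ∃ i, 0 < vv (V s) (Φ.J l j) (a i)
      · have h1 := der_near (b := true) (over_rs hWP s) (hD i) (hE i) ha (hJa l j)
        simp only [hlo, hβ]
        rw [if_pos hex]
        simpa using h1
      · have h1 := Φ.rd.der_good (over_rs hWP s) hgd.1 (hD i) (hE i) (Φ.inc (Φ.cc l j))
        rw [← Φ.hinc] at h1
        have h2 : ∀ i, vv (V s) (Φ.J l j) (a i) = 0 := by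
          intro i
          push Not at hex
          exact le_antisymm (hex i) (vv_nonneg _ (hJa l j i))
        have h4 : β s l j - lo s l j = -2 * tau (V s) (Φ.T (Φ.cc l j)) := by
          simp only [hβ, hlo]
          rw [if_neg hex, Finset.sum_eq_zero fun i _ => h2 i]
          unfold J
          ring
        rw [h4]
        exact h1
    · have h1 := det_near (over_rs hWP s) hD hE ha (J := Φ.J l) (hJa l)
      refine h1.mono ?_
      have h2 : (if b = true then (e0 : ℤ) else 0) ≤ NE s l := by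
        simp only [hNE]
        by_cases hb1 : b = true
        · rw [if_pos hb1, if_pos hb1, if_neg (fun h => hb ⟨hb1, h⟩)]
        · rw [if_neg hb1, if_neg hb1]
      simp only [hβ]
      linarith
  have hD2 : Ge W (∑ l, ∑ s, (∑ j, β s l j - NE s l))
      (∏ l, algebraMap K L (Algebra.norm K (Φ.dt l D))) := by
    refine Ge.prod _ _ _ fun l _ => ?_
    exact ge_norm _ fun s => hdet s l
  -- the denominator
  have hN : ∀ l j i, Algebra.norm K (Φ.J l j - algebraMap k L (a i)) ≠ 0 := fun l j i =>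
    norm_ne (sub_ne_zero.2 (hJa l j i))
  have hden0 : Φ.den μ a ≠ 0 := Finset.prod_ne_zero_iff.2 fun l _ =>
    Finset.prod_ne_zero_iff.2 fun j _ => Finset.prod_ne_zero_iff.2 fun i _ => pow_ne_zero _ (hN l j i)
  have hden : W.ord (algebraMap K L (Φ.den μ a)) =
      ∑ l, ∑ j, ∑ i, (μ i : ℤ) * ∑ s, (V s).ord (Φ.J l j - algebraMap k L (a i)) := by
    unfold den
    rw [map_prod, ord_prod' W _ _ fun l _ => by
      rw [Ne, map_eq_zero]
      exact Finset.prod_ne_zero_iff.2 fun j _ =>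
        Finset.prod_ne_zero_iff.2 fun i _ => pow_ne_zero _ (hN l j i)]
    refine Finset.sum_congr rfl fun l _ => ?_
    rw [map_prod, ord_prod' W _ _ fun j _ => by
      rw [Ne, map_eq_zero]
      exact Finset.prod_ne_zero_iff.2 fun i _ => pow_ne_zero _ (hN l j i)]
    refine Finset.sum_congr rfl fun j _ => ?_
    rw [map_prod, ord_prod' W _ _ fun i _ => by
      rw [Ne, map_eq_zero]
      exact pow_ne_zero _ (hN l j i)]
    refine Finset.sum_congr rfl fun i _ => ?_
    rw [map_pow, W.ord_pow, ord_norm (sub_ne_zero.2 (hJa l j i))]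
  -- the values
  have hdsf : dsf n Φ.H ≠ 0 := (Φ.rd.sum_le hWP).1
  have hval : W.ord (algebraMap K L (Φ.val c cD a)) =
      e0 * (∑ i, (c i : ℤ) * P.ord (Φ.H.eval (algebraMap k K (a i))) +
        cD * P.ord (dsf n Φ.H)) := by
    unfold val
    rw [hWP.2, P.ord_mul (Finset.prod_ne_zero_iff.2 fun i _ => pow_ne_zero _ (h0 i))
      (pow_ne_zero _ hdsf), ord_prod' P _ _ fun i _ => pow_ne_zero _ (h0 i), P.ord_pow]
    congr 2
    exact Finset.sum_congr rfl fun i _ => P.ord_pow _ _
  have hvalG : Ge W (e0 * (∑ i, (c i : ℤ) * P.ord (Φ.H.eval (algebraMap k K (a i))) +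
        cD * P.ord (dsf n Φ.H))) (algebraMap K L (Φ.val c cD a)) := Or.inr hval.ge
  unfold phi
  rw [map_mul, map_mul, map_div₀, map_pow, map_pow,
    map_prod (algebraMap K L) (fun l => Algebra.norm K (Φ.dt l D))]
  have h1 := ge_div ((_root_.map_ne_zero (algebraMap K L)).2 hden0) hψ
  have hval2 := hvalG.pow (Fintype.card ι * Module.finrank K L)
  refine ((h1.mul hval2).mul (hD2.pow M)).mono ?_
  rw [hden]
  set h : ℤ := (Fintype.card ι : ℤ) with hh
  have hg0 : 0 ≤ g := Int.natCast_nonneg _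
  have hh0 : 0 ≤ h := Int.natCast_nonneg _
  have hM0 : (0 : ℤ) ≤ M := Int.natCast_nonneg _
  have hμM : ∀ i, 0 ≤ (M : ℤ) - μ i := fun i => by
    have : (μ i : ℤ) ≤ M := by exact_mod_cast hμ i
    linarith
  -- the contacts
  have hct : ∀ i, 0 ≤ ct P Φ.H (a i) := fun i => ct_nonneg P (h0 i)
  have hdc : 0 ≤ dct P n Φ.H := Φ.rd.dct_nonneg hWP
  set X6 : ℤ := ∑ i, (c i : ℤ) * ct P Φ.H (a i) + cD * dct P n Φ.H with hX6
  have hcs : 0 ≤ X6 := add_nonneg
    (Finset.sum_nonneg fun i _ => mul_nonneg (Int.natCast_nonneg _) (hct i))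
    (mul_nonneg (Int.natCast_nonneg _) hdc)
  have hvn : ∀ s l j i, 0 ≤ ((M : ℤ) - μ i) * vv (V s) (Φ.J l j) (a i) := fun s l j i =>
    mul_nonneg (hμM i) (vv_nonneg _ (hJa l j i))
  have hnear : ∀ s l, (M : ℤ) * NE s l ≤
      ∑ j, ∑ i, ((M : ℤ) - μ i) * vv (V s) (Φ.J l j) (a i) + e0 * X6 := by
    intro s l
    have hS0 : 0 ≤ ∑ j, ∑ i, ((M : ℤ) - μ i) * vv (V s) (Φ.J l j) (a i) :=
      Finset.sum_nonneg fun j _ => Finset.sum_nonneg fun i _ => hvn s l j i
    have hX0 : 0 ≤ (e0 : ℤ) * X6 := mul_nonneg he0.le hcs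
    by_cases hb : b = true
    · by_cases hgd : good
      · have hNE1 : NE s l = ∑ j, lo s l j := by
          simp only [hNE]
          rw [if_pos hb, if_pos hgd]
        rw [hNE1, Finset.mul_sum]
        have h1 : ∑ j, (M : ℤ) * lo s l j ≤
            ∑ j, ∑ i, ((M : ℤ) - μ i) * vv (V s) (Φ.J l j) (a i) := by
          refine Finset.sum_le_sum fun j _ => ?_
          by_cases hex : ∃ i, 0 < vv (V s) (Φ.J l j) (a i)
          · simp only [hlo]
            rw [if_pos hex]
            obtain ⟨i, hi⟩ := hex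
            have h2 : vv (V s) (Φ.J l j) (a i) = e0 * ct P Φ.H (a i) := by
              have h3 := Φ.rd.vv_eq (over_rs hWP s) hgd.1 (h0 i) (x := Φ.inc (Φ.cc l j)) (by
                rw [← Φ.hinc]
                exact hi)
              rw [← Φ.hinc] at h3
              exact h3
            have h3 : 0 < ct P Φ.H (a i) := by
              rw [h2] at hi
              exact pos_of_mul_pos_right hi he0.le
            have h4 : (M : ℤ) ≤ ((M : ℤ) - μ i) * ct P Φ.H (a i) :=
              (hgd.2 i).resolve_left h3.ne'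
            refine le_trans ?_ (Finset.single_le_sum (f := fun i => ((M : ℤ) - μ i) *
              vv (V s) (Φ.J l j) (a i)) (fun i _ => hvn s l j i) (Finset.mem_univ i))
            simp only [h2]
            calc (M : ℤ) * e0 ≤ ((M : ℤ) - μ i) * ct P Φ.H (a i) * e0 :=
                  mul_le_mul_of_nonneg_right h4 he0.le
              _ = _ := by ring
          · simp only [hlo]
            rw [if_neg hex, mul_zero]
            exact Finset.sum_nonneg fun i _ => hvn s l j i
        linarith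
      · have hNE1 : NE s l = e0 := by
          simp only [hNE]
          rw [if_pos hb, if_neg hgd]
        rw [hNE1]
        have h8 : (M : ℤ) ≤ X6 := by
          rcases hram hb with h9 | h9
          · exact absurd h9 hgd
          · exact h9
        have h9 : (M : ℤ) * e0 ≤ e0 * X6 := by
          rw [mul_comm]
          exact mul_le_mul_of_nonneg_left h8 he0.le
        linarith
    · have hNE1 : NE s l = 0 := by
        simp only [hNE]
        rw [if_neg hb]
      rw [hNE1, mul_zero]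
      linarith
  -- the total pole order
  set Tot : ℤ := ∑ s : L ≃ₐ[K] L, ∑ l, tau (V s) (Φ.T l) with hTot
  have hTot0 : 0 ≤ Tot := Finset.sum_nonneg fun s _ => Finset.sum_nonneg fun l _ => tau_nonneg _ _
  have hcnt : g * (e0 * cnt P Φ.H) = -Tot := by
    have h2 : ∀ s : L ≃ₐ[K] L, (e0 : ℤ) * cnt P Φ.H = -∑ l, tau (V s) (Φ.T l) := by
      intro s
      rw [← cnt_map (over_rs hWP s) Φ.rd.ne, Φ.rd.eq, cnt_pr _ Φ.rd.lead, Φ.mon.leadingCoeff,
        map_one, Place.ord_one, Φ.sumT, zero_sub]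
    have h3 : ∑ _s : L ≃ₐ[K] L, ((e0 : ℤ) * cnt P Φ.H) = -Tot := by
      rw [Finset.sum_congr rfl fun s _ => h2 s, Finset.sum_neg_distrib]
    rw [Finset.sum_const, Finset.card_univ, h5, nsmul_eq_mul] at h3
    exact h3
  have hvals : ∑ i, (c i : ℤ) * P.ord (Φ.H.eval (algebraMap k K (a i))) +
      cD * P.ord (dsf n Φ.H) = (∑ i, (c i : ℤ) + 2 * n * cD) * cnt P Φ.H + X6 := by
    rw [hX6]
    have h2 : ∑ i, (c i : ℤ) * P.ord (Φ.H.eval (algebraMap k K (a i))) =
        (∑ i, (c i : ℤ)) * cnt P Φ.H + ∑ i, (c i : ℤ) * ct P Φ.H (a i) := by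
      rw [Finset.sum_mul, ← Finset.sum_add_distrib]
      refine Finset.sum_congr rfl fun i _ => ?_
      unfold ct
      ring
    rw [h2]
    unfold dct
    ring
  -- the columns
  have hcol : (∑ i, (μ i : ℤ) - 2 * M) * ∑ s, ∑ l, ∑ j, tau (V s) (Φ.J l j) - h * g * (e0 * X6) ≤
      M * ∑ l, ∑ s, (∑ j, β s l j - NE s l) -
      ∑ l, ∑ j, ∑ i, (μ i : ℤ) * ∑ s, (V s).ord (Φ.J l j - algebraMap k L (a i)) := by
    have e3 : ∑ l, ∑ j, ∑ i, (μ i : ℤ) * ∑ s, (V s).ord (Φ.J l j - algebraMap k L (a i)) =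
        ∑ s, ∑ l, ∑ j, ∑ i, (μ i : ℤ) * (V s).ord (Φ.J l j - algebraMap k L (a i)) := by
      have e4 : ∀ l, ∑ j, ∑ i, (μ i : ℤ) * ∑ s, (V s).ord (Φ.J l j - algebraMap k L (a i)) =
          ∑ s, ∑ j, ∑ i, (μ i : ℤ) * (V s).ord (Φ.J l j - algebraMap k L (a i)) := by
        intro l
        have e5 : ∀ j, ∑ i, (μ i : ℤ) * ∑ s, (V s).ord (Φ.J l j - algebraMap k L (a i)) =
            ∑ s, ∑ i, (μ i : ℤ) * (V s).ord (Φ.J l j - algebraMap k L (a i)) := by
          intro j
          rw [Finset.sum_comm]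
          exact Finset.sum_congr rfl fun i _ => Finset.mul_sum _ _ _
        rw [Finset.sum_congr rfl fun j _ => e5 j, Finset.sum_comm]
      rw [Finset.sum_congr rfl fun l _ => e4 l, Finset.sum_comm]
    have e1 : (M : ℤ) * ∑ l, ∑ s, (∑ j, β s l j - NE s l) =
        ∑ s, ∑ l, (M : ℤ) * (∑ j, β s l j - NE s l) := by
      rw [Finset.sum_comm, Finset.mul_sum]
      exact Finset.sum_congr rfl fun s _ => Finset.mul_sum _ _ _
    have e6 : h * g * (e0 * X6) = ∑ _s : L ≃ₐ[K] L, ∑ _l : ι, (e0 : ℤ) * X6 := by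
      rw [Finset.sum_const, Finset.sum_const, Finset.card_univ, Finset.card_univ, h5,
        nsmul_eq_mul, nsmul_eq_mul]
      ring
    rw [e3, e1, e6, Finset.mul_sum, ← Finset.sum_sub_distrib, ← Finset.sum_sub_distrib]
    refine Finset.sum_le_sum fun s _ => ?_
    rw [Finset.mul_sum, ← Finset.sum_sub_distrib, ← Finset.sum_sub_distrib]
    refine Finset.sum_le_sum fun l _ => ?_
    have h2 := hnear s l
    have e7 : ∑ j, (M : ℤ) * β s l j -
        ∑ j, ∑ i, (μ i : ℤ) * (V s).ord (Φ.J l j - algebraMap k L (a i)) =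
        ∑ j, ∑ i, ((M : ℤ) - μ i) * vv (V s) (Φ.J l j) (a i) +
          (∑ i, (μ i : ℤ) - 2 * M) * ∑ j, tau (V s) (Φ.J l j) := by
      rw [← Finset.sum_sub_distrib, Finset.mul_sum, ← Finset.sum_add_distrib]
      refine Finset.sum_congr rfl fun j _ => ?_
      have e8 : ∀ i, (μ i : ℤ) * (V s).ord (Φ.J l j - algebraMap k L (a i)) =
          (μ i : ℤ) * vv (V s) (Φ.J l j) (a i) - (μ i : ℤ) * tau (V s) (Φ.J l j) := by
        intro i
        unfold vv
        ring
      have e9 : ∀ i, ((M : ℤ) - μ i) * vv (V s) (Φ.J l j) (a i) =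
          (M : ℤ) * vv (V s) (Φ.J l j) (a i) - (μ i : ℤ) * vv (V s) (Φ.J l j) (a i) := by
        intro i
        ring
      rw [Finset.sum_congr rfl fun i _ => e8 i, Finset.sum_congr rfl fun i _ => e9 i,
        Finset.sum_sub_distrib, Finset.sum_sub_distrib, ← Finset.mul_sum, ← Finset.sum_mul]
      simp only [hβ]
      ring
    have e10 : (M : ℤ) * (∑ j, β s l j - NE s l) = ∑ j, (M : ℤ) * β s l j - M * NE s l := by
      rw [mul_sub, Finset.mul_sum]
    rw [e10]
    linarith
  have hcov : Tot ≤ ∑ s, ∑ l, ∑ j, tau (V s) (Φ.J l j) := by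
    refine Finset.sum_le_sum fun s _ => Finset.sum_le_sum fun l _ => ?_
    have h2 := Finset.single_le_sum (f := fun j => tau (V s) (Φ.J l j))
      (fun j _ => tau_nonneg _ _) (Finset.mem_univ (Φ.j0 l))
    unfold J at h2
    rw [Φ.hj0] at h2
    exact h2
  have hbz : h * (∑ i, (c i : ℤ) + 2 * n * cD) + 2 * M + 1 ≤ ∑ i, (μ i : ℤ) := by
    rw [hh]
    exact_mod_cast hbound
  have hC0 : 0 ≤ ∑ i, (c i : ℤ) + 2 * n * cD :=
    add_nonneg (Finset.sum_nonneg fun i _ => Int.natCast_nonneg _) (by positivity)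
  have hq2 : 0 ≤ ∑ i, (μ i : ℤ) - 2 * M := by
    have : 0 ≤ h * (∑ i, (c i : ℤ) + 2 * n * cD) := mul_nonneg hh0 hC0
    linarith
  rw [hvals, Nat.cast_mul (Fintype.card ι) (Module.finrank K L), ← hh, ← hg]
  have hfin1 : (∑ i, (μ i : ℤ) - 2 * M) * Tot ≤
      (∑ i, (μ i : ℤ) - 2 * M) * ∑ s, ∑ l, ∑ j, tau (V s) (Φ.J l j) :=
    mul_le_mul_of_nonneg_left hcov hq2
  have hfin2 : (h * (∑ i, (c i : ℤ) + 2 * n * cD) + 1) * Tot ≤ (∑ i, (μ i : ℤ) - 2 * M) * Tot :=
    mul_le_mul_of_nonneg_right (by linarith) hTot0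
  generalize (∑ l, ∑ s, (∑ j, β s l j - NE s l)) = X1 at *
  generalize (∑ l, ∑ j, ∑ i, (μ i : ℤ) * ∑ s, (V s).ord (Φ.J l j - algebraMap k L (a i))) = X2 at *
  generalize (∑ s, ∑ l, ∑ j, tau (V s) (Φ.J l j)) = X3 at *
  generalize (∑ i, (c i : ℤ) + 2 * n * cD) = Γ at *
  generalize cnt P Φ.H = X8 at *
  have e1 : h * g * (↑e0 * (Γ * X8 + X6)) = h * Γ * (g * (e0 * X8)) + h * g * (e0 * X6) := by ring
  rw [e1, hcnt]
  linarith

/-- The forms are regular or logarithmic at `P`. -/
theorem reg_phi [CharZero k] {P : Place k K} {b : Bool}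
    (D : Fin w → Derivation k K K) (hD : ∀ i, DKind b P (D i))
    (a : Fin q → k) (ha : Function.Injective a) {M : ℕ} {μ c : Fin q → ℕ} {cD : ℕ}
    (hμ : ∀ i, μ i ≤ M)
    (h0 : ∀ i, Φ.H.eval (algebraMap k K (a i)) ≠ 0)
    (hram : b = true → DisC n M μ c cD a Φ.H P)
    (hbound : Fintype.card ι * (∑ i, c i + 2 * n * cD) + 2 * M < ∑ i, μ i)
    (ψ : K) (hψ : ψ = 1 ∨ ∃ (l : ι) (y : k), ψ = Algebra.norm K (Φ.T l - algebraMap k L y)) :
    P.Reg (Φ.phi M μ c cD a ψ D) := by
  classical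
  obtain ⟨S, T', _, hT, hsum⟩ := exists_places_over (K' := L) P
  have hSne : S.Nonempty := by
    by_contra hcon
    rw [Finset.not_nonempty_iff_eq_empty] at hcon
    rw [hcon, Finset.sum_empty] at hsum
    have : 0 < Module.finrank K L := Module.finrank_pos
    omega
  obtain ⟨W, hW⟩ := hSne
  obtain ⟨e, hWP, _⟩ := hT W hW
  rw [← hWP.reg]
  refine Φ.ge_phi hWP D hD a ha hμ h0 hram hbound ψ ?_
  have hnn : ∀ s : L ≃ₐ[K] L, ∀ l, 0 ≤ tau (W.comp (rs (k := k) s)) (Φ.T l) :=
    fun s l => tau_nonneg _ _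
  rcases hψ with rfl | ⟨l, y, rfl⟩
  · rw [map_one]
    have : 0 ≤ ∑ s : L ≃ₐ[K] L, ∑ l, tau (W.comp (rs (k := k) s)) (Φ.T l) :=
      Finset.sum_nonneg fun s _ => Finset.sum_nonneg fun l _ => hnn s l
    exact Ge.one.mono (by omega)
  · have h1 : Ge W (∑ s : L ≃ₐ[K] L, - tau (W.comp (rs (k := k) s)) (Φ.T l))
        (algebraMap K L (Algebra.norm K (Φ.T l - algebraMap k L y))) :=
      ge_norm _ fun s => ge_sub_const _ (Φ.T l) y
    refine h1.mono ?_
    rw [Finset.sum_neg_distrib]
    apply neg_le_neg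
    exact Finset.sum_le_sum fun s _ => Finset.single_le_sum (f := fun l =>
      tau (W.comp (rs (k := k) s)) (Φ.T l)) (fun l _ => hnn s l) (Finset.mem_univ l)

/-- **Log general type.** -/
theorem gt [IsAlgClosed k] [CharZero k] (htr : Algebra.trdeg k K = w)
    [Nonempty ι] (hJb : ∀ l, IsTranscendenceBasis k (Φ.J l))
    (a : Fin q → k) (ha : Function.Injective a) {M : ℕ} {μ c : Fin q → ℕ} {cD : ℕ} (hM : 0 < M)
    (hμ : ∀ i, μ i ≤ M)
    (h0 : ∀ i, Φ.H.eval (algebraMap k K (a i)) ≠ 0)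
    (hbound : Fintype.card ι * (∑ i, c i + 2 * n * cD) + 2 * M < ∑ i, μ i)
    (Bd : Place k K → Prop)
    (hram : ∀ P : Place k K, Divisorial w P → ¬ Bd P → DisC n M μ c cD a Φ.H P) :
    LogGeneralType k K w Bd := by
  classical
  have hchK : CharZero K := charZero_of_injective_algebraMap (algebraMap k K).injective
  have hinf : Infinite k := inferInstance
  -- the norms
  let ee := Fintype.equivFin (ι × Fin w)
  let r : Fin (Fintype.card (ι × Fin w)) → L := fun i => Φ.J (ee.symm i).1 (ee.symm i).2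
  obtain ⟨l0⟩ := (inferInstance : Nonempty ι)
  have hS : Algebra.IsAlgebraic (Algebra.adjoin k (Set.range r)) L := by
    have hle : Algebra.adjoin k (Set.range (Φ.J l0)) ≤ Algebra.adjoin k (Set.range r) := by
      apply Algebra.adjoin_mono
      rintro _ ⟨j, rfl⟩
      refine ⟨ee (l0, j), ?_⟩
      simp only [r, Equiv.symm_apply_apply]
    have h1 : Algebra.IsAlgebraic (Algebra.adjoin k (Set.range (Φ.J l0))) L :=
      (hJb l0).isAlgebraic
    let _ : Algebra (Algebra.adjoin k (Set.range (Φ.J l0))) (Algebra.adjoin k (Set.range r)) :=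
      (Subalgebra.inclusion hle).toRingHom.toAlgebra
    have : IsScalarTower (Algebra.adjoin k (Set.range (Φ.J l0)))
        (Algebra.adjoin k (Set.range r)) L :=
      IsScalarTower.of_algebraMap_eq fun x => rfl
    exact Algebra.IsAlgebraic.extendScalars (R := Algebra.adjoin k (Set.range (Φ.J l0)))
      (Subalgebra.inclusion_injective hle)
  obtain ⟨ii, yy, hbas⟩ := exists_norm_basis (K := K) htr r hS
  set x : Fin w → K := fun j => Algebra.norm K (r (ii j) - algebraMap k L (yy j)) with hx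
  let ψ : Fin (w + 1) → K := Fin.cases 1 x
  have hψ : ∀ j, ψ j = 1 ∨ ∃ (l : ι) (y : k),
      ψ j = Algebra.norm K (Φ.T l - algebraMap k L y) := by
    intro j
    refine Fin.cases ?_ (fun j => ?_) j
    · exact Or.inl rfl
    · exact Or.inr ⟨_, yy j, rfl⟩
  let ω : Fin (w + 1) → (Fin w → Derivation k K K) → K := fun j => Φ.phi M μ c cD a (ψ j)
  have hTa : ∀ l i, Φ.T l ≠ algebraMap k L (a i) := by
    intro l i h
    have h1 := Φ.rd.root (Φ.inc l)
    rw [← Φ.hinc, h, IsScalarTower.algebraMap_apply k K L, aeval_algebraMap_apply, map_eq_zero,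
      coe_aeval_eq_eval] at h1
    exact h0 i h1
  refine ⟨htr, M * (Fintype.card ι * Module.finrank K L), ?_, ω, ?_, ?_, ?_, ?_⟩
  · exact Nat.mul_pos hM (Nat.mul_pos Fintype.card_pos Module.finrank_pos)
  · intro j
    exact Φ.phi_pluri _ _ _ _ _ _
  · intro P _ j D hD
    exact Φ.reg_phi (b := false) D hD a ha hμ h0 (fun h => absurd h (by simp)) hbound (ψ j) (hψ j)
  · intro P hP hBd j D hD
    exact Φ.reg_phi (b := true) D hD a ha hμ h0 (fun _ => hram P hP hBd) hbound (ψ j) (hψ j)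
  · -- vector fields on which the forms do not vanish
    have hD : ∀ i : Fin w, ∃ D : Derivation k K K, ∀ j, D (x j) = if i = j then 1 else 0 :=
      fun i => exists_der x hbas (fun j => if i = j then 1 else 0)
    choose D hD using hD
    have hE : ∀ i, ∃ E : Derivation k L L, ∀ x : K, E (algebraMap K L x) =
        algebraMap K L (D i x) := fun i => exists_ext (D i)
    choose E hE using hE
    have hdet : ∀ l, (Matrix.of fun i j => E i (Φ.J l j)).det ≠ 0 := by
      intro l hl
      obtain ⟨v, hv0, hv⟩ := Matrix.exists_vecMul_eq_zero_iff.2 hl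
      have h1 : (∑ i, v i • E i : Derivation k L L) = 0 := by
        apply der_ext (Φ.J l) (hJb l)
        intro j
        rw [sum_smul_der]
        have := congrFun hv j
        exact this
      apply hv0
      funext j
      have h2 : (∑ i, v i • E i : Derivation k L L) (algebraMap K L (x j)) = v j := by
        rw [sum_smul_der, Finset.sum_eq_single j]
        · rw [hE, hD, if_pos rfl, map_one, mul_one]
        · intro i _ hij
          rw [hE, hD, if_neg hij, map_zero, mul_zero]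
        · intro h
          exact absurd (Finset.mem_univ j) h
      rw [h1] at h2
      exact h2.symm
    · have hchL : CharZero L := charZero_of_injective_algebraMap (algebraMap k L).injective
      have hdsf : dsf n Φ.H ≠ 0 := by
        have h0 : dsf n Φ.H ≠ 0 ↔ dsf n (pr (algebraMap K L Φ.H.leadingCoeff) Φ.τ) ≠ 0 := by
          rw [← Φ.rd.eq, map_dsf, _root_.map_ne_zero]
        rw [h0]
        exact dsf_ne Φ.rd.lead Φ.rd.inj Φ.rd.card
      have hphi : ω 0 D ≠ 0 := by
        change Φ.phi M μ c cD a 1 D ≠ 0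
        unfold phi
        have hden : Φ.den μ a ≠ 0 := by
          unfold den
          exact Finset.prod_ne_zero_iff.2 fun l _ =>
            Finset.prod_ne_zero_iff.2 fun j _ => Finset.prod_ne_zero_iff.2 fun i _ =>
              pow_ne_zero _ (norm_ne (sub_ne_zero.2 (hTa _ i)))
        refine mul_ne_zero (mul_ne_zero (div_ne_zero one_ne_zero hden) (pow_ne_zero _
          (mul_ne_zero (Finset.prod_ne_zero_iff.2 fun i _ => pow_ne_zero _ (h0 i))
            (pow_ne_zero _ hdsf)))) (pow_ne_zero _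
          (Finset.prod_ne_zero_iff.2 fun l _ => norm_ne ?_))
        rw [Φ.dt_eq l hE]
        exact hdet l
      refine ⟨D, hphi, ?_⟩
      have h2 : (fun i : Fin w => ω i.succ D / ω 0 D) = x := by
        funext i
        rw [div_eq_iff hphi]
        change Φ.phi M μ c cD a (x i) D = x i * Φ.phi M μ c cD a 1 D
        unfold phi
        ring
      rw [h2]
      exact hbas.1

end Fam2

end Pool.Agent.H910.Dsc
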