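import Pool.Agent.H910.Dsc.Main

/-!
Cyclic covers of a projective space which are branched over the discriminant hypersurface of a
linear system of binary forms, and over hyperplanes of forms which vanish at given numbers.
-/

set_option autoImplicit false

open MvPolynomial Metric Filter Topology

namespace Pool.Agent.H910.Dsc

open Pool.Agent.W602.Cov Pool.Agent.W602.Cov.Cover Pool.Agent.W602.Cov.R Pool.Agent.W603.BP
open Pool.Agent.W601.PH Pool.Agent.W602.GT Pool.Agent.Y216 Pool.Agent.Y216.LG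
open Pool.Agent.TH152.HY hiding aeval_inr main
open Pool.Agent.Y191 (SemiAbelianOff semi_of_brody lf)
open Pool.Agent.Y190.SC (norm_cnt lfP aeval_lfP hom_lfP FiniteOver exists_pt)

variable {m n q : ℕ}

/-- The coefficients of the binary form of degree `n + 1` with the parameters `x`, in the linear
system of binary forms which is given by the matrix `A`. -/
def cf {L : Type} [CommRing L] [Algebra ℂ L] (A : Fin (n + 2) → Fin (m + 1) → ℂ)
    (x : Fin (m + 1) → L) : Fin (n + 2) → L :=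
  fun l => ∑ j, algebraMap ℂ L (A l j) * x j

/-- The product of the power with exponent `cD` of the discriminant, and of the powers with
exponents `c i` of the values at `a i`, of the binary form with the parameters `x`. -/
noncomputable def brn {L : Type} [Field L] [Algebra ℂ L] (A : Fin (n + 2) → Fin (m + 1) → ℂ)
    (a : Fin q → ℂ) (c : Fin q → ℕ) (cD : ℕ) (x : Fin (m + 1) → L) : L :=
  bdisc (cf A x) ^ cD * ∏ i, lf (fun l : Fin (n + 2) => a i ^ (l : ℕ)) (cf A x) ^ c i

/-- the degree of `brn` -/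
def dg (n : ℕ) (c : Fin q → ℕ) (cD : ℕ) : ℕ := 2 * n * cD + ∑ i, c i

section alg

variable {L : Type} [Field L] [Algebra ℂ L]

theorem cf_smul (A : Fin (n + 2) → Fin (m + 1) → ℂ) (t : L) (x : Fin (m + 1) → L) :
    cf A (t • x) = t • cf A x := by
  funext l
  unfold cf
  rw [Pi.smul_apply, Finset.smul_sum]
  refine Finset.sum_congr rfl fun j _ => ?_
  rw [Pi.smul_apply, smul_eq_mul, smul_eq_mul]
  ring

theorem lf_smul' {ι : Type} [Fintype ι] (ℓ : ι → ℂ) (t : L) (b : ι → L) :
    lf ℓ (t • b) = t * lf ℓ b := by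
  unfold lf
  rw [Finset.mul_sum]
  refine Finset.sum_congr rfl fun j _ => ?_
  rw [Pi.smul_apply, smul_eq_mul]
  ring

omit [Algebra ℂ L] in
theorem bdisc_smul (t : L) (b : Fin (n + 2) → L) : bdisc (t • b) = t ^ (2 * n) * bdisc b := by
  rw [bdisc_eq, bdisc_eq]
  have h1 : pol (t • b) = Polynomial.C t * pol b := by
    have h2 : (fun j => t * b j) = t • b := by
      funext j
      rfl
    rw [← h2, pol_smul]
  rw [h1, dsf_C_mul]

theorem brn_smul (A : Fin (n + 2) → Fin (m + 1) → ℂ) (a : Fin q → ℂ) (c : Fin q → ℕ) (cD : ℕ)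
    (t : L) (x : Fin (m + 1) → L) : brn A a c cD (t • x) = t ^ dg n c cD * brn A a c cD x := by
  unfold brn dg
  rw [cf_smul, bdisc_smul, mul_pow, ← pow_mul, pow_add, ← Finset.prod_pow_eq_pow_sum]
  simp only [lf_smul', mul_pow]
  rw [Finset.prod_mul_distrib]
  ring

/-- the equation in terms of the coefficients -/
noncomputable def brv (a : Fin q → ℂ) (c : Fin q → ℕ) (cD : ℕ) (v : Fin (n + 2) → L) : L :=
  bdisc v ^ cD * ∏ i, lf (fun l : Fin (n + 2) => a i ^ (l : ℕ)) v ^ c i

theorem brv_smul (a : Fin q → ℂ) (c : Fin q → ℕ) (cD : ℕ)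
    (t : L) (x : Fin (n + 2) → L) : brv a c cD (t • x) = t ^ dg n c cD * brv a c cD x := by
  unfold brv dg
  rw [bdisc_smul, mul_pow, ← pow_mul, pow_add, ← Finset.prod_pow_eq_pow_sum]
  simp only [lf_smul', mul_pow]
  rw [Finset.prod_mul_distrib]
  ring

end alg


/-- a left inverse of the matrix -/
theorem exists_inv {A : Fin (n + 2) → Fin (m + 1) → ℂ}
    (hA : ∀ x : Fin (m + 1) → ℂ, cf A x = 0 → x = 0) :
    ∃ B : Fin (m + 1) → Fin (n + 2) → ℂ, ∀ i j, ∑ l, B i l * A l j = if i = j then 1 else 0 := by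
  let f : (Fin (m + 1) → ℂ) →ₗ[ℂ] (Fin (n + 2) → ℂ) := Matrix.mulVecLin (Matrix.of A)
  have hf : ∀ x, f x = cf A x := by
    intro x
    funext l
    change (Matrix.of A).mulVec x l = _
    rw [Matrix.mulVec, dotProduct]
    rfl
  have hker : LinearMap.ker f = ⊥ := by
    rw [LinearMap.ker_eq_bot']
    intro x hx
    exact hA x (by rw [← hf, hx])
  obtain ⟨g, hg⟩ := f.exists_leftInverse_of_injective hker
  refine ⟨fun i l => g (Pi.single l 1) i, fun i j => ?_⟩
  have h1 : g (f (Pi.single j 1)) = Pi.single j 1 := by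
    have := LinearMap.congr_fun hg (Pi.single j 1)
    exact this
  have h2 : f (Pi.single j 1) = fun l => A l j := by
    rw [hf]
    funext l
    unfold cf
    rw [Finset.sum_eq_single j]
    · simp
    · intro b _ hb
      rw [Pi.single_eq_of_ne hb, mul_zero]
    · intro h
      exact absurd (Finset.mem_univ _) h
  have h3 : (fun l => A l j) = ∑ l, A l j • (Pi.single l (1 : ℂ) : Fin (n + 2) → ℂ) := by
    funext k
    rw [Finset.sum_apply, Finset.sum_eq_single k]
    · simp
    · intro b _ hb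
      rw [Pi.smul_apply, Pi.single_eq_of_ne hb.symm, smul_zero]
    · intro h
      exact absurd (Finset.mem_univ _) h
  rw [h2, h3, map_sum] at h1
  have h4 := congrFun h1 i
  rw [Finset.sum_apply] at h4
  rw [Pi.single_apply] at h4
  rw [← h4]
  refine Finset.sum_congr rfl fun l _ => ?_
  rw [map_smul, Pi.smul_apply, smul_eq_mul, mul_comm]

theorem inv_cf {A : Fin (n + 2) → Fin (m + 1) → ℂ} {B : Fin (m + 1) → Fin (n + 2) → ℂ}
    (hB : ∀ i j, ∑ l, B i l * A l j = if i = j then 1 else 0) {L : Type} [CommRing L] [Algebra ℂ L]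
    (x : Fin (m + 1) → L) (i : Fin (m + 1)) : ∑ l, algebraMap ℂ L (B i l) * cf A x l = x i := by
  unfold cf
  simp only [Finset.mul_sum]
  rw [Finset.sum_comm]
  have h1 : ∀ j, ∑ l, algebraMap ℂ L (B i l) * (algebraMap ℂ L (A l j) * x j) =
      algebraMap ℂ L (if i = j then 1 else 0) * x j := by
    intro j
    rw [← hB i j, map_sum, Finset.sum_mul]
    refine Finset.sum_congr rfl fun l _ => ?_
    rw [map_mul, mul_assoc]
  simp only [h1]
  rw [Finset.sum_eq_single i]
  · rw [if_pos rfl, map_one, one_mul]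
  · intro b _ hb
    rw [if_neg (Ne.symm hb), map_zero, zero_mul]
  · intro h
    exact absurd (Finset.mem_univ _) h

/-! ### the closed subset of the product -/

/-- the linear forms of the coefficients, in the first group of variables -/
noncomputable def cfP (A : Fin (n + 2) → Fin (m + 1) → ℂ) (l : Fin (n + 2)) :
    BiPoly (m + 1) (n + 1) := ∑ j : Fin (m + 1), C (A l j) * X (Sum.inl j.succ)

/-- the weights -/
theorem hom_cfP (A : Fin (n + 2) → Fin (m + 1) → ℂ) (l : Fin (n + 2)) : BiHom (cfP A l) 1 0 := by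
  unfold cfP BiHom
  refine IsWeightedHomogeneous.sum _ _ _ fun j _ => ?_
  have h1 := (isWeightedHomogeneous_C (R := ℂ)
    (Sum.elim (fun _ : Fin (m + 1 + 1) => ((1 : ℕ), (0 : ℕ))) fun _ : Fin (n + 1 + 1) =>
      ((0 : ℕ), (1 : ℕ))) (A l j)).mul (isWeightedHomogeneous_X ℂ
    (Sum.elim (fun _ : Fin (m + 1 + 1) => ((1 : ℕ), (0 : ℕ))) fun _ : Fin (n + 1 + 1) =>
      ((0 : ℕ), (1 : ℕ))) (Sum.inl j.succ))
  rw [zero_add] at h1
  exact h1

theorem hom_aeval {σ τ : Type} {w : τ → ℕ × ℕ} {P : MvPolynomial σ ℂ} {D : ℕ}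
    (hP : P.IsHomogeneous D) {f : σ → MvPolynomial τ ℂ}
    (hf : ∀ s, IsWeightedHomogeneous w (f s) (1, 0)) :
    IsWeightedHomogeneous w (aeval f P) (D, 0) := by
  rw [aeval_def, eval₂_eq]
  refine IsWeightedHomogeneous.sum _ _ _ fun α hα => ?_
  have h1 : IsWeightedHomogeneous w (∏ i ∈ α.support, f i ^ α i) (∑ i ∈ α.support, α i • (1, 0)) :=
    IsWeightedHomogeneous.prod _ _ _ fun i _ => (hf i).pow _
  have h2 := (isWeightedHomogeneous_C (R := ℂ) w (P.coeff α)).mul h1
  rw [zero_add] at h2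
  have h3 : (∑ i ∈ α.support, α i • ((1 : ℕ), (0 : ℕ))) = (D, 0) := by
    have h4 := hP (mem_support_iff.1 hα)
    rw [Finsupp.weight_apply, Finsupp.sum] at h4
    rw [Prod.ext_iff]
    constructor
    · rw [Prod.fst_sum]
      simpa using h4
    · rw [Prod.snd_sum]
      simp
  rw [h3] at h2
  exact h2

/-- the product of the powers of the discriminant and of the linear forms -/
noncomputable def brP (n : ℕ) (a : Fin q → ℂ) (c : Fin q → ℕ) (cD : ℕ) :
    MvPolynomial (Fin (n + 2)) ℂ :=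
  dscP n ^ cD * ∏ i, lfP (n + 1) (a i) ^ c i

theorem aeval_brP (a : Fin q → ℂ) (c : Fin q → ℕ) (cD : ℕ) {L : Type} [Field L] [Algebra ℂ L]
    (v : Fin (n + 2) → L) : aeval v (brP n a c cD) = brv a c cD v := by
  unfold brP brv
  rw [map_mul, map_pow, map_prod, aeval_dscP]
  congr 1
  refine Finset.prod_congr rfl fun i _ => ?_
  rw [map_pow, aeval_lfP]
  rfl

theorem hom_brP (a : Fin q → ℂ) (c : Fin q → ℕ) (cD : ℕ) :
    (brP n a c cD).IsHomogeneous (dg n c cD) := by
  unfold brP dg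
  refine ((hom_dscP n).pow cD).mul ?_
  have := IsHomogeneous.prod Finset.univ (fun i => lfP (n + 1) (a i) ^ c i) (fun i => 1 * c i)
    fun i _ => (hom_lfP (n + 1) (a i)).pow (c i)
  simpa using this

/-- the closed subset of `P^(m + 1) × P^(n + 1)` -/
noncomputable def XB (A : Fin (n + 2) → Fin (m + 1) → ℂ) (a : Fin q → ℂ) (c : Fin q → ℕ)
    (cD : ℕ) : BiSet (m + 1) (n + 1) where
  eqs := {G | (∃ l l', G = X (Sum.inr l) * cfP A l' - X (Sum.inr l') * cfP A l) ∨
    G = X (Sum.inl 0) ^ dg n c cD - aeval (cfP A) (brP n a c cD)}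
  hom := by
    rintro G (⟨l, l', rfl⟩ | rfl)
    · refine ⟨1, 1, ?_⟩
      have h1 : ∀ l l' : Fin (n + 2), BiHom (X (Sum.inr l) * cfP A l' : BiPoly (m + 1) (n + 1))
          1 1 := by
        intro l l'
        have := (isWeightedHomogeneous_X ℂ
          (Sum.elim (fun _ : Fin (m + 1 + 1) => ((1 : ℕ), (0 : ℕ))) fun _ : Fin (n + 1 + 1) =>
            ((0 : ℕ), (1 : ℕ))) (Sum.inr l)).mul (hom_cfP A l')
        exact this
      exact (h1 l l').sub (h1 l' l)
    · refine ⟨dg n c cD, 0, ?_⟩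
      have h1 : BiHom (X (Sum.inl 0) ^ dg n c cD : BiPoly (m + 1) (n + 1)) (dg n c cD) 0 := by
        have := (isWeightedHomogeneous_X ℂ
          (Sum.elim (fun _ : Fin (m + 1 + 1) => ((1 : ℕ), (0 : ℕ))) fun _ : Fin (n + 1 + 1) =>
            ((0 : ℕ), (1 : ℕ))) (Sum.inl 0)).pow (dg n c cD)
        unfold BiHom
        simpa using this
      exact h1.sub (hom_aeval (hom_brP a c cD) fun l => hom_cfP A l)

/-- the empty subset -/
noncomputable def DB (m n : ℕ) : BiSet (m + 1) (n + 1) where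
  eqs := {1}
  hom := by
    rintro G rfl
    exact ⟨0, 0, isWeightedHomogeneous_one _ _⟩

theorem not_mem_DB {L : Type} [Field L] [Algebra ℂ L] (u : Fin (m + 2) → L)
    (v : Fin (n + 2) → L) : ¬ (DB m n).Mem u v := by
  rintro ⟨-, -, h⟩
  have := h 1 rfl
  rw [map_one] at this
  exact one_ne_zero this

theorem mem_XB {A : Fin (n + 2) → Fin (m + 1) → ℂ} {a : Fin q → ℂ} {c : Fin q → ℕ} {cD : ℕ}
    {L : Type} [Field L] [Algebra ℂ L] {y : L} {x : Fin (m + 1) → L} {v : Fin (n + 2) → L} :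
    (XB A a c cD).Mem (Fin.cons y x : Fin (m + 2) → L) v ↔
      ((Fin.cons y x : Fin (m + 2) → L) ≠ 0) ∧ v ≠ 0 ∧
      (∀ l l', v l * cf A x l' = v l' * cf A x l) ∧ y ^ dg n c cD = brn A a c cD x := by
  have h1 : ∀ l, aeval (Sum.elim (Fin.cons y x : Fin (m + 2) → L) v)
      (cfP A l : BiPoly (m + 1) (n + 1)) = cf A x l := by
    intro l
    unfold cfP cf
    rw [map_sum]
    refine Finset.sum_congr rfl fun j _ => ?_
    rw [map_mul, aeval_X, Sum.elim_inl, Fin.cons_succ]
    rw [← algebraMap_eq, AlgHom.commutes]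
  have h2 : aeval (Sum.elim (Fin.cons y x : Fin (m + 2) → L) v)
      (aeval (cfP A : Fin (n + 2) → BiPoly (m + 1) (n + 1)) (brP n a c cD)) = brn A a c cD x := by
    rw [← AlgHom.comp_apply, comp_aeval]
    simp only [h1]
    rw [aeval_brP]
    rfl
  unfold BiSet.Mem
  refine and_congr_right fun _ => and_congr_right fun _ => ?_
  constructor
  · intro h
    constructor
    · intro l l'
      have := h _ (Or.inl ⟨l, l', rfl⟩)
      rw [map_sub, map_mul, map_mul, aeval_X, aeval_X, Sum.elim_inr, Sum.elim_inr, h1, h1] at this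
      exact sub_eq_zero.1 this
    · have := h _ (Or.inr rfl)
      rw [map_sub, map_pow, aeval_X, Sum.elim_inl, h2, Fin.cons_zero] at this
      exact sub_eq_zero.1 this
  · rintro ⟨h3, h4⟩ G (⟨l, l', rfl⟩ | rfl)
    · rw [map_sub, map_mul, map_mul, aeval_X, aeval_X, Sum.elim_inr, Sum.elim_inr, h1, h1, h3,
        sub_self]
    · rw [map_sub, map_pow, aeval_X, Sum.elim_inl, h2, Fin.cons_zero, h4, sub_self]

end Pool.Agent.H910.Dsc
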