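import Pool.Agent.H910.Dsc.Hyp

/-!
Cyclic covers of a projective space which are branched over the discriminant hypersurface of a
linear system of binary forms: finiteness and ramification.
-/

set_option autoImplicit false

open MvPolynomial Metric Filter Topology

namespace Pool.Agent.H910.Dsc

open Pool.Agent.W602.Cov Pool.Agent.W602.Cov.Cover Pool.Agent.W602.Cov.R Pool.Agent.W603.BP
open Pool.Agent.W601.PH Pool.Agent.W602.GT Pool.Agent.Y216 Pool.Agent.Y216.LG
open Pool.Agent.TH152.HY hiding aeval_inr main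
open Pool.Agent.Y191 (SemiAbelianOff semi_of_brody lf)
open Pool.Agent.Y190.SC (norm_cnt lfP aeval_lfP hom_lfP FiniteOver exists_pt)

variable {m n q : ℕ} {A : Fin (n + 2) → Fin (m + 1) → ℂ} {a : Fin q → ℂ} {c : Fin q → ℕ} {cD : ℕ}

section alg

variable {L : Type} [Field L] [Algebra ℂ L]

theorem brn_zero (hq : 0 < q) (hc : ∀ i, 1 ≤ c i) : brn A a c cD (0 : Fin (m + 1) → L) = 0 := by
  have h0 : cf A (0 : Fin (m + 1) → L) = 0 := by
    funext l
    unfold cf
    simp
  unfold brn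
  rw [h0, Finset.prod_eq_zero (Finset.mem_univ (⟨0, hq⟩ : Fin q)), mul_zero]
  have : lf (fun l : Fin (n + 2) => a ⟨0, hq⟩ ^ (l : ℕ)) (0 : Fin (n + 2) → L) = 0 := by
    unfold lf
    simp
  rw [this, zero_pow (by have := hc ⟨0, hq⟩; omega)]

theorem cf_inj {B : Fin (m + 1) → Fin (n + 2) → ℂ}
    (hB : ∀ i j, ∑ l, B i l * A l j = if i = j then 1 else 0) {x : Fin (m + 1) → L}
    (h : cf A x = 0) : x = 0 := by
  funext i
  rw [← inv_cf hB x i, h]
  simp

theorem dg_pos (hq : 0 < q) (hc : ∀ i, 1 ≤ c i) : 0 < dg n c cD := by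
  unfold dg
  have h1 : c ⟨0, hq⟩ ≤ ∑ i, c i := Finset.single_le_sum (fun _ _ => Nat.zero_le _)
    (Finset.mem_univ _)
  have := hc ⟨0, hq⟩
  omega

/-- the second point is proportional to the coefficients -/
theorem mem_scale {B : Fin (m + 1) → Fin (n + 2) → ℂ}
    (hB : ∀ i j, ∑ l, B i l * A l j = if i = j then 1 else 0) (hq : 0 < q) (hc : ∀ i, 1 ≤ c i)
    {y : L} {x : Fin (m + 1) → L} {v : Fin (n + 2) → L}
    (h : (XB A a c cD).Mem (Fin.cons y x : Fin (m + 2) → L) v) :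
    x ≠ 0 ∧ cf A x ≠ 0 ∧ ∃ t : L, t ≠ 0 ∧ v = t • cf A x := by
  rw [mem_XB] at h
  obtain ⟨h1, h2, h3, h4⟩ := h
  have hx : x ≠ 0 := by
    rintro rfl
    rw [brn_zero hq hc] at h4
    have hy : y = 0 := pow_eq_zero_iff (dg_pos hq hc).ne' |>.1 h4
    apply h1
    rw [hy]
    funext i
    refine Fin.cases rfl (fun j => rfl) i
  have hcf : cf A x ≠ 0 := fun h0 => hx (cf_inj hB h0)
  refine ⟨hx, hcf, ?_⟩
  obtain ⟨l0, hl0⟩ := Function.ne_iff.1 hcf
  have hl0' : cf A x l0 ≠ 0 := hl0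
  refine ⟨v l0 / cf A x l0, ?_, ?_⟩
  · intro h0
    apply h2
    rw [div_eq_zero_iff, or_iff_left hl0'] at h0
    funext l
    have := h3 l l0
    rw [h0, zero_mul] at this
    exact (mul_eq_zero.1 this).resolve_right hl0'
  · funext l
    rw [Pi.smul_apply, smul_eq_mul, div_mul_eq_mul_div, eq_div_iff hl0', h3 l l0]

end alg

theorem finite_XB {B : Fin (m + 1) → Fin (n + 2) → ℂ}
    (hB : ∀ i j, ∑ l, B i l * A l j = if i = j then 1 else 0) (hq : 0 < q) (hc : ∀ i, 1 ≤ c i) :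
    FiniteOver (XB A a c cD) := by
  intro L _ _ u v huv i j hj
  have hu : u = Fin.cons (u 0) (fun j => u j.succ) := by
    funext k
    refine Fin.cases rfl (fun j => rfl) k
  rw [hu] at huv
  obtain ⟨hx, hcf, t, ht, hv⟩ := mem_scale hB hq hc huv
  obtain ⟨-, hv0, -, heq⟩ := mem_XB.1 huv
  set x : Fin (m + 1) → L := fun j => u j.succ with hxdef
  obtain ⟨l1, hl1⟩ := Function.ne_iff.1 hv0
  have hl1' : v l1 ≠ 0 := hl1
  set F := IntermediateField.adjoin ℂ {f : L | ∃ i j, v j ≠ 0 ∧ f = v i / v j} with hF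
  have hvF : ∀ l, v l / v l1 ∈ F := fun l => IntermediateField.subset_adjoin ℂ _ ⟨l, l1, hl1', rfl⟩
  -- the scaled coordinates
  have hxF : ∀ k, t * x k / v l1 ∈ F := by
    intro k
    have h1 : t * x k / v l1 = ∑ l, algebraMap ℂ L (B k l) * (v l / v l1) := by
      rw [← inv_cf hB x k, Finset.mul_sum, Finset.sum_div]
      refine Finset.sum_congr rfl fun l _ => ?_
      have h2 : v l = t * cf A x l := congrFun hv l
      rw [h2]
      ring
    rw [h1]
    exact sum_mem fun l _ => mul_mem (F.algebraMap_mem _) (hvF l)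
  have hvP : ∀ P : MvPolynomial (Fin (n + 2)) ℂ, aeval (fun l => v l / v l1) P ∈ F := by
    intro P
    rw [aeval_def, eval₂_eq]
    refine sum_mem fun α _ => mul_mem (F.algebraMap_mem _) (prod_mem fun i _ => pow_mem (hvF i) _)
  have hyF : (t * u 0 / v l1) ^ dg n c cD ∈ F := by
    have h1 : (t * u 0 / v l1) ^ dg n c cD = aeval (fun l => v l / v l1) (brP n a c cD) := by
      have h2 : (fun l => v l / v l1) = (t / v l1) • cf A x := by
        funext l
        have h3 : v l = t * cf A x l := congrFun hv l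
        rw [h3, Pi.smul_apply, smul_eq_mul]
        ring
      rw [aeval_brP, h2, brv_smul, mul_div_right_comm, mul_pow]
      congr 1
    rw [h1]
    exact hvP _
  have halg : ∀ k, IsAlgebraic F (t * u k / v l1) := by
    intro k
    refine Fin.cases ?_ (fun j => ?_) k
    · exact IsAlgebraic.of_pow (dg_pos hq hc) (isAlgebraic_algebraMap (⟨_, hyF⟩ : F))
    · exact isAlgebraic_algebraMap (⟨_, hxF j⟩ : F)
  have h1 : u i / u j = (t * u i / v l1) * (t * u j / v l1)⁻¹ := by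
    field_simp
  rw [h1]
  exact (halg i).mul (halg j).inv

theorem not_centre_DB {L : Type} [Field L] [Algebra ℂ L] {u : Fin (m + 2) → L}
    {v : Fin (n + 2) → L} (hu : u ≠ 0) (hv : v ≠ 0) (P : FF.Place ℂ L) :
    ¬ CentreIn (DB m n) u v P := by
  intro h
  obtain ⟨c1, h1⟩ : ∃ c1, Norm P u c1 := ⟨_, norm_cnt hu⟩
  obtain ⟨c2, h2⟩ : ∃ c2, Norm P v c2 := ⟨_, norm_cnt hv⟩
  rcases h c1 c2 h1 h2 1 rfl 0 0 (isWeightedHomogeneous_one _ _) with h3 | h3
  · rw [map_one] at h3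
    exact one_ne_zero h3
  · rw [map_one, P.ord_one] at h3
    simp at h3

theorem ramified_XB {B : Fin (m + 1) → Fin (n + 2) → ℂ}
    (hB : ∀ i j, ∑ l, B i l * A l j = if i = j then 1 else 0) (hq : 0 < q) (hc : ∀ i, 1 ≤ c i)
    (hcD : 1 ≤ cD) :
    RamifiedDisc (XB A a c cD) (DB m n) a (dg n c cD) (fun _ => dg n c cD) c cD := by
  intro L _ _ u v huv h0 hd P _ b s t hN hs ht
  have hu : u = Fin.cons (u 0) (fun j => u j.succ) := by
    funext k
    refine Fin.cases rfl (fun j => rfl) k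
  rw [hu] at huv
  obtain ⟨hx, hcf, τ, hτ, hv⟩ := mem_scale hB hq hc huv
  obtain ⟨-, hv0, -, heq⟩ := mem_XB.1 huv
  set x : Fin (m + 1) → L := fun j => u j.succ with hxdef
  -- the equation
  have h1 : (τ * u 0) ^ dg n c cD = bdisc v ^ cD *
      ∏ i, lf (fun l : Fin (n + 2) => a i ^ (l : ℕ)) v ^ c i := by
    have h2 : brv a c cD v = τ ^ dg n c cD * brn A a c cD x := by
      rw [hv, brv_smul]
      rfl
    rw [mul_pow, heq, ← h2]
    rfl
  have h2 : ∀ i, lf (fun l : Fin (n + 2) => a i ^ (l : ℕ)) v ^ c i ≠ 0 := fun i =>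
    pow_ne_zero _ (h0 i)
  have h3 : ∏ i, lf (fun l : Fin (n + 2) => a i ^ (l : ℕ)) v ^ c i ≠ 0 :=
    Finset.prod_ne_zero_iff.2 fun i _ => h2 i
  have h4 : τ * u 0 ≠ 0 := by
    intro h5
    rw [h5, zero_pow (dg_pos hq hc).ne'] at h1
    exact mul_ne_zero (pow_ne_zero _ hd) h3 h1.symm
  have h5 := congrArg P.ord h1
  rw [P.ord_pow, P.ord_mul (pow_ne_zero _ hd) h3, P.ord_pow, ht,
    Pool.Agent.Y191.ord_prod P _ _ h2] at h5
  have h6 : ∀ i, P.ord (lf (fun l : Fin (n + 2) => a i ^ (l : ℕ)) v ^ c i) = c i * (b + s i) :=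
    fun i => by rw [P.ord_pow, hs]
  simp only [h6] at h5
  -- the sum of the contacts is a multiple of the degree
  have h7 : ((∑ i, c i * s i + cD * t : ℕ) : ℤ) = dg n c cD * (P.ord (τ * u 0) - b) := by
    have h8 : ((dg n c cD : ℕ) : ℤ) = 2 * n * cD + ∑ i, (c i : ℤ) := by
      unfold dg
      push_cast
      ring
    have h9 : ∑ i, (c i : ℤ) * (b + s i) = (∑ i, (c i : ℤ)) * b + ∑ i, (c i : ℤ) * s i := by
      rw [Finset.sum_mul, ← Finset.sum_add_distrib]
      exact Finset.sum_congr rfl fun i _ => by ring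
    rw [h9] at h5
    push_cast
    rw [mul_sub, h5, h8]
    ring
  rcases Nat.eq_zero_or_pos (∑ i, c i * s i + cD * t) with h8 | h8
  · left
    have h9 : ∑ i, c i * s i = 0 := by omega
    have h10 : cD * t = 0 := by omega
    refine ⟨(Nat.mul_eq_zero.1 h10).resolve_left (by omega), fun i => Or.inl ?_⟩
    have := (Finset.sum_eq_zero_iff.1 h9) i (Finset.mem_univ i)
    have hci := hc i
    exact (Nat.mul_eq_zero.1 this).resolve_left (by omega)
  · right
    have h9 : dg n c cD ∣ ∑ i, c i * s i + cD * t := by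
      have : ((dg n c cD : ℕ) : ℤ) ∣ ((∑ i, c i * s i + cD * t : ℕ) : ℤ) := ⟨_, h7⟩
      exact_mod_cast this
    exact Nat.le_of_dvd h8 h9

end Pool.Agent.H910.Dsc
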