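import Pool.Agent.H910.Dsc.HypB

/-!
Cyclic covers of a projective space which are branched over the discriminant hypersurface of a
linear system of binary forms: entire curves, punctured discs and subvarieties.
-/

set_option autoImplicit false

open MvPolynomial Metric Filter Topology

namespace Pool.Agent.H910.Dsc

open Pool.Agent.W602.Cov Pool.Agent.W602.Cov.Cover Pool.Agent.W602.Cov.R Pool.Agent.W603.BP
open Pool.Agent.W601.PH Pool.Agent.W602.GT Pool.Agent.Y216 Pool.Agent.Y216.LG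
open Pool.Agent.TH152.HY hiding aeval_inr main
open Pool.Agent.Y191 (SemiAbelianOff semi_of_brody lf)
open Pool.Agent.Y190.SC (norm_cnt lfP aeval_lfP hom_lfP FiniteOver exists_pt)

variable {m n q : ℕ} {A : Fin (n + 2) → Fin (m + 1) → ℂ} {a : Fin q → ℂ} {c : Fin q → ℕ} {cD : ℕ}

/-- The point of the projective space of dimension `m + 1` with the homogeneous coordinates
`(x, y)` over the field `L` lies on the hypersurface
`y ^ d = disc(H) ^ cD * ∏ i, H(a i) ^ (c i)`, where `H` is the binary form with the parameters `x`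
and where `d = 2 * n * cD + ∑ i, c i` is the degree of the right hand side in `x`. -/
def OnHyp {L : Type} [Field L] [Algebra ℂ L] (A : Fin (n + 2) → Fin (m + 1) → ℂ) (a : Fin q → ℂ)
    (c : Fin q → ℕ) (cD : ℕ) (x : Fin (m + 1) → L) (y : L) : Prop :=
  (x ≠ 0 ∨ y ≠ 0) ∧ y ^ dg n c cD = brn A a c cD x

/-- A (nonconstant) entire curve in the hypersurface, in homogeneous coordinates. -/
structure EntHyp (A : Fin (n + 2) → Fin (m + 1) → ℂ) (a : Fin q → ℂ) (c : Fin q → ℕ) (cD : ℕ)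
    (x : ℂ → Fin (m + 1) → ℂ) (y : ℂ → ℂ) : Prop where
  diffx : ∀ j, Differentiable ℂ fun z => x z j
  diffy : Differentiable ℂ y
  mem : ∀ z, OnHyp A a c cD (x z) (y z)
  nonconst : ∃ z z', ∀ t : ℂ, ¬ (x z' = t • x z ∧ y z' = t * y z)

/-- A holomorphic map from the punctured unit disc to the hypersurface, in homogeneous
coordinates. -/
structure DiscHyp (A : Fin (n + 2) → Fin (m + 1) → ℂ) (a : Fin q → ℂ) (c : Fin q → ℕ) (cD : ℕ)
    (x : ℂ → Fin (m + 1) → ℂ) (y : ℂ → ℂ) : Prop where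
  diffx : ∀ j, DifferentiableOn ℂ (fun z => x z j) (ball 0 1 \ {0})
  diffy : DifferentiableOn ℂ y (ball 0 1 \ {0})
  mem : ∀ z ∈ ball (0 : ℂ) 1 \ {0}, OnHyp A a c cD (x z) (y z)

section alg

variable {L : Type} [Field L] [Algebra ℂ L]

theorem OnHyp.ne {x : Fin (m + 1) → L} {y : L} (h : OnHyp A a c cD x y) (hq : 0 < q)
    (hc : ∀ i, 1 ≤ c i) : x ≠ 0 := by
  rintro rfl
  obtain ⟨h1, h2⟩ := h
  rw [brn_zero hq hc] at h2
  have hy : y = 0 := pow_eq_zero_iff (dg_pos hq hc).ne' |>.1 h2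
  rcases h1 with h1 | h1
  · exact h1 rfl
  · exact h1 hy

theorem OnHyp.memXB {B : Fin (m + 1) → Fin (n + 2) → ℂ}
    (hB : ∀ i j, ∑ l, B i l * A l j = if i = j then 1 else 0) {x : Fin (m + 1) → L} {y : L}
    (h : OnHyp A a c cD x y) (hq : 0 < q) (hc : ∀ i, 1 ≤ c i) :
    (XB A a c cD).Mem (Fin.cons y x : Fin (m + 2) → L) (cf A x) := by
  rw [mem_XB]
  have hx := h.ne hq hc
  refine ⟨?_, fun h0 => hx (cf_inj hB h0), fun l l' => mul_comm _ _, h.2⟩
  intro h0
  apply hx
  funext j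
  have := congrFun h0 j.succ
  rwa [Fin.cons_succ] at this

theorem OnHyp.hyp_ne {x : Fin (m + 1) → L} {y : L} (h : OnHyp A a c cD x y) (hy : y ≠ 0)
    (hc : ∀ i, 1 ≤ c i) (hcD : 1 ≤ cD) :
    (∏ i, lf (fun l : Fin (n + 2) => a i ^ (l : ℕ)) (cf A x)) * bdisc (cf A x) ≠ 0 := by
  have h1 : brn A a c cD x ≠ 0 := by
    rw [← h.2]
    exact pow_ne_zero _ hy
  unfold brn at h1
  refine mul_ne_zero (Finset.prod_ne_zero_iff.2 fun i _ h0 => ?_) fun h0 => ?_
  · apply right_ne_zero_of_mul h1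
    refine Finset.prod_eq_zero (Finset.mem_univ i) ?_
    rw [h0, zero_pow (by have := hc i; omega)]
  · apply left_ne_zero_of_mul h1
    rw [h0, zero_pow (by omega)]

end alg

/-- log general type and general type -/
theorem gt_of_log {K : Type} [Field K] [Algebra ℂ K] {t : ℕ} {Bd : FF.Place ℂ K → Prop}
    (h : LogGeneralType ℂ K t Bd) (hBd : ∀ P, ¬ Bd P) : GeneralType ℂ K t := by
  obtain ⟨h1, N, hN, ω, h2, _, h3, h4⟩ := h
  exact ⟨h1, N, hN, ω, h2, fun P hP => h3 P hP (hBd P), h4⟩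

/-- **The hypersurfaces.** -/
theorem hyp_main (hA : ∀ x : Fin (m + 1) → ℂ, cf A x = 0 → x = 0) (ha : Function.Injective a)
    (hc : ∀ i, 1 ≤ c i) (hcD : 1 ≤ cD) (hq : n + 3 < q) :
    (∀ x y, EntHyp A a c cD x y → ∀ z, y z = 0) ∧
    (∀ x y, DiscHyp A a c cD x y → (∃ z ∈ ball (0 : ℂ) 1 \ {0}, y z ≠ 0) →
      Extends fun z => (Fin.cons (y z) (x z) : Fin (m + 2) → ℂ)) ∧
    ∀ (L : Type) [Field L] [Algebra ℂ L] (x : Fin (m + 1) → L) (y : L) (t : ℕ),
      OnHyp A a c cD x y → y ≠ 0 →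
      IntermediateField.adjoin ℂ (Set.range fun j => x j / y) = ⊤ →
      Algebra.trdeg ℂ L = t → 1 ≤ t → GeneralType ℂ L t := by
  obtain ⟨B, hB⟩ := exists_inv hA
  have hq0 : 0 < q := by omega
  have hbound : (n + 1) * (∑ i, c i + 2 * n * cD) + 2 * dg n c cD <
      ∑ _i : Fin q, dg n c cD := by
    rw [Finset.sum_const, Finset.card_univ, Fintype.card_fin, smul_eq_mul]
    have h1 : ∑ i, c i + 2 * n * cD = dg n c cD := by
      unfold dg
      ring
    rw [h1, ← add_mul]
    exact Nat.mul_lt_mul_of_pos_right (by omega) (dg_pos hq0 hc)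
  obtain ⟨hPic, hBrody, -, hLang⟩ := main_fin_dsc (N := m + 1) ha
    (μ := fun _ => dg n c cD) (fun _ => le_rfl) hbound (ramified_XB hB hq0 hc hcD)
    (finite_XB hB hq0 hc)
  refine ⟨?_, ?_, ?_⟩
  · intro x y hxy z
    by_contra hy
    have hQ : QEntire (XB A a c cD) (DB m n) (fun z => (Fin.cons (y z) (x z) : Fin (m + 2) → ℂ))
        (fun z => cf A (x z)) := by
      refine ⟨?_, ?_, fun z => ⟨(hxy.mem z).memXB hB hq0 hc, not_mem_DB _ _⟩, ?_⟩
      · rw [differentiable_pi]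
        intro i
        refine Fin.cases ?_ (fun j => ?_) i
        · exact hxy.diffy
        · exact hxy.diffx j
      · rw [differentiable_pi]
        intro l
        unfold cf
        exact Differentiable.fun_sum fun j _ => (hxy.diffx j).const_mul _
      · obtain ⟨z1, z2, h⟩ := hxy.nonconst
        refine ⟨z1, z2, Or.inl fun t ht => h t ⟨?_, ?_⟩⟩
        · funext j
          have := congrFun ht j.succ
          exact this
        · exact congrFun ht 0
    have h1 : aeval (Sum.elim (Fin.cons (y z) (x z) : Fin (m + 2) → ℂ) (cf A (x z)))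
        (hypD (m + 1) n a) = 0 := hBrody _ _ hQ z
    rw [aeval_hypD] at h1
    exact (hxy.mem z).hyp_ne hy hc hcD h1
  · rintro x y hxy ⟨z0, hz0, hy⟩
    have hQ : QDisc (XB A a c cD) (DB m n) (fun z => (Fin.cons (y z) (x z) : Fin (m + 2) → ℂ))
        (fun z => cf A (x z)) := by
      refine ⟨?_, ?_, fun z hz => ⟨(hxy.mem z hz).memXB hB hq0 hc, not_mem_DB _ _⟩⟩
      · rw [differentiableOn_pi]
        intro i
        refine Fin.cases ?_ (fun j => ?_) i
        · exact hxy.diffy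
        · exact hxy.diffx j
      · rw [differentiableOn_pi]
        intro l
        unfold cf
        exact DifferentiableOn.fun_sum fun j _ => (hxy.diffx j).const_mul _
    refine (hPic _ _ hQ ⟨z0, hz0, ?_⟩).1
    have h1 : aeval (Sum.elim (Fin.cons (y z0) (x z0) : Fin (m + 2) → ℂ) (cf A (x z0)))
        (hypD (m + 1) n a) ≠ 0 := by
      rw [aeval_hypD]
      exact (hxy.mem z0 hz0).hyp_ne hy hc hcD
    exact h1
  · intro L _ _ x y t hxy hy hgen htr ht
    have hmem := hxy.memXB hB hq0 hc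
    refine gt_of_log (hLang L (Fin.cons y x) (cf A x) t hmem (not_mem_DB _ _) ?_ ?_ htr ht)
      fun P => not_centre_DB hmem.1 hmem.2.1 P
    · rw [aeval_hypD]
      exact hxy.hyp_ne hy hc hcD
    · rw [eq_top_iff, ← hgen]
      rw [IntermediateField.adjoin_le_iff]
      rintro _ ⟨j, rfl⟩
      refine IntermediateField.subset_adjoin ℂ _ (Or.inl ⟨j.succ, 0, ?_, ?_⟩)
      · rw [Fin.cons_zero]
        exact hy
      · rw [Fin.cons_zero, Fin.cons_succ]

end Pool.Agent.H910.Dsc
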