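import Pool.Agent.H910.Dsc.HypC
import Mathlib.LinearAlgebra.CrossProduct

/-!
Cyclic covers of a projective space which are branched over the discriminant hypersurface of a
linear system of binary forms: the rational curves in the exceptional set.
-/

set_option autoImplicit false

open Polynomial

namespace Pool.Agent.H910.Dsc

open Pool.Agent.Y216 Pool.Agent.Y190.BV
open Pool.Agent.Y191 (lf)
open Pool.Agent.Y216.LG (pol_ne)

/-- the value of a binary form -/
def hm {R : Type} [CommRing R] {n : ℕ} (v : Fin (n + 1) → R) (σ τ : R) : R :=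
  ∑ l, v l * (σ ^ (l : ℕ) * τ ^ (n - (l : ℕ)))

theorem hm_sum {R : Type} [CommRing R] {n : ℕ} {ι : Type} [Fintype ι] (w : ι → R)
    (V : ι → Fin (n + 1) → R) (σ τ : R) :
    hm (fun l => ∑ j, w j * V j l) σ τ = ∑ j, w j * hm (V j) σ τ := by
  unfold hm
  simp only [Finset.mul_sum, Finset.sum_mul]
  rw [Finset.sum_comm]
  refine Finset.sum_congr rfl fun j _ => Finset.sum_congr rfl fun l _ => ?_
  ring

theorem hm_dehom {n : ℕ} (v : Fin (n + 1) → ℂ) (σ : ℂ) {τ : ℂ} (hτ : τ ≠ 0) :
    hm v σ τ = τ ^ n * (pol v).eval (σ / τ) := by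
  unfold hm pol
  rw [eval_finsetSum, Finset.mul_sum]
  refine Finset.sum_congr rfl fun l _ => ?_
  rw [eval_mul, eval_C, eval_pow, eval_X, div_pow]
  have h1 : τ ^ n = τ ^ (n - (l : ℕ)) * τ ^ (l : ℕ) := by
    rw [← pow_add]
    congr 1
    omega
  rw [h1]
  have h2 : τ ^ (l : ℕ) ≠ 0 := pow_ne_zero _ hτ
  field_simp

theorem hm_inf {n : ℕ} (v : Fin (n + 1) → ℂ) (σ : ℂ) : hm v σ 0 = v (Fin.last n) * σ ^ n := by
  unfold hm
  rw [Finset.sum_eq_single (Fin.last n)]
  · rw [Fin.val_last, Nat.sub_self, pow_zero, mul_one]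
  · intro l _ hl
    have : (l : ℕ) < n := lt_of_le_of_ne (Nat.lt_succ_iff.1 l.2) fun h => hl (Fin.ext h)
    rw [zero_pow (by omega), mul_zero, mul_zero]
  · intro h
    exact absurd (Finset.mem_univ _) h

theorem sq_root {F : ℂ[X]} (hF : F ≠ 0) (h : ¬ Squarefree F) :
    ∃ s : ℂ, F.eval s = 0 ∧ (derivative F).eval s = 0 := by
  unfold Squarefree at h
  push Not at h
  obtain ⟨g, hg, hu⟩ := h
  have hg0 : g ≠ 0 := by
    rintro rfl
    rw [zero_mul, zero_dvd_iff] at hg
    exact hF hg
  obtain ⟨s, hs⟩ := IsAlgClosed.exists_root g fun h0 => hu (isUnit_iff_degree_eq_zero.2 h0)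
  obtain ⟨k, rfl⟩ := dvd_iff_isRoot.2 hs
  obtain ⟨G, rfl⟩ := hg
  refine ⟨s, by simp, by simp⟩

theorem not_sqf_of_root {F : ℂ[X]} {s : ℂ} (h1 : F.eval s = 0) (h2 : (derivative F).eval s = 0) :
    ¬ Squarefree F := by
  intro h
  obtain ⟨G, rfl⟩ := dvd_iff_isRoot.2 h1
  rw [derivative_mul, eval_add, eval_mul, eval_mul, derivative_sub, derivative_X, derivative_C,
    sub_zero, eval_one, one_mul, eval_sub, eval_X, eval_C, sub_self, zero_mul, add_zero] at h2
  obtain ⟨G', rfl⟩ := dvd_iff_isRoot.2 h2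
  have h3 := h (X - C s) ⟨G', by ring⟩
  exact not_isUnit_X_sub_C s h3

/-- **The discriminant vanishes if and only if there is a multiple zero.** -/
theorem bdisc_iff {n : ℕ} (hn : 1 ≤ n) {v : Fin (n + 2) → ℂ} (hv : v ≠ 0) :
    bdisc v = 0 ↔ ∃ σ τ : ℂ, (σ ≠ 0 ∨ τ ≠ 0) ∧ hm (parX v) σ τ = 0 ∧ hm (parY v) σ τ = 0 := by
  have hF : pol v ≠ 0 := pol_ne hv
  have hdeg : (pol v).natDegree ≤ n + 1 := natDegree_pol_le v
  have hlX : parX v (Fin.last n) = ((n + 1 : ℕ) : ℂ) * v (Fin.last (n + 1)) := by
    unfold parX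
    rw [Fin.val_last, Fin.succ_last]
  have hlY : parY v (Fin.last n) = v (Fin.last n).castSucc := by
    unfold parY
    rw [Fin.val_last, Nat.add_sub_cancel_left, Nat.cast_one, one_mul]
  have hc1 : (pol v).coeff (n + 1) = v (Fin.last (n + 1)) := by
    have := coeff_pol v (Fin.last (n + 1))
    rwa [Fin.val_last] at this
  have hc2 : (pol v).coeff n = v (Fin.last n).castSucc := by
    have := coeff_pol v (Fin.last n).castSucc
    rwa [Fin.val_castSucc, Fin.val_last] at this
  constructor
  · intro h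
    by_cases hd : (pol v).natDegree < n
    · refine ⟨1, 0, Or.inl one_ne_zero, ?_, ?_⟩
      · rw [hm_inf, hlX, ← hc1, coeff_eq_zero_of_natDegree_lt (by omega), mul_zero, zero_mul]
      · rw [hm_inf, hlY, ← hc2, coeff_eq_zero_of_natDegree_lt hd, zero_mul]
    · have hnsq : ¬ Squarefree (pol v) := by
        intro hsq
        rw [bdisc_eq] at h
        obtain ⟨r, hr, -, hcoef⟩ := exists_roots (L := ℂ) (pol v)
          (PerfectField.separable_iff_squarefree.2 hsq) (IsAlgClosed.splits _)
        have hRD : RD (pol v) n (Fin (pol v).natDegree) r := by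
          refine ⟨hr, ?_, hF, ?_⟩
          · ext j
            rw [coeff_map, hcoef j]
            unfold pr
            rw [coeff_C_mul]
          · rw [Fintype.card_fin]
            omega
        have h1 : dsf n ((pol v).map (algebraMap ℂ ℂ)) ≠ 0 := by
          rw [hRD.eq]
          exact dsf_ne hRD.lead hRD.inj hRD.card
        apply h1
        rw [map_dsf, h, map_zero]
      obtain ⟨s, h1, h2⟩ := sq_root hF hnsq
      refine ⟨s, 1, Or.inr one_ne_zero, ?_, ?_⟩
      · rw [hm_dehom _ _ one_ne_zero, div_one, pol_parX, h2, mul_zero]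
      · rw [hm_dehom _ _ one_ne_zero, div_one, pol_parY, eval_sub, eval_mul, eval_mul, h1, h2]
        ring
  · rintro ⟨σ, τ, h0, h1, h2⟩
    by_contra hne
    rw [bdisc_eq] at hne
    obtain ⟨hsq, hnd⟩ := sqf_of_dsf hF hdeg hne
    by_cases hτ : τ = 0
    · subst hτ
      have hσ : σ ≠ 0 := by
        rcases h0 with h0 | h0
        · exact h0
        · exact absurd rfl h0
      rw [hm_inf, hlX] at h1
      rw [hm_inf, hlY] at h2
      have h3 : v (Fin.last (n + 1)) = 0 := by
        have := (mul_eq_zero.1 h1).resolve_right (pow_ne_zero _ hσ)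
        refine (mul_eq_zero.1 this).resolve_left ?_
        exact_mod_cast Nat.succ_ne_zero n
      have h4 : v (Fin.last n).castSucc = 0 :=
        (mul_eq_zero.1 h2).resolve_right (pow_ne_zero _ hσ)
      have h5 : (pol v).natDegree ≤ n - 1 := by
        rw [natDegree_le_iff_coeff_eq_zero]
        intro N hN
        rcases lt_trichotomy N (n + 1) with h6 | h6 | h6
        · have : N = n := by omega
          rw [this, hc2, h4]
        · rw [h6, hc1, h3]
        · exact coeff_eq_zero_of_natDegree_lt (by omega)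
      omega
    · rw [hm_dehom _ _ hτ, pol_parX] at h1
      rw [hm_dehom _ _ hτ, pol_parY, eval_sub, eval_mul, eval_mul] at h2
      have h3 := (mul_eq_zero.1 h1).resolve_left (pow_ne_zero _ hτ)
      have h4 := (mul_eq_zero.1 h2).resolve_left (pow_ne_zero _ hτ)
      rw [h3, mul_zero, sub_zero, eval_C] at h4
      have h5 : (pol v).eval (σ / τ) = 0 := by
        refine (mul_eq_zero.1 h4).resolve_left ?_
        exact_mod_cast Nat.succ_ne_zero n
      exact not_sqf_of_root h5 h3 hsq

theorem root_of_hm {n : ℕ} {v : Fin (n + 2) → ℂ} {σ τ : ℂ} (hτ : τ ≠ 0)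
    (h1 : hm (parX v) σ τ = 0) (h2 : hm (parY v) σ τ = 0) : (pol v).eval (σ / τ) = 0 := by
  rw [hm_dehom _ _ hτ, pol_parX] at h1
  rw [hm_dehom _ _ hτ, pol_parY, eval_sub, eval_mul, eval_mul] at h2
  have h3 := (mul_eq_zero.1 h1).resolve_left (pow_ne_zero _ hτ)
  have h4 := (mul_eq_zero.1 h2).resolve_left (pow_ne_zero _ hτ)
  rw [h3, mul_zero, sub_zero, eval_C] at h4
  refine (mul_eq_zero.1 h4).resolve_left ?_
  exact_mod_cast Nat.succ_ne_zero n

/-- the common factor of polynomials -/
theorem prim_pol {k : ℕ} {Q : Fin k → ℂ[X]} (hQ : Q ≠ 0) : ∃ (g : ℂ[X]) (Y : Fin k → ℂ[X]), g ≠ 0 ∧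
    (∀ j, Q j = g * Y j) ∧ ∀ z, ∃ j, (Y j).eval z ≠ 0 := by
  obtain ⟨j0, hj0⟩ := Function.ne_iff.1 hQ
  have hj0' : Q j0 ≠ 0 := hj0
  clear hj0 hQ
  induction hd : (Q j0).natDegree using Nat.strong_induction_on generalizing Q with
  | _ d ih =>
    by_cases h : ∀ z, ∃ j, (Q j).eval z ≠ 0
    · exact ⟨1, Q, one_ne_zero, fun j => (one_mul _).symm, h⟩
    · push Not at h
      obtain ⟨z, hz⟩ := h
      have h1 : ∀ j, ∃ Y, Q j = (X - C z) * Y := fun j => dvd_iff_isRoot.2 (hz j)
      choose Q' hQ' using h1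
      have h2 : Q' j0 ≠ 0 := by
        intro h3
        apply hj0'
        rw [hQ', h3, mul_zero]
      have h3 : (Q j0).natDegree = 1 + (Q' j0).natDegree := by
        rw [hQ' j0, natDegree_mul (X_sub_C_ne_zero _) h2, natDegree_X_sub_C]
      obtain ⟨g, Y, hg, hY, hY2⟩ := ih (Q' j0).natDegree (by omega) h2 rfl
      refine ⟨(X - C z) * g, Y, mul_ne_zero (X_sub_C_ne_zero _) hg, fun j => ?_, hY2⟩
      rw [hQ', hY, mul_assoc]


variable {m n q : ℕ} {A : Fin (n + 2) → Fin (m + 1) → ℂ} {a : Fin q → ℂ} {c : Fin q → ℕ} {cD : ℕ}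

/-- Points of linear spaces in the branch divisor. -/
theorem line_curve (W : Submodule ℂ (Fin (m + 1) → ℂ)) (hW : 2 ≤ Module.finrank ℂ W)
    (hbr : ∀ w ∈ W, brn A a c cD w = 0) (hdg : 0 < dg n c cD) {p : Fin (m + 1) → ℂ} (hp : p ∈ W)
    (hp0 : p ≠ 0) : ∃ x, EntHyp A a c cD x (fun _ => 0) ∧ x 0 = p := by
  obtain ⟨w, hw, hwp⟩ : ∃ w ∈ W, ∀ t : ℂ, w ≠ t • p := by
    by_contra hcon
    push Not at hcon
    have h1 : W ≤ Submodule.span ℂ {p} := by
      intro w hw
      obtain ⟨t, ht⟩ := hcon w hw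
      rw [Submodule.mem_span_singleton]
      exact ⟨t, ht.symm⟩
    have h2 := Submodule.finrank_mono h1
    have h3 := finrank_span_singleton (K := ℂ) hp0
    omega
  refine ⟨fun z => p + z • w, ⟨fun j => ?_, differentiable_const _, fun z => ⟨Or.inl ?_, ?_⟩, ?_⟩,
    by simp⟩
  · simp only [Pi.add_apply, Pi.smul_apply, smul_eq_mul]
    exact (differentiable_const _).add (differentiable_id.mul_const _)
  · intro h0
    by_cases hz : z = 0
    · rw [hz, zero_smul, add_zero] at h0
      exact hp0 h0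
    · apply hwp (-z⁻¹)
      have h1 : z • w = -p := eq_neg_of_add_eq_zero_right h0
      rw [neg_smul, ← smul_neg, ← h1, smul_smul, inv_mul_cancel₀ hz, one_smul]
  · rw [zero_pow hdg.ne', hbr _ (W.add_mem hp (W.smul_mem _ hw))]
  · refine ⟨0, 1, fun t => ?_⟩
    rintro ⟨h1, -⟩
    simp only [one_smul, zero_smul, add_zero] at h1
    apply hwp (t - 1)
    rw [sub_smul, one_smul, ← h1]
    abel

theorem brn_of_lf {w : Fin (m + 1) → ℂ} {i : Fin q}
    (h : lf (fun l : Fin (n + 2) => a i ^ (l : ℕ)) (cf A w) = 0) (hc : ∀ i, 1 ≤ c i) :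
    brn A a c cD w = 0 := by
  unfold brn
  rw [Finset.prod_eq_zero (Finset.mem_univ i) (by rw [h, zero_pow (by have := hc i; omega)]),
    mul_zero]

theorem brn_of_disc {w : Fin (m + 1) → ℂ} (h : bdisc (cf A w) = 0) (hcD : 1 ≤ cD) :
    brn A a c cD w = 0 := by
  unfold brn
  rw [h, zero_pow (by omega), zero_mul]

/-- the partial derivatives, as functions of the parameters -/
theorem hm_parX (x : Fin (m + 1) → ℂ) (σ τ : ℂ) :
    hm (parX (cf A x)) σ τ = ∑ j, x j * hm (parX fun l => A l j) σ τ := by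
  rw [← hm_sum]
  congr 1
  funext l
  unfold parX cf
  rw [Finset.mul_sum]
  refine Finset.sum_congr rfl fun j _ => ?_
  rw [Algebra.algebraMap_self, RingHom.id_apply]
  ring

theorem hm_parY (x : Fin (m + 1) → ℂ) (σ τ : ℂ) :
    hm (parY (cf A x)) σ τ = ∑ j, x j * hm (parY fun l => A l j) σ τ := by
  rw [← hm_sum]
  congr 1
  funext l
  unfold parY cf
  rw [Finset.mul_sum]
  refine Finset.sum_congr rfl fun j _ => ?_
  rw [Algebra.algebraMap_self, RingHom.id_apply]
  ring

/-- a linear map -/
noncomputable def lin2 {k : ℕ} (E1 E2 : Fin k → ℂ) : (Fin k → ℂ) →ₗ[ℂ] (Fin 2 → ℂ) where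
  toFun w := ![∑ j, w j * E1 j, ∑ j, w j * E2 j]
  map_add' w w' := by
    funext i
    fin_cases i <;> simp [add_mul, Finset.sum_add_distrib]
  map_smul' t w := by
    funext i
    fin_cases i <;> simp [mul_assoc, Finset.mul_sum]

theorem lin2_zero {k : ℕ} {E1 E2 w : Fin k → ℂ} : w ∈ LinearMap.ker (lin2 E1 E2) ↔
    ∑ j, w j * E1 j = 0 ∧ ∑ j, w j * E2 j = 0 := by
  rw [LinearMap.mem_ker]
  constructor
  · intro h
    exact ⟨congrFun h 0, congrFun h 1⟩
  · rintro ⟨h1, h2⟩
    funext i
    fin_cases i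
    · exact h1
    · exact h2

theorem hm_map {R S : Type} [CommRing R] [CommRing S] (φ : R →+* S) {n : ℕ} (v : Fin (n + 1) → R)
    (σ τ : R) : φ (hm v σ τ) = hm (fun l => φ (v l)) (φ σ) (φ τ) := by
  unfold hm
  rw [map_sum]
  exact Finset.sum_congr rfl fun l _ => by rw [map_mul, map_mul, map_pow, map_pow]

/-- **The exceptional set is covered by entire curves.** -/
theorem hyp_exact (hm2 : 2 ≤ m) (hn : 1 ≤ n)
    (hA : ∀ x : Fin (m + 1) → ℂ, cf A x = 0 → x = 0) (hq : 0 < q)
    (hc : ∀ i, 1 ≤ c i) (hcD : 1 ≤ cD) {p : Fin (m + 1) → ℂ} (hp : OnHyp A a c cD p 0) :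
    ∃ x, EntHyp A a c cD x (fun _ => 0) ∧ x 0 = p := by
  have hdg : 0 < dg n c cD := dg_pos hq hc
  have hp0 : p ≠ 0 := hp.ne hq hc
  have hbp : brn A a c cD p = 0 := by
    rw [← hp.2, zero_pow hdg.ne']
  have hfr : Module.finrank ℂ (Fin (m + 1) → ℂ) = m + 1 := by
    rw [Module.finrank_fintype_fun_eq_card, Fintype.card_fin]
  by_cases hlf : ∃ i, lf (fun l : Fin (n + 2) => a i ^ (l : ℕ)) (cf A p) = 0
  · -- a hyperplane
    obtain ⟨i, hi⟩ := hlf
    let f : (Fin (m + 1) → ℂ) →ₗ[ℂ] ℂ :=
      { toFun := fun w => lf (fun l : Fin (n + 2) => a i ^ (l : ℕ)) (cf A w)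
        map_add' := fun w w' => by
          unfold lf cf
          simp only [Pi.add_apply, mul_add, Finset.sum_add_distrib]
        map_smul' := fun t w => by
          rw [cf_smul, lf_smul', RingHom.id_apply, smul_eq_mul] }
    refine line_curve (LinearMap.ker f) ?_ (fun w hw => brn_of_lf (i := i) hw hc) hdg hi hp0
    have h1 := LinearMap.finrank_range_add_finrank_ker f
    have h2 : Module.finrank ℂ (LinearMap.range f) ≤ 1 := by
      have := Submodule.finrank_le (LinearMap.range f)
      rwa [Module.finrank_self] at this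
    omega
  · -- the discriminant
    have hdisc : bdisc (cf A p) = 0 := by
      by_contra hne
      push Not at hlf
      unfold brn at hbp
      rcases mul_eq_zero.1 hbp with h | h
      · exact pow_ne_zero _ hne h
      · obtain ⟨i, -, h1⟩ := Finset.prod_eq_zero_iff.1 h
        exact pow_ne_zero _ (hlf i) h1
    have hcf0 : ∀ w : Fin (m + 1) → ℂ, w ≠ 0 → cf A w ≠ 0 := fun w hw h => hw (hA w h)
    obtain ⟨σ0, τ0, hst, hX0, hY0⟩ := (bdisc_iff hn (hcf0 p hp0)).1 hdisc
    have hker : ∀ (σ τ : ℂ), (σ ≠ 0 ∨ τ ≠ 0) → ∀ w : Fin (m + 1) → ℂ,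
        w ∈ LinearMap.ker (lin2 (fun j => hm (parX fun l => A l j) σ τ)
          (fun j => hm (parY fun l => A l j) σ τ)) → brn A a c cD w = 0 := by
      intro σ τ h w hw
      rw [lin2_zero, ← hm_parX, ← hm_parY] at hw
      by_cases hw0 : w = 0
      · rw [hw0]
        exact brn_zero hq hc
      · exact brn_of_disc ((bdisc_iff hn (hcf0 w hw0)).2 ⟨σ, τ, h, hw.1, hw.2⟩) hcD
    set f := lin2 (fun j => hm (parX fun l => A l j) σ0 τ0)
      (fun j => hm (parY fun l => A l j) σ0 τ0) with hf
    have hpk : p ∈ LinearMap.ker f := by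
      rw [hf, lin2_zero, ← hm_parX, ← hm_parY]
      exact ⟨hX0, hY0⟩
    by_cases hfin : 2 ≤ Module.finrank ℂ (LinearMap.ker f)
    · exact line_curve (LinearMap.ker f) hfin (fun w hw => hker σ0 τ0 hst w hw) hdg hpk hp0
    · -- the rational curve
      have h1 := LinearMap.finrank_range_add_finrank_ker f
      have h2 : Module.finrank ℂ (LinearMap.range f) ≤ 2 := by
        have := Submodule.finrank_le (LinearMap.range f)
        rwa [Module.finrank_fintype_fun_eq_card, Fintype.card_fin] at this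
      obtain rfl : m = 2 := by omega
      have hspan : ∀ w ∈ LinearMap.ker f, ∃ t : ℂ, w = t • p := by
        intro w hw
        have h3 : Submodule.span ℂ {p} = LinearMap.ker f := by
          apply Submodule.eq_of_le_of_finrank_le
          · rw [Submodule.span_singleton_le_iff_mem]
            exact hpk
          · rw [finrank_span_singleton (K := ℂ) hp0]
            omega
        rw [← h3, Submodule.mem_span_singleton] at hw
        obtain ⟨t, ht⟩ := hw
        exact ⟨t, ht.symm⟩
      obtain ⟨α, β, hΔ⟩ : ∃ α β : ℂ, β * σ0 - α * τ0 ≠ 0 := by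
        rcases hst with h | h
        · exact ⟨0, 1, by simpa using h⟩
        · exact ⟨1, 0, by simpa using h⟩
      have hst' : ∀ z : ℂ, σ0 + α * z ≠ 0 ∨ τ0 + β * z ≠ 0 := by
        intro z
        by_contra hcon
        push Not at hcon
        apply hΔ
        linear_combination β * hcon.1 - α * hcon.2
      let P1 : Fin 3 → ℂ[X] := fun j =>
        hm (fun l => C (parX (fun l => A l j) l)) (C σ0 + C α * X) (C τ0 + C β * X)
      let P2 : Fin 3 → ℂ[X] := fun j =>
        hm (fun l => C (parY (fun l => A l j) l)) (C σ0 + C α * X) (C τ0 + C β * X)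
      have hP1 : ∀ j z, (P1 j).eval z = hm (parX fun l => A l j) (σ0 + α * z) (τ0 + β * z) := by
        intro j z
        have := hm_map (evalRingHom z) (fun l => C (parX (fun l => A l j) l)) (C σ0 + C α * X)
          (C τ0 + C β * X)
        simp only [coe_evalRingHom, eval_add, eval_C, eval_mul, eval_X] at this
        exact this
      have hP2 : ∀ j z, (P2 j).eval z = hm (parY fun l => A l j) (σ0 + α * z) (τ0 + β * z) := by
        intro j z
        have := hm_map (evalRingHom z) (fun l => C (parY (fun l => A l j) l)) (C σ0 + C α * X)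
          (C τ0 + C β * X)
        simp only [coe_evalRingHom, eval_add, eval_C, eval_mul, eval_X] at this
        exact this
      let Q : Fin 3 → ℂ[X] := ![P1 1 * P2 2 - P1 2 * P2 1, P1 2 * P2 0 - P1 0 * P2 2,
        P1 0 * P2 1 - P1 1 * P2 0]
      have hQ1 : ∑ j, Q j * P1 j = 0 := by
        rw [Fin.sum_univ_three]
        change (P1 1 * P2 2 - P1 2 * P2 1) * P1 0 + (P1 2 * P2 0 - P1 0 * P2 2) * P1 1 +
          (P1 0 * P2 1 - P1 1 * P2 0) * P1 2 = 0
        ring
      have hQ2 : ∑ j, Q j * P2 j = 0 := by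
        rw [Fin.sum_univ_three]
        change (P1 1 * P2 2 - P1 2 * P2 1) * P2 0 + (P1 2 * P2 0 - P1 0 * P2 2) * P2 1 +
          (P1 0 * P2 1 - P1 1 * P2 0) * P2 2 = 0
        ring
      -- the value at zero
      have hQ0 : (fun j => (Q j).eval 0) ≠ 0 := by
        intro h0
        have h3 : ∀ i : Fin 3, (Q i).eval 0 = 0 := fun i => congrFun h0 i
        set E1 : Fin 3 → ℂ := fun j => hm (parX fun l => A l j) σ0 τ0 with hE1
        set E2 : Fin 3 → ℂ := fun j => hm (parY fun l => A l j) σ0 τ0 with hE2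
        have e1 : ∀ j, (P1 j).eval 0 = E1 j := fun j => by rw [hP1, mul_zero, mul_zero, add_zero,
          add_zero]
        have e2 : ∀ j, (P2 j).eval 0 = E2 j := fun j => by rw [hP2, mul_zero, mul_zero, add_zero,
          add_zero]
        have q0 : E1 1 * E2 2 - E1 2 * E2 1 = 0 := by
          have := h3 0
          change (P1 1 * P2 2 - P1 2 * P2 1).eval 0 = 0 at this
          rwa [eval_sub, eval_mul, eval_mul, e1, e1, e2, e2] at this
        have q1 : E1 2 * E2 0 - E1 0 * E2 2 = 0 := by
          have := h3 1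
          change (P1 2 * P2 0 - P1 0 * P2 2).eval 0 = 0 at this
          rwa [eval_sub, eval_mul, eval_mul, e1, e1, e2, e2] at this
        have q2 : E1 0 * E2 1 - E1 1 * E2 0 = 0 := by
          have := h3 2
          change (P1 0 * P2 1 - P1 1 * P2 0).eval 0 = 0 at this
          rwa [eval_sub, eval_mul, eval_mul, e1, e1, e2, e2] at this
        have hrange : LinearMap.range f = ⊤ := by
          apply Submodule.eq_top_of_finrank_eq
          rw [Module.finrank_fintype_fun_eq_card, Fintype.card_fin]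
          omega
        obtain ⟨w1, hw1⟩ := LinearMap.range_eq_top.1 hrange ![1, 0]
        obtain ⟨w2, hw2⟩ := LinearMap.range_eq_top.1 hrange ![0, 1]
        have a1 : ∑ j, w1 j * E1 j = 1 := congrFun hw1 0
        have a2 : ∑ j, w1 j * E2 j = 0 := congrFun hw1 1
        have b1 : ∑ j, w2 j * E1 j = 0 := congrFun hw2 0
        have b2 : ∑ j, w2 j * E2 j = 1 := congrFun hw2 1
        rw [Fin.sum_univ_three] at a1 a2 b1 b2
        have h4 : (1 : ℂ) = 0 := by
          calc (1 : ℂ) = (w1 0 * E1 0 + w1 1 * E1 1 + w1 2 * E1 2) *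
                (w2 0 * E2 0 + w2 1 * E2 1 + w2 2 * E2 2) -
                (w1 0 * E2 0 + w1 1 * E2 1 + w1 2 * E2 2) *
                (w2 0 * E1 0 + w2 1 * E1 1 + w2 2 * E1 2) := by rw [a1, a2, b1, b2]; ring
            _ = (w1 1 * w2 2 - w1 2 * w2 1) * (E1 1 * E2 2 - E1 2 * E2 1) +
                (w1 2 * w2 0 - w1 0 * w2 2) * (E1 2 * E2 0 - E1 0 * E2 2) +
                (w1 0 * w2 1 - w1 1 * w2 0) * (E1 0 * E2 1 - E1 1 * E2 0) := by ring
            _ = 0 := by rw [q0, q1, q2]; ring
        exact one_ne_zero h4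
      have hQne : Q ≠ 0 := by
        rintro h0
        apply hQ0
        rw [h0]
        funext j
        simp
      obtain ⟨g, Y, hg, hQY, hY⟩ := prim_pol hQne
      have hY1 : ∑ j, Y j * P1 j = 0 := by
        have h3 : g * ∑ j, Y j * P1 j = 0 := by
          rw [Finset.mul_sum, ← hQ1]
          exact Finset.sum_congr rfl fun j _ => by rw [hQY, mul_assoc]
        exact (mul_eq_zero.1 h3).resolve_left hg
      have hY2 : ∑ j, Y j * P2 j = 0 := by
        have h3 : g * ∑ j, Y j * P2 j = 0 := by
          rw [Finset.mul_sum, ← hQ2]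
          exact Finset.sum_congr rfl fun j _ => by rw [hQY, mul_assoc]
        exact (mul_eq_zero.1 h3).resolve_left hg
      have hYk : ∀ z, (fun j => (Y j).eval z) ∈
          LinearMap.ker (lin2 (fun j => hm (parX fun l => A l j) (σ0 + α * z) (τ0 + β * z))
            (fun j => hm (parY fun l => A l j) (σ0 + α * z) (τ0 + β * z))) := by
        intro z
        rw [lin2_zero]
        constructor
        · have := congrArg (eval z) hY1
          rw [eval_finsetSum, eval_zero] at this
          simp only [eval_mul, hP1] at this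
          exact this
        · have := congrArg (eval z) hY2
          rw [eval_finsetSum, eval_zero] at this
          simp only [eval_mul, hP2] at this
          exact this
      have hY0 : (fun j => (Y j).eval 0) ∈ LinearMap.ker f := by
        have := hYk 0
        rw [mul_zero, mul_zero, add_zero, add_zero] at this
        exact this
      obtain ⟨t, ht⟩ := hspan _ hY0
      have ht0 : t ≠ 0 := by
        rintro rfl
        rw [zero_smul] at ht
        obtain ⟨j, hj⟩ := hY 0
        exact hj (congrFun ht j)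
      have hx0 : ∀ z, (fun j => t⁻¹ * (Y j).eval z) ≠ 0 := by
        intro z h0
        obtain ⟨j, hj⟩ := hY z
        have := congrFun h0 j
        exact mul_ne_zero (inv_ne_zero ht0) hj this
      have hxk : ∀ z, (fun j => t⁻¹ * (Y j).eval z) ∈
          LinearMap.ker (lin2 (fun j => hm (parX fun l => A l j) (σ0 + α * z) (τ0 + β * z))
            (fun j => hm (parY fun l => A l j) (σ0 + α * z) (τ0 + β * z))) := fun z =>
        Submodule.smul_mem _ t⁻¹ (hYk z)
      refine ⟨fun z j => t⁻¹ * (Y j).eval z, ⟨fun j => ?_, differentiable_const _, fun z => ?_, ?_⟩,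
        ?_⟩
      · exact (Y j).differentiable.const_mul _
      · refine ⟨Or.inl (hx0 z), ?_⟩
        rw [zero_pow hdg.ne', hker _ _ (hst' z) _ (hxk z)]
      · by_contra hcon
        push Not at hcon
        -- the curve is constant
        have h3 : ∀ z, p ∈
            LinearMap.ker (lin2 (fun j => hm (parX fun l => A l j) (σ0 + α * z) (τ0 + β * z))
              (fun j => hm (parY fun l => A l j) (σ0 + α * z) (τ0 + β * z))) := by
          intro z
          obtain ⟨s, hs, -⟩ := hcon z 0
          have h4 : p = s • fun j => t⁻¹ * (Y j).eval z := by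
            rw [← hs]
            funext j
            have h5 : (Y j).eval 0 = t * p j := congrFun ht j
            change p j = t⁻¹ * (Y j).eval 0
            rw [h5, inv_mul_cancel_left₀ ht0]
          rw [h4]
          exact Submodule.smul_mem _ s (hxk z)
        have hT : (C τ0 + C β * X : ℂ[X]) ≠ 0 := by
          intro h0
          have e1 := congrArg (eval 0) h0
          have e2 := congrArg (eval 1) h0
          simp only [eval_add, eval_C, eval_mul, eval_X, mul_zero, add_zero, eval_zero,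
            mul_one] at e1 e2
          rw [e1, zero_add] at e2
          apply hΔ
          rw [e1, e2]
          ring
        have hinf : ({z : ℂ | (C τ0 + C β * X : ℂ[X]).IsRoot z}ᶜ).Infinite :=
          (finite_setOfPred_isRoot hT).infinite_compl
        have hinj : Set.InjOn (fun z : ℂ => (σ0 + α * z) / (τ0 + β * z))
            {z : ℂ | (C τ0 + C β * X : ℂ[X]).IsRoot z}ᶜ := by
          intro z hz z' hz' heq
          have e1 : τ0 + β * z ≠ 0 := by
            intro h0
            exact hz (by simpa [IsRoot.def] using h0)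
          have e2 : τ0 + β * z' ≠ 0 := by
            intro h0
            exact hz' (by simpa [IsRoot.def] using h0)
          have e3 : (σ0 + α * z) * (τ0 + β * z') = (σ0 + α * z') * (τ0 + β * z) :=
            (div_eq_div_iff e1 e2).1 heq
          have e4 : (β * σ0 - α * τ0) * (z' - z) = 0 := by linear_combination e3
          have e5 := (mul_eq_zero.1 e4).resolve_left hΔ
          exact (sub_eq_zero.1 e5).symm
        refine (hinf.image hinj) ((finite_setOfPred_isRoot (pol_ne (hcf0 p hp0))).subset ?_)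
        rintro _ ⟨z, hz, rfl⟩
        have e1 : τ0 + β * z ≠ 0 := by
          intro h0
          exact hz (by simpa [IsRoot.def] using h0)
        have h4 := h3 z
        rw [lin2_zero, ← hm_parX, ← hm_parY] at h4
        exact root_of_hm e1 h4.1 h4.2
      · funext j
        have h5 : (Y j).eval 0 = t * p j := congrFun ht j
        change t⁻¹ * (Y j).eval 0 = p j
        rw [h5, inv_mul_cancel_left₀ ht0]

end Pool.Agent.H910.Dsc
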