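import Pool.Graph.R_pool_sql_team_668148b0.Helper80.Width.Landau

/-!
Landau's theorem for functions which omit several values.
-/

set_option autoImplicit false

open Metric Set

namespace Pool.Agent.H910.Dsc

open Pool.Agent.Helper80.Width

/-- Landau's theorem. -/
theorem landau1 : ∃ C : ℝ, 1 ≤ C ∧ ∀ (f : ℂ → ℂ) (z : ℂ) (ε : ℝ), 0 < ε →
    DifferentiableOn ℂ f (ball z ε) → (∀ w ∈ ball z ε, f w ≠ 0) → (∀ w ∈ ball z ε, f w ≠ -1) →
    ε * ‖deriv f z‖ ≤ C * ‖f z‖ * (1 + |Real.log ‖f z‖|) := by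
  obtain ⟨C, hC, h⟩ := log_deriv_bound
  refine ⟨C, hC, ?_⟩
  intro f z ε hε hf h0 h1
  have hmap : ∀ w ∈ ball (0 : ℂ) 1, z + ε * w ∈ ball z ε := by
    intro w hw
    rw [mem_ball_zero_iff] at hw
    rw [mem_ball, dist_eq_norm, add_sub_cancel_left, norm_mul, Complex.norm_real,
      Real.norm_eq_abs, abs_of_pos hε]
    nlinarith
  have hg : DifferentiableOn ℂ (fun w => f (z + ε * w)) (ball 0 1) :=
    hf.comp (by fun_prop) hmap
  obtain ⟨L, hL, hLe⟩ := exists_log hg fun w hw => h0 _ (hmap w hw)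
  obtain ⟨h2, -⟩ := h (fun w => f (z + ε * w)) L hL hLe fun w hw => h1 _ (hmap w hw)
  have h00 : (0 : ℂ) ∈ ball (0 : ℂ) 1 := mem_ball_self one_pos
  simp only [mul_zero, add_zero] at h2
  have hLd : HasDerivAt L (deriv L 0) 0 :=
    (hL.differentiableAt (isOpen_ball.mem_nhds h00)).hasDerivAt
  have hz : z ∈ ball z ε := mem_ball_self hε
  have hfd : HasDerivAt f (deriv f z) z :=
    (hf.differentiableAt (isOpen_ball.mem_nhds hz)).hasDerivAt
  have e1 : HasDerivAt (fun w => f (z + ε * w)) (deriv f z * ε) 0 := by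
    have h3 : HasDerivAt (fun w : ℂ => z + ε * w) (ε : ℂ) 0 := by
      simpa using ((hasDerivAt_id (0 : ℂ)).const_mul (ε : ℂ)).const_add z
    have h4 : HasDerivAt f (deriv f z) (z + ε * 0) := by simpa using hfd
    exact h4.comp 0 h3
  have e2 : HasDerivAt (fun w => Complex.exp (L w)) (Complex.exp (L 0) * deriv L 0) 0 :=
    hLd.cexp
  have e3 : (fun w => Complex.exp (L w)) =ᶠ[nhds 0] fun w => f (z + ε * w) := by
    filter_upwards [isOpen_ball.mem_nhds h00] with w hw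
    exact hLe w hw
  have e4 := (e2.congr_of_eventuallyEq e3.symm).unique e1
  have e5 : Complex.exp (L 0) = f z := by
    have := hLe 0 h00
    simpa using this
  rw [e5] at e4
  have e6 : ε * ‖deriv f z‖ = ‖f z‖ * ‖deriv L 0‖ := by
    rw [← norm_mul, e4, norm_mul, Complex.norm_real, Real.norm_eq_abs, abs_of_pos hε]
    ring
  rw [e6]
  calc ‖f z‖ * ‖deriv L 0‖ ≤ ‖f z‖ * (C * (1 + |Real.log ‖f z‖|)) :=
        mul_le_mul_of_nonneg_left h2 (norm_nonneg _)
    _ = _ := by ring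

theorem log_pow_bound (N : ℕ) {y : ℝ} (hy : 0 < y) :
    y * (1 + |Real.log y|) ^ N ≤ N.factorial * Real.exp 1 * (1 + y) ^ 2 := by
  have h1 : (1 + |Real.log y|) ^ N ≤ N.factorial * Real.exp (1 + |Real.log y|) := by
    have := Real.pow_div_factorial_le_exp (1 + |Real.log y|) (by positivity) N
    rw [div_le_iff₀ (by positivity)] at this
    linarith
  have h2 : y * Real.exp |Real.log y| ≤ (1 + y) ^ 2 := by
    rcases le_total 0 (Real.log y) with h | h
    · rw [abs_of_nonneg h, Real.exp_log hy]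
      nlinarith
    · rw [abs_of_nonpos h, Real.exp_neg, Real.exp_log hy, mul_inv_cancel₀ hy.ne']
      nlinarith
  calc y * (1 + |Real.log y|) ^ N ≤ y * (N.factorial * Real.exp (1 + |Real.log y|)) :=
        mul_le_mul_of_nonneg_left h1 hy.le
    _ = N.factorial * Real.exp 1 * (y * Real.exp |Real.log y|) := by
        rw [Real.exp_add]; ring
    _ ≤ _ := mul_le_mul_of_nonneg_left h2 (by positivity)

/-- Landau's theorem for several omitted values. -/
theorem landau2 {q m k : ℕ} (hq : 2 ≤ q) (hk : k + 2 * (m + 1) = q * m) (a : Fin q → ℂ)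
    (ha : Function.Injective a) : ∃ C : ℝ, 1 ≤ C ∧ ∀ (ρ : ℂ → ℂ) (z : ℂ) (ε : ℝ), 0 < ε →
    DifferentiableOn ℂ ρ (ball z ε) → (∀ i, ∀ w ∈ ball z ε, ρ w ≠ a i) →
    (ε * ‖deriv ρ z‖) ^ (m + 1) * (1 + ‖ρ z‖) ^ k ≤ C * ∏ i, ‖ρ z - a i‖ ^ m := by
  classical
  obtain ⟨C0, hC0, h⟩ := landau1
  obtain ⟨q, rfl⟩ : ∃ q', q = q' + 1 := ⟨q - 1, by omega⟩
  set A : ℝ := ∑ i, ‖a i‖ with hA
  have hA0 : 0 ≤ A := Finset.sum_nonneg fun _ _ => norm_nonneg _
  have hAi : ∀ i, ‖a i‖ ≤ A := fun i =>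
    Finset.single_le_sum (f := fun i => ‖a i‖) (fun _ _ => norm_nonneg _) (Finset.mem_univ i)
  obtain ⟨δ, hδ0, hδ⟩ : ∃ δ : ℝ, 0 < δ ∧ ∀ i j, i ≠ j → δ ≤ ‖a i - a j‖ := by
    obtain ⟨x, hx⟩ := Finset.exists_min_image
      (Finset.univ : Finset (Fin (q + 1) × Fin (q + 1)))
      (fun x => if x.1 = x.2 then (1 : ℝ) else ‖a x.1 - a x.2‖) ⟨(0, 0), Finset.mem_univ _⟩
    refine ⟨min 1 (if x.1 = x.2 then (1 : ℝ) else ‖a x.1 - a x.2‖), ?_, fun i j hij => ?_⟩
    · refine lt_min one_pos ?_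
      split_ifs with h
      · exact one_pos
      · exact norm_pos_iff.2 (sub_ne_zero.2 fun h' => h (ha h'))
    · refine (min_le_right _ _).trans ?_
      have := hx.2 (i, j) (Finset.mem_univ _)
      simpa [hij] using this
  set Λ : ℝ := 1 + ∑ x : Fin (q + 1) × Fin (q + 1), |Real.log ‖a x.1 - a x.2‖| with hΛ
  have hΛi : ∀ i j, 1 + |Real.log ‖a i - a j‖| ≤ Λ := by
    intro i j
    have := Finset.single_le_sum (f := fun x : Fin (q + 1) × Fin (q + 1) =>
      |Real.log ‖a x.1 - a x.2‖|) (fun _ _ => abs_nonneg _) (Finset.mem_univ (i, j))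
    rw [hΛ]
    linarith
  have hΛ1 : 1 ≤ Λ := by
    have := hΛi 0 0
    have := abs_nonneg (Real.log ‖a 0 - a 0‖)
    linarith
  set K : ℝ := (1 + A) * (2 / δ) + 1 with hK
  have hK1 : 1 ≤ K := by
    have : 0 ≤ (1 + A) * (2 / δ) := by positivity
    linarith
  set C1 : ℝ := (C0 * Λ) ^ (m + 1) * ((m + 1).factorial * Real.exp 1) with hC1
  have hC11 : 1 ≤ C1 := by
    refine one_le_mul_of_one_le_of_one_le (one_le_pow₀ (one_le_mul_of_one_le_of_one_le hC0 hΛ1))
      (one_le_mul_of_one_le_of_one_le ?_ (Real.one_le_exp (by norm_num)))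
    exact_mod_cast Nat.one_le_iff_ne_zero.2 (Nat.factorial_ne_zero _)
  refine ⟨C1 * (2 + A) ^ 2 * K ^ (q * m), ?_, ?_⟩
  · refine one_le_mul_of_one_le_of_one_le (one_le_mul_of_one_le_of_one_le hC11
      (one_le_pow₀ (by linarith))) (one_le_pow₀ hK1)
  intro ρ z ε hε hρ hom
  have hz : z ∈ ball z ε := mem_ball_self hε
  obtain ⟨i, -, hi⟩ := Finset.exists_min_image (Finset.univ : Finset (Fin (q + 1)))
    (fun i => ‖ρ z - a i‖) ⟨0, Finset.mem_univ _⟩
  obtain ⟨j, hj⟩ : ∃ j : Fin (q + 1), j ≠ i := by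
    have : Nontrivial (Fin (q + 1)) := Fin.nontrivial_iff_two_le.2 hq
    exact exists_ne i
  have hij : a i - a j ≠ 0 := sub_ne_zero.2 fun h' => hj (ha h').symm
  set D : ℝ := ‖a i - a j‖ with hD
  have hD0 : 0 < D := norm_pos_iff.2 hij
  set y : ℝ := ‖ρ z - a i‖ with hy
  have hy0 : 0 < y := norm_pos_iff.2 (sub_ne_zero.2 (hom i z hz))
  set R : ℝ := 1 + ‖ρ z‖ with hR
  have hR1 : 1 ≤ R := by have := norm_nonneg (ρ z); linarith
  have hl := h (fun w => (ρ w - a i) / (a i - a j)) z ε hε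
    ((hρ.sub_const _).div_const _)
    (fun w hw h0 => by
      rw [div_eq_zero_iff] at h0
      rcases h0 with h0 | h0
      · exact hom i w hw (sub_eq_zero.1 h0)
      · exact hij h0)
    (fun w hw h0 => by
      rw [div_eq_iff hij] at h0
      exact hom j w hw (by linear_combination h0))
  have hd : deriv (fun w => (ρ w - a i) / (a i - a j)) z = deriv ρ z / (a i - a j) := by
    rw [deriv_div_const, deriv_sub_const]
  rw [hd, norm_div, norm_div, ← hD, ← hy, Real.log_div hy0.ne' hD0.ne'] at hl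
  have hE : ε * ‖deriv ρ z‖ ≤ C0 * Λ * (y * (1 + |Real.log y|)) := by
    have h1 : |Real.log y - Real.log D| ≤ |Real.log y| + |Real.log D| := abs_sub _ _
    have h2 : 1 + |Real.log y - Real.log D| ≤ Λ * (1 + |Real.log y|) := by
      have h3 := hΛi i j
      rw [← hD] at h3
      have h4 := abs_nonneg (Real.log y)
      have h5 := abs_nonneg (Real.log D)
      nlinarith
    have h6 : ε * ‖deriv ρ z‖ ≤ C0 * y * (1 + |Real.log y - Real.log D|) := by
      have h7 := mul_le_mul_of_nonneg_left hl hD0.le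
      have e1 : D * (ε * (‖deriv ρ z‖ / D)) = ε * ‖deriv ρ z‖ := by field_simp
      have e2 : D * (C0 * (y / D) * (1 + |Real.log y - Real.log D|)) =
          C0 * y * (1 + |Real.log y - Real.log D|) := by field_simp
      rwa [e1, e2] at h7
    calc _ ≤ C0 * y * (1 + |Real.log y - Real.log D|) := h6
      _ ≤ C0 * y * (Λ * (1 + |Real.log y|)) :=
          mul_le_mul_of_nonneg_left h2 (by positivity)
      _ = _ := by ring
  have hyR : 1 + y ≤ (2 + A) * R := by
    have h1 : y ≤ ‖ρ z‖ + ‖a i‖ := norm_sub_le _ _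
    have h2 := hAi i
    have h3 := norm_nonneg (ρ z)
    nlinarith
  have hpow : (ε * ‖deriv ρ z‖) ^ (m + 1) ≤ C1 * y ^ m * ((2 + A) * R) ^ 2 := by
    have h1 := log_pow_bound (m + 1) hy0
    have h0 : 0 ≤ ε * ‖deriv ρ z‖ := by positivity
    calc (ε * ‖deriv ρ z‖) ^ (m + 1) ≤ (C0 * Λ * (y * (1 + |Real.log y|))) ^ (m + 1) :=
          pow_le_pow_left₀ h0 hE _
      _ = (C0 * Λ) ^ (m + 1) * y ^ m * (y * (1 + |Real.log y|) ^ (m + 1)) := by
          rw [mul_pow, mul_pow y, pow_succ y]; ring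
      _ ≤ (C0 * Λ) ^ (m + 1) * y ^ m * ((m + 1).factorial * Real.exp 1 * (1 + y) ^ 2) :=
          mul_le_mul_of_nonneg_left h1 (by positivity)
      _ ≤ (C0 * Λ) ^ (m + 1) * y ^ m * ((m + 1).factorial * Real.exp 1 * ((2 + A) * R) ^ 2) := by
          refine mul_le_mul_of_nonneg_left ?_ (by positivity)
          refine mul_le_mul_of_nonneg_left ?_ (by positivity)
          exact pow_le_pow_left₀ (by linarith) hyR 2
      _ = _ := by rw [hC1]; ring
  have hother : ∀ l, l ≠ i → R ≤ K * ‖ρ z - a l‖ := by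
    intro l hl
    have h1 : ‖a i - a l‖ ≤ y + ‖ρ z - a l‖ := by
      have := norm_sub_le (ρ z - a l) (ρ z - a i)
      have e : ρ z - a l - (ρ z - a i) = a i - a l := by ring
      rw [e] at this
      linarith
    have h2 : y ≤ ‖ρ z - a l‖ := hi l (Finset.mem_univ _)
    have h3 := hδ i l (Ne.symm hl)
    have h4 : δ / 2 ≤ ‖ρ z - a l‖ := by linarith
    have h5 : ‖ρ z‖ ≤ ‖ρ z - a l‖ + ‖a l‖ := by
      have := norm_add_le (ρ z - a l) (a l)
      simpa using this
    have h6 := hAi l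
    have h7 : 1 + A ≤ (1 + A) * (2 / δ) * ‖ρ z - a l‖ := by
      have h8 : 1 ≤ 2 / δ * ‖ρ z - a l‖ := by
        rw [div_mul_eq_mul_div, le_div_iff₀ hδ0]
        linarith
      have h9 : (1 + A) * 1 ≤ (1 + A) * (2 / δ * ‖ρ z - a l‖) :=
        mul_le_mul_of_nonneg_left h8 (by linarith)
      linarith
    rw [hK, add_mul, one_mul]
    linarith
  have hprod : y ^ m * R ^ (q * m) ≤ K ^ (q * m) * ∏ l, ‖ρ z - a l‖ ^ m := by
    rw [← Finset.mul_prod_erase Finset.univ _ (Finset.mem_univ i), ← hy]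
    have hcard : (Finset.univ.erase i : Finset (Fin (q + 1))).card = q := by
      rw [Finset.card_erase_of_mem (Finset.mem_univ i), Finset.card_univ, Fintype.card_fin]
      rfl
    have h1 : R ^ (q * m) ≤ K ^ (q * m) * ∏ l ∈ Finset.univ.erase i, ‖ρ z - a l‖ ^ m := by
      have e1 : R ^ (q * m) = ∏ _l ∈ (Finset.univ.erase i : Finset (Fin (q + 1))), R ^ m := by
        rw [Finset.prod_const, hcard, ← pow_mul, mul_comm]
      have e2 : K ^ (q * m) = ∏ _l ∈ (Finset.univ.erase i : Finset (Fin (q + 1))), K ^ m := by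
        rw [Finset.prod_const, hcard, ← pow_mul, mul_comm]
      rw [e1, e2, ← Finset.prod_mul_distrib]
      refine Finset.prod_le_prod (fun l _ => by positivity) fun l hl => ?_
      rw [← mul_pow]
      exact pow_le_pow_left₀ (by linarith) (hother l (Finset.ne_of_mem_erase hl)) m
    calc y ^ m * R ^ (q * m) ≤ y ^ m * (K ^ (q * m) *
          ∏ l ∈ Finset.univ.erase i, ‖ρ z - a l‖ ^ m) :=
          mul_le_mul_of_nonneg_left h1 (by positivity)
      _ = _ := by ring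
  have hexp : k + 2 ≤ q * m := by
    have : (q + 1) * m = q * m + m := by ring
    omega
  calc (ε * ‖deriv ρ z‖) ^ (m + 1) * R ^ k ≤ (C1 * y ^ m * ((2 + A) * R) ^ 2) * R ^ k :=
        mul_le_mul_of_nonneg_right hpow (by positivity)
    _ = C1 * (2 + A) ^ 2 * (y ^ m * R ^ (k + 2)) := by rw [mul_pow, pow_add]; ring
    _ ≤ C1 * (2 + A) ^ 2 * (y ^ m * R ^ (q * m)) := by
        refine mul_le_mul_of_nonneg_left ?_ (by positivity)
        exact mul_le_mul_of_nonneg_left (pow_le_pow_right₀ hR1 hexp) (by positivity)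
    _ ≤ C1 * (2 + A) ^ 2 * (K ^ (q * m) * ∏ l, ‖ρ z - a l‖ ^ m) :=
        mul_le_mul_of_nonneg_left hprod (by positivity)
    _ = _ := by ring

end Pool.Agent.H910.Dsc
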