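import Pool.Graph.R_seed8.Y190.BV.Frm
import Pool.Graph.R_seed8.Y190.BV.Trn

/-!
Logarithmic derivations extend to logarithmic derivations.
-/

set_option autoImplicit false
set_option linter.unusedSectionVars false

open FF Pool.Agent.W603.LV Pool.Agent.W602.GT

namespace Pool.Agent.H910.Dsc

open Pool.Agent.Y190.BV

variable {k K L : Type} [Field k] [Field K] [Field L] [Algebra k K] [Algebra k L] [Algebra K L]
  [IsScalarTower k K L]

theorem ge_over {W : Place k L} {P : Place k K} {e : ℕ} (h : Over W P e) {n : ℤ} {f : K}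
    (hf : Ge W (e * n) (algebraMap K L f)) : Ge P n f := by
  rcases hf with hf | hf
  · exact Or.inl ((map_eq_zero _).1 hf)
  · right
    rw [h.2] at hf
    have : (0 : ℤ) < e := by exact_mod_cast h.1
    exact le_of_mul_le_mul_left hf this

theorem ge_all (W : Place k L) (x : L) : ∃ C : ℕ, Ge W (-C) x := by
  refine ⟨(W.ord x).natAbs, Or.inr ?_⟩
  omega

/-- boundedness on the elements which are integral at all conjugates -/
theorem bounded_B [FiniteDimensional K L] [IsGalois K L] {W : Place k L} {P : Place k K} {e : ℕ}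
    (hWP : Over W P e) {D : Derivation k K K} (hD : DerLog P D) {E : Derivation k L L}
    (hE : ∀ x : K, E (algebraMap K L x) = algebraMap K L (D x)) :
    ∃ C : ℕ, ∀ f : L, (∀ s : L ≃ₐ[K] L, Ge (W.comp (rs (k := k) s)) 0 f) → Ge W (-C) (E f) := by
  classical
  let b := Module.finBasis K L
  let δ := (Algebra.traceForm K L).dualBasis (traceForm_nondegenerate K L) b
  have hb : ∀ i, ∃ C : ℕ, ∀ s : L ≃ₐ[K] L, Ge (W.comp (rs (k := k) s)) (-C) (b i) := by
    intro i
    choose C hC using fun s : L ≃ₐ[K] L => ge_all (W.comp (rs (k := k) s)) (b i)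
    refine ⟨∑ s, C s, fun s => (hC s).mono ?_⟩
    have := Finset.single_le_sum (f := C) (fun _ _ => Nat.zero_le _) (Finset.mem_univ s)
    push_cast
    have h2 : (C s : ℤ) ≤ ∑ s, (C s : ℤ) := by exact_mod_cast this
    omega
  choose Cb hCb using hb
  choose Cδ hCδ using fun i => ge_all W (δ i)
  choose CE hCE using fun i => ge_all W (E (δ i))
  have he : (1 : ℤ) ≤ e := by exact_mod_cast hWP.1
  refine ⟨∑ i, (e * Cb i + Cδ i + CE i), fun f hf => ?_⟩
  have hx : f = ∑ i, algebraMap K L (Algebra.trace K L (f * b i)) * δ i := by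
    have h1 := δ.sum_repr f
    rw [← h1]
    refine Finset.sum_congr rfl fun i _ => ?_
    rw [Algebra.smul_def]
    congr 2
    rw [LinearMap.BilinForm.dualBasis_repr_apply, Algebra.traceForm_apply, h1]
  have htr : ∀ i, Ge P (-Cb i) (Algebra.trace K L (f * b i)) := by
    intro i
    apply ge_over hWP
    rw [trace_eq_sum_automorphisms]
    refine Ge.sum _ _ fun s _ => ?_
    have h1 := (hf s).mul (hCb i s)
    have h2 : Ge (W.comp (rs (k := k) s)) (e * (-Cb i)) (f * b i) := h1.mono (by
      have : (0 : ℤ) ≤ Cb i := Int.natCast_nonneg _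
      nlinarith)
    rcases h2 with h2 | h2
    · rw [h2, map_zero]; exact Ge.zero
    · exact Or.inr h2
  have hEf : E f = ∑ i, (algebraMap K L (D (Algebra.trace K L (f * b i))) * δ i +
      algebraMap K L (Algebra.trace K L (f * b i)) * E (δ i)) := by
    conv_lhs => rw [hx]
    rw [map_sum]
    refine Finset.sum_congr rfl fun i _ => ?_
    rw [E.leibniz, hE]
    simp only [smul_eq_mul]
    ring
  rw [hEf]
  refine Ge.sum _ _ fun i _ => ?_
  have h3 : (e * Cb i + Cδ i + CE i : ℤ) ≤ ((∑ i, (e * Cb i + Cδ i + CE i) : ℕ) : ℤ) := by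
    have := Finset.single_le_sum (f := fun i => e * Cb i + Cδ i + CE i)
      (fun _ _ => Nat.zero_le _) (Finset.mem_univ i)
    exact_mod_cast this
  have hDi : Ge P (-Cb i) (D (Algebra.trace K L (f * b i))) := by
    have := DKind.drop (b := false) hD (htr i)
    simpa using this
  refine Ge.add ?_ ?_
  · refine ((over_ge hWP hDi).mul (hCδ i)).mono ?_
    have : (0 : ℤ) ≤ CE i := Int.natCast_nonneg _
    linarith
  · refine ((over_ge hWP (htr i)).mul (hCE i)).mono ?_
    have : (0 : ℤ) ≤ Cδ i := Int.natCast_nonneg _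
    linarith

/-- separation of places -/
theorem separate [Infinite k] {ι : Type} [Fintype ι] (V : ι → Place k L) (W V0 : Place k L)
    (hne : V0 ≠ W) : ∃ z : L, W.ord z = 0 ∧ z ≠ 0 ∧ 1 ≤ V0.ord z ∧ ∀ t, Ge (V t) 0 z := by
  classical
  obtain ⟨f, hf0, hfW, hfV⟩ : ∃ f : L, f ≠ 0 ∧ 0 ≤ W.ord f ∧ V0.ord f < 0 := by
    by_contra hcon
    push Not at hcon
    exact hne (Place.eq_of_le W V0 fun f h1 h2 => hcon f h1 h2).symm
  have hbad : ∀ U : Place k L, {l : k | Ge U 1 (f + algebraMap k L l)}.Subsingleton := by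
    intro U l hl l' hl'
    by_contra hll
    have h1 : Ge U 1 (algebraMap k L (l - l')) := by
      have := hl.sub hl'
      have e1 : f + algebraMap k L l - (f + algebraMap k L l') = algebraMap k L (l - l') := by
        rw [map_sub]; ring
      rwa [e1] at this
    rcases h1 with h1 | h1
    · exact sub_ne_zero.2 hll ((map_eq_zero _).1 h1)
    · rw [U.ord_const (sub_ne_zero.2 hll)] at h1
      omega
  have hfin : ({l : k | Ge W 1 (f + algebraMap k L l)} ∪
      ⋃ t, {l : k | Ge (V t) 1 (f + algebraMap k L l)}).Finite :=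
    (hbad W).finite.union (Set.finite_iUnion fun t => (hbad (V t)).finite)
  obtain ⟨l, hl⟩ := hfin.infinite_compl.nonempty
  simp only [Set.mem_compl_iff, Set.mem_union, Set.mem_iUnion, not_or, not_exists,
    Set.mem_ofPred_eq] at hl
  obtain ⟨h1, h2⟩ := hl
  have hg0 : f + algebraMap k L l ≠ 0 := fun h => h1 (Or.inl h)
  have hWg : W.ord (f + algebraMap k L l) = 0 := by
    have h3 : Ge W 0 (f + algebraMap k L l) := Ge.add (Or.inr hfW) (Ge.const l)
    have h4 := h3.resolve_left hg0
    by_contra h5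
    exact h1 (Or.inr (by omega))
  have hVg : V0.ord (f + algebraMap k L l) < 0 := by
    by_contra h3
    have h4 : Ge V0 0 (f + algebraMap k L l) := Or.inr (by omega)
    have h5 := h4.sub (Ge.const l)
    rw [add_sub_cancel_right] at h5
    have := h5.resolve_left hf0
    omega
  refine ⟨(f + algebraMap k L l)⁻¹, by rw [W.ord_inv, hWg, neg_zero], inv_ne_zero hg0,
    by rw [V0.ord_inv]; omega, fun t => Or.inr ?_⟩
  rw [(V t).ord_inv]
  by_contra h3
  exact h2 t (Or.inr (by omega))

theorem separate_all [Infinite k] {ι : Type} [Fintype ι] (V : ι → Place k L) (W : Place k L) :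
    ∃ z : L, W.ord z = 0 ∧ z ≠ 0 ∧ (∀ t, V t ≠ W → Ge (V t) 1 z) ∧ ∀ t, Ge (V t) 0 z := by
  classical
  choose! z hz using fun (t : ι) (h : V t ≠ W) => separate V W (V t) h
  refine ⟨∏ t, if V t ≠ W then z t else 1, ?_, ?_, ?_, ?_⟩
  · rw [ord_prod' W _ _ fun t _ => by
      split_ifs with h
      · exact (hz t h).2.1
      · exact one_ne_zero]
    refine Finset.sum_eq_zero fun t _ => ?_
    split_ifs with h
    · exact (hz t h).1
    · exact W.ord_one
  · refine Finset.prod_ne_zero_iff.2 fun t _ => ?_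
    split_ifs with h
    · exact (hz t h).2.1
    · exact one_ne_zero
  · intro t ht
    have h1 := Ge.prod (P := V t) Finset.univ (fun s => if V s ≠ W then z s else 1)
      (fun s => if s = t then 1 else 0) fun s _ => by
        by_cases hst : s = t
        · subst hst
          rw [if_pos rfl, if_pos ht]
          exact Or.inr (hz s ht).2.2.1
        · rw [if_neg hst]
          split_ifs with h
          · exact (hz s h).2.2.2 t
          · exact Ge.one
    simpa using h1
  · intro t
    have h1 := Ge.prod (P := V t) Finset.univ (fun s => if V s ≠ W then z s else 1)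
      (fun _ => 0) fun s _ => by
        split_ifs with h
        · exact (hz s h).2.2.2 t
        · exact Ge.one
    simpa using h1

/-- boundedness on the valuation ring -/
theorem bounded_O [FiniteDimensional K L] [IsGalois K L] [Infinite k] {W : Place k L}
    {P : Place k K} {e : ℕ}
    (hWP : Over W P e) {D : Derivation k K K} (hD : DerLog P D) {E : Derivation k L L}
    (hE : ∀ x : K, E (algebraMap K L x) = algebraMap K L (D x)) :
    ∃ C : ℕ, ∀ f : L, Ge W 0 f → Ge W (-C) (E f) := by
  classical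
  obtain ⟨C, hC⟩ := bounded_B hWP hD hE
  obtain ⟨z, hz1, hz0, hz2, hz3⟩ := separate_all
    (fun s : L ≃ₐ[K] L => W.comp (rs (k := k) s)) W
  have hz3' := hC z hz3
  refine ⟨C, fun f hf => ?_⟩
  have hn : ∃ n : ℕ, ∀ s : L ≃ₐ[K] L, Ge (W.comp (rs (k := k) s)) 0 (f * z ^ n) := by
    choose N hN using fun s : L ≃ₐ[K] L => ge_all (W.comp (rs (k := k) s)) f
    refine ⟨∑ s, N s, fun s => ?_⟩
    by_cases hs : W.comp (rs (k := k) s) = W
    · have h1 := hz3 s
      rw [hs] at h1 ⊢
      have := hf.mul (h1.pow (∑ s, N s))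
      simpa using this
    · have h1 := (hN s).mul ((hz2 s hs).pow (∑ s, N s))
      refine h1.mono ?_
      have := Finset.single_le_sum (f := N) (fun _ _ => Nat.zero_le _) (Finset.mem_univ s)
      have h2 : (N s : ℤ) ≤ ((∑ s, N s : ℕ) : ℤ) := by exact_mod_cast this
      omega
  obtain ⟨n, hn⟩ := hn
  have h1 := hC _ hn
  have hzn : z ^ n ≠ 0 := pow_ne_zero _ hz0
  have hznO : W.ord (z ^ n) = 0 := by rw [W.ord_pow, hz1, mul_zero]
  have e1 : z ^ n * E f = E (f * z ^ n) - f * (n * z ^ (n - 1) * E z) := by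
    rw [E.leibniz, E.leibniz_pow]
    simp only [smul_eq_mul, nsmul_eq_mul]
    ring
  have hz' : Ge W 0 z := Or.inr hz1.ge
  have h2 : Ge W (-C) (z ^ n * E f) := by
    rw [e1]
    refine h1.sub ?_
    have := hf.mul (((Ge.natCast (P := W) n).mul (hz'.pow (n - 1))).mul hz3')
    simpa using this
  have h3 := h2
  rw [← add_zero (-(C : ℤ))] at h3
  exact Ge.of_mul' hzn hznO h3

/-- the order of a power divided by a power of the uniformizer -/
theorem pow_div {W : Place k L} {P : Place k K} {e : ℕ} (hWP : Over W P e) [CharZero k]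
    {D : Derivation k K K} (hD : DerLog P D) {E : Derivation k L L}
    (hE : ∀ x : K, E (algebraMap K L x) = algebraMap K L (D x)) {β : ℤ} (hβ : 0 ≤ β)
    (h : ∀ f : L, Ge W 0 f → Ge W (-β) (E f)) {f : L} (hf : f ≠ 0) :
    Ge W (W.ord f - β) (E f) := by
  obtain ⟨u, hu0, hu⟩ := P.surj
  set m := W.ord f with hm
  have hchL : CharZero L := charZero_of_injective_algebraMap (algebraMap k L).injective
  obtain ⟨e', rfl⟩ : ∃ e', e = e' + 1 := ⟨e - 1, by have := hWP.1; omega⟩
  have hum : u ^ m ≠ 0 := zpow_ne_zero _ hu0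
  have humL : algebraMap K L (u ^ m) ≠ 0 := (map_ne_zero _).2 hum
  have humO : P.ord (u ^ m) = m := by rw [P.ord_zpow, hu, mul_one]
  set v : L := f ^ (e' + 1) / algebraMap K L (u ^ m) with hv
  have hvO : Ge W 0 v := by
    right
    rw [hv, W.ord_div (pow_ne_zero _ hf) humL, W.ord_pow, hWP.2, humO, ← hm]
    push_cast
    linarith
  have e1 : f ^ (e' + 1) = algebraMap K L (u ^ m) * v := by
    rw [hv, mul_div_cancel₀ _ humL]
  have e2 := congrArg E e1
  rw [E.leibniz_pow, E.leibniz, hE] at e2
  simp only [smul_eq_mul, nsmul_eq_mul, Nat.add_sub_cancel] at e2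
  have h1 : Ge P m (D (u ^ m)) := by
    have := DKind.drop (b := false) hD (f := u ^ m) (n := m) (Or.inr humO.ge)
    simpa using this
  have h2 : Ge W (((e' + 1 : ℕ) : ℤ) * m) (algebraMap K L (D (u ^ m))) := over_ge hWP h1
  have h3 : Ge W (((e' + 1 : ℕ) : ℤ) * m) (algebraMap K L (u ^ m)) :=
    over_ge hWP (Or.inr humO.ge)
  have h4 : Ge W (((e' + 1 : ℕ) : ℤ) * m - β) ((((e' + 1 : ℕ) : L)) * (f ^ e' * E f)) := by
    rw [e2]
    refine Ge.add ?_ ?_
    · exact (h3.mul (h v hvO)).mono (by linarith)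
    · exact (hvO.mul h2).mono (by linarith)
  have hc : ((e' + 1 : ℕ) : L) ≠ 0 := by exact_mod_cast Nat.succ_ne_zero e'
  have hcO : W.ord ((e' + 1 : ℕ) : L) = 0 := by
    have h5 : ((e' + 1 : ℕ) : L) = algebraMap k L ((e' + 1 : ℕ) : k) := (map_natCast _ _).symm
    rw [h5, W.ord_const]
    exact_mod_cast Nat.succ_ne_zero e'
  have h6 : Ge W (((e' + 1 : ℕ) : ℤ) * m - β) (f ^ e' * E f) := by
    refine Ge.of_mul' hc hcO ?_
    rwa [add_zero]
  refine Ge.of_mul' (h := f ^ e') (m := e' * m) (pow_ne_zero _ hf)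
    (by rw [W.ord_pow, ← hm]) ?_
  refine h6.mono ?_
  push_cast
  linarith

/-- an integral relation with a unit leading coefficient -/
def QQ (W : Place k L) (P : Place k K) (f : L) (m : ℕ) : Prop :=
  ∃ c : ℕ → K, (∀ j, Ge P 0 (c j)) ∧ c m ≠ 0 ∧ P.ord (c m) = 0 ∧ Ge W 1 (ev L (m + 1) c f)

theorem exists_QQ [Algebra.IsAlgebraic K L] {W : Place k L} {P : Place k K} {e : ℕ}
    (hWP : Over W P e) {f : L} (hf : Ge W 0 f) : ∃ m, QQ W P f m := by
  classical
  obtain ⟨p, hp0, hpf⟩ := Algebra.IsAlgebraic.isAlgebraic (R := K) f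
  obtain ⟨j0, hj0, hmin⟩ := Finset.exists_min_image p.support (fun j => P.ord (p.coeff j))
    (Polynomial.support_nonempty.2 hp0)
  have hj0' : p.coeff j0 ≠ 0 := Polynomial.mem_support_iff.1 hj0
  set c : ℕ → K := fun j => p.coeff j / p.coeff j0 with hc
  have hcge : ∀ j, Ge P 0 (c j) := by
    intro j
    by_cases h : p.coeff j = 0
    · simp only [hc, h, zero_div]; exact Ge.zero
    · right
      simp only [hc]
      rw [P.ord_div h hj0']
      have := hmin j (Polynomial.mem_support_iff.2 h)
      linarith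
  set S : Finset ℕ := p.support.filter fun j => P.ord (p.coeff j) = P.ord (p.coeff j0) with hS
  have hSne : S.Nonempty := ⟨j0, Finset.mem_filter.2 ⟨hj0, rfl⟩⟩
  set m := S.max' hSne with hm
  have hmS : m ∈ S := S.max'_mem hSne
  obtain ⟨hm1, hm2⟩ := Finset.mem_filter.1 hmS
  have hm1' : p.coeff m ≠ 0 := Polynomial.mem_support_iff.1 hm1
  refine ⟨m, c, hcge, div_ne_zero hm1' hj0', ?_, ?_⟩
  · simp only [hc]
    rw [P.ord_div hm1' hj0', hm2, sub_self]
  · have hsum : ev L (p.natDegree + 1) c f = 0 := by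
      unfold ev
      have h1 : ∀ j, algebraMap K L (c j) * f ^ j =
          (algebraMap K L (p.coeff j0))⁻¹ * (algebraMap K L (p.coeff j) * f ^ j) := by
        intro j
        simp only [hc]
        rw [map_div₀]
        ring
      rw [Finset.sum_congr rfl fun j _ => h1 j, ← Finset.mul_sum]
      have h2 : ∑ j ∈ Finset.range (p.natDegree + 1), algebraMap K L (p.coeff j) * f ^ j = 0 := by
        rw [← hpf, Polynomial.aeval_eq_sum_range]
        exact Finset.sum_congr rfl fun j _ => (Algebra.smul_def _ _).symm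
      rw [h2, mul_zero]
    have hmd : m ≤ p.natDegree := Polynomial.le_natDegree_of_ne_zero hm1'
    have hsplit : ev L (p.natDegree + 1) c f = ev L (m + 1) c f +
        ∑ j ∈ Finset.Ico (m + 1) (p.natDegree + 1), algebraMap K L (c j) * f ^ j := by
      unfold ev
      rw [Finset.sum_range_add_sum_Ico _ (by omega : m + 1 ≤ p.natDegree + 1)]
    have h3 : ev L (m + 1) c f =
        -∑ j ∈ Finset.Ico (m + 1) (p.natDegree + 1), algebraMap K L (c j) * f ^ j := by
      rw [hsum] at hsplit
      linear_combination -hsplit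
    rw [h3]
    refine Ge.neg (Ge.sum _ _ fun j hj => ?_)
    rw [Finset.mem_Ico] at hj
    have h4 : Ge P 1 (c j) := by
      by_cases h : p.coeff j = 0
      · simp only [hc, h, zero_div]; exact Ge.zero
      · right
        simp only [hc]
        rw [P.ord_div h hj0']
        have h5 := hmin j (Polynomial.mem_support_iff.2 h)
        have h6 : P.ord (p.coeff j) ≠ P.ord (p.coeff j0) := by
          intro h7
          have h8 := S.le_max' j (Finset.mem_filter.2 ⟨Polynomial.mem_support_iff.2 h, h7⟩)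
          omega
        omega
    have he : (1 : ℤ) ≤ e := by exact_mod_cast hWP.1
    refine ((over_ge hWP h4).mul (hf.pow j)).mono ?_
    linarith

/-- the improvement -/
theorem improve [Algebra.IsAlgebraic K L] [CharZero k] {W : Place k L} {P : Place k K} {e : ℕ}
    (hWP : Over W P e) {D : Derivation k K K} (hD : DerLog P D) {E : Derivation k L L}
    (hE : ∀ x : K, E (algebraMap K L x) = algebraMap K L (D x)) (β : ℕ)
    (h : ∀ f : L, Ge W 0 f → Ge W (-((β + 1 : ℕ) : ℤ)) (E f)) :
    ∀ f : L, Ge W 0 f → Ge W (-(β : ℤ)) (E f) := by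
  classical
  have ha : ∀ f : L, Ge W 1 f → Ge W (-(β : ℤ)) (E f) := by
    intro f hf
    by_cases hf0 : f = 0
    · rw [hf0, map_zero]; exact Ge.zero
    have h1 := pow_div hWP hD hE (by positivity) h hf0
    refine h1.mono ?_
    have := hf.resolve_left hf0
    push_cast
    omega
  intro f hf
  have hex := exists_QQ hWP hf
  obtain ⟨c, hc0, hcm, hcm0, hcW⟩ := Nat.find_spec hex
  set m := Nat.find hex with hm
  have hm0 : m ≠ 0 := by
    intro h0
    rw [h0] at hcW hcm hcm0
    unfold ev at hcW
    rw [Finset.sum_range_one, pow_zero, mul_one] at hcW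
    rcases hcW with h1 | h1
    · exact hcm ((map_eq_zero _).1 h1)
    · rw [hWP.2, hcm0, mul_zero] at h1
      omega
  obtain ⟨m', hm'⟩ : ∃ m', m = m' + 1 := ⟨m - 1, by omega⟩
  have hchK : CharZero K := charZero_of_injective_algebraMap (algebraMap k K).injective
  set c' : ℕ → K := fun j => ((j + 1 : ℕ) : K) * c (j + 1) with hc'
  have hnot : ¬ QQ W P f m' := Nat.find_min hex (by omega)
  have hder : ∑ j ∈ Finset.range (m + 1), algebraMap K L (c j) * ((j : L) * f ^ (j - 1)) =
      ev L (m' + 1) c' f := by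
    rw [hm', Finset.sum_range_succ']
    simp only [Nat.cast_zero, zero_mul, mul_zero, add_zero]
    unfold ev
    refine Finset.sum_congr rfl fun j _ => ?_
    simp only [hc', map_mul, map_natCast, Nat.add_sub_cancel]
    ring
  have hc'ge : ∀ j, Ge P 0 (c' j) := by
    intro j
    have := (Ge.natCast (P := P) (j + 1)).mul (hc0 (j + 1))
    simpa [hc'] using this
  have hp'0 : Ge W 0 (ev L (m' + 1) c' f) := by
    unfold ev
    refine Ge.sum _ _ fun j _ => ?_
    have := (over_ge hWP (hc'ge j)).mul (hf.pow j)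
    simpa using this
  have hp' : ¬ Ge W 1 (ev L (m' + 1) c' f) := by
    intro h1
    refine hnot ⟨c', hc'ge, ?_, ?_, h1⟩
    · simp only [hc']
      rw [← hm']
      refine mul_ne_zero ?_ hcm
      exact_mod_cast hm0
    · simp only [hc']
      rw [← hm']
      have h2 : ((m : ℕ) : K) = algebraMap k K ((m : ℕ) : k) := (map_natCast _ _).symm
      have h3 : ((m : ℕ) : k) ≠ 0 := by exact_mod_cast hm0
      rw [P.ord_mul (by exact_mod_cast hm0) hcm, hcm0, h2, P.ord_const h3, add_zero]
  have hp'ne : ev L (m' + 1) c' f ≠ 0 := fun h0 => hp' (Or.inl h0)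
  have hp'O : W.ord (ev L (m' + 1) c' f) = 0 := by
    have h1 := hp'0.resolve_left hp'ne
    by_contra h2
    exact hp' (Or.inr (by omega))
  have h1 := ha _ hcW
  rw [der_ev hE, hder] at h1
  have h2 : Ge W (-(β : ℤ)) (ev L (m + 1) (fun j => D (c j)) f) := by
    unfold ev
    refine Ge.sum _ _ fun j _ => ?_
    have h3 : Ge P 0 (D (c j)) := DKind.int (b := false) hD (hc0 j)
    have := (over_ge hWP h3).mul (hf.pow j)
    exact this.mono (by
      have : (0 : ℤ) ≤ β := Int.natCast_nonneg _
      linarith)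
  have h3 := h1.sub h2
  rw [add_sub_cancel_left] at h3
  have h4 : Ge W (-(β : ℤ) + 0) (ev L (m' + 1) c' f * E f) := by rwa [add_zero]
  exact Ge.of_mul' hp'ne hp'O h4

/-- **Logarithmic derivations extend to logarithmic derivations.** -/
theorem log_ext [FiniteDimensional K L] [IsGalois K L] [CharZero k] {W : Place k L}
    {P : Place k K} {e : ℕ} (hWP : Over W P e) {D : Derivation k K K} (hD : DerLog P D)
    {E : Derivation k L L} (hE : ∀ x : K, E (algebraMap K L x) = algebraMap K L (D x))
    {f : L} {n : ℤ} (hf : Ge W n f) : Ge W n (E f) := by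
  obtain ⟨C, hC⟩ := bounded_O hWP hD hE
  have h0 : ∀ f : L, Ge W 0 f → Ge W (-((0 : ℕ) : ℤ)) (E f) := by
    have key : ∀ C : ℕ, (∀ f : L, Ge W 0 f → Ge W (-(C : ℤ)) (E f)) →
        ∀ f : L, Ge W 0 f → Ge W (-((0 : ℕ) : ℤ)) (E f) := by
      intro C
      induction C with
      | zero => exact fun h => h
      | succ C ih => exact fun h => ih (improve hWP hD hE C h)
    exact key C hC
  by_cases hf0 : f = 0
  · rw [hf0, map_zero]; exact Ge.zero
  have h1 := pow_div hWP hD hE (β := 0) le_rfl (by simpa using h0) hf0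
  rw [sub_zero] at h1
  exact h1.mono (hf.resolve_left hf0)

/-- The extension of a regular derivation. -/
theorem reg_ext [FiniteDimensional K L] [IsGalois K L] [CharZero k] {W : Place k L}
    {P : Place k K} {e : ℕ} (hWP : Over W P e) {D : Derivation k K K} (hD : DerReg P D)
    {E : Derivation k L L} (hE : ∀ x : K, E (algebraMap K L x) = algebraMap K L (D x))
    {f : L} {n : ℤ} (hf : Ge W n f) : Ge W (n - e) (E f) := by
  obtain ⟨u, hu0, hu⟩ := P.surj
  have hD' : DerLog P (u • D) := by
    intro x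
    by_cases hx : x = 0
    · rw [hx, div_zero]; exact Or.inl rfl
    have h1 := DKind.drop (b := true) hD (f := x) (n := P.ord x) (Or.inr le_rfl)
    have h2 : Ge P 1 u := Or.inr hu.ge
    have h3 := h2.mul h1
    have h4 : Ge P (0 + P.ord x) (x * ((u • D) x / x)) := by
      rw [mul_div_cancel₀ _ hx]
      exact h3.mono (by simp)
    exact Ge.of_mul' hx rfl h4
  have hE' : ∀ x : K, (algebraMap K L u • E) (algebraMap K L x) =
      algebraMap K L ((u • D) x) := by
    intro x
    change algebraMap K L u * E (algebraMap K L x) = algebraMap K L (u * D x)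
    rw [hE, map_mul]
  have h1 := log_ext hWP hD' hE' hf
  have h2 : (algebraMap K L u • E) f = algebraMap K L u * E f := rfl
  rw [h2] at h1
  refine Ge.of_mul' (h := algebraMap K L u) (m := e) ((map_ne_zero _).2 hu0)
    (by rw [hWP.2, hu, mul_one]) ?_
  exact h1.mono (by linarith)

end Pool.Agent.H910.Dsc
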