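import Pool.Agent.H910.Dsc.Alg
import Pool.Agent.H910.Dsc.LogE
import Pool.Graph.R_seed8.Y190.SC.Ent
import Pool.Graph.R_seed8.Y190.SC.Est

/-!
Local estimates for the derivatives of the roots of a polynomial, and the order of its discriminant.
-/

set_option autoImplicit false
set_option linter.unusedSectionVars false

open FF Pool.Agent.W603.LV Pool.Agent.W602.GT Polynomial

namespace Pool.Agent.H910.Dsc

open Pool.Agent.Y190.BV Pool.Agent.Y216

theorem der_pr_ne {L : Type} [Field L] {κ : Type} [Fintype κ] [DecidableEq κ] {h : L}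
    (hh : h ≠ 0) {τ : κ → L} (hτ : Function.Injective τ) (x : κ) :
    (derivative (pr h τ)).eval (τ x) ≠ 0 := by
  rw [der_pr]
  exact mul_ne_zero hh (Finset.prod_ne_zero_iff.2 fun y hy =>
    sub_ne_zero.2 fun h' => (Finset.ne_of_mem_erase hy) (hτ h').symm)

section one

variable {k L : Type} [Field k] [Field L] [Algebra k L] (W : Place k L)

/-- the contact of two elements -/
def mm (x y : L) : ℤ := W.ord (x - y) + tau W x + tau W y

theorem mm_nonneg {x y : L} (h : x ≠ y) : 0 ≤ mm W x y := by
  have h1 : Ge W (-(tau W x + tau W y)) (x - y) := by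
    have hx := tau_nonneg W x
    have hy := tau_nonneg W y
    exact ((ge_tau W x).mono (by linarith)).sub ((ge_tau W y).mono (by linarith))
  have h2 := h1.resolve_left (sub_ne_zero.2 h)
  unfold mm
  linarith

theorem tau_const (a : k) : tau W (algebraMap k L a) = 0 := by
  unfold tau
  by_cases ha : a = 0
  · rw [ha, map_zero, W.ord_zero]; simp
  · rw [W.ord_const ha]; simp

theorem mm_const (x : L) (a : k) : mm W x (algebraMap k L a) = vv W x a := by
  unfold mm vv
  rw [tau_const, add_zero]

theorem ord_natCast [CharZero k] {m : ℕ} (hm : m ≠ 0) : W.ord ((m : ℕ) : L) = 0 := by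
  have h1 : ((m : ℕ) : L) = algebraMap k L ((m : ℕ) : k) := (map_natCast _ _).symm
  rw [h1, W.ord_const]
  exact_mod_cast hm

theorem cnt_X_sub_C (t : L) : cnt W (X - C t) = - tau W t := by
  have ht := tau_nonneg W t
  by_cases h : 0 < tau W t
  · apply cnt_unique
    · intro j
      rw [coeff_sub, coeff_X, coeff_C]
      refine Ge.sub ?_ ?_
      · split_ifs
        · exact Ge.one.mono (by linarith)
        · exact Ge.zero
      · split_ifs
        · exact ge_tau W t
        · exact Ge.zero
    · have h1 : t ≠ 0 := by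
        rintro rfl
        unfold tau at h
        rw [W.ord_zero] at h
        simp at h
      refine ⟨0, by simpa using h1, ?_⟩
      rw [coeff_sub, coeff_X_zero, coeff_C_zero, zero_sub, W.ord_neg]
      unfold tau at h ⊢
      rcases max_cases 0 (- W.ord t) with ⟨h2, _⟩ | ⟨h2, _⟩
      · omega
      · rw [h2]; ring
  · have h0 : tau W t = 0 := le_antisymm (not_lt.1 h) ht
    rw [h0, neg_zero]
    apply cnt_unique
    · intro j
      rw [coeff_sub, coeff_X, coeff_C]
      refine Ge.sub ?_ ?_
      · split_ifs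
        · exact Ge.one
        · exact Ge.zero
      · split_ifs
        · have := ge_tau W t
          rwa [h0, neg_zero] at this
        · exact Ge.zero
    · refine ⟨1, ?_, ?_⟩
      · rw [coeff_sub, coeff_X_one, coeff_C_of_ne_zero one_ne_zero, sub_zero]
        exact one_ne_zero
      · rw [coeff_sub, coeff_X_one, coeff_C_of_ne_zero one_ne_zero, sub_zero, W.ord_one]

variable {κ : Type} [Fintype κ] [DecidableEq κ]

theorem cnt_pr [Infinite k] {h : L} (hh : h ≠ 0) (τ : κ → L) :
    cnt W (pr h τ) = W.ord h - ∑ x, tau W (τ x) := by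
  have hprod : ∀ s : Finset κ, cnt W (∏ x ∈ s, (X - C (τ x))) = - ∑ x ∈ s, tau W (τ x) := by
    intro s
    induction s using Finset.induction_on with
    | empty => rw [Finset.prod_empty, Finset.sum_empty, cnt_one, neg_zero]
    | insert a s ha ih =>
      rw [Finset.prod_insert ha, Finset.sum_insert ha,
        cnt_mul W (X_sub_C_ne_zero _) (Finset.prod_ne_zero_iff.2 fun x _ => X_sub_C_ne_zero _), ih,
        cnt_X_sub_C]
      ring
  unfold pr
  rw [cnt_mul W (C_ne_zero.2 hh) (Finset.prod_ne_zero_iff.2 fun x _ => X_sub_C_ne_zero _),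
    cnt_C W hh, hprod]
  ring

/-- the contact with the discriminant -/
noncomputable def dct (n : ℕ) (F : L[X]) : ℤ := W.ord (dsf n F) - 2 * n * cnt W F

theorem ord_der_pr {h : L} (hh : h ≠ 0) {τ : κ → L} (hτ : Function.Injective τ) (x : κ) :
    W.ord ((derivative (pr h τ)).eval (τ x)) = W.ord h + ∑ y ∈ Finset.univ.erase x,
      (mm W (τ x) (τ y) - tau W (τ x) - tau W (τ y)) := by
  have hne : ∀ y ∈ Finset.univ.erase x, τ x - τ y ≠ 0 := fun y hy =>
    sub_ne_zero.2 fun h' => (Finset.ne_of_mem_erase hy) (hτ h').symm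
  rw [der_pr, W.ord_mul hh (Finset.prod_ne_zero_iff.2 hne), ord_prod' W _ _ hne]
  congr 1
  refine Finset.sum_congr rfl fun y _ => ?_
  unfold mm
  ring

theorem sum_erase_tau (f : κ → ℤ) : ∑ x, ∑ y ∈ Finset.univ.erase x, (f x + f y) =
    2 * ((Fintype.card κ : ℤ) - 1) * ∑ x, f x := by
  have h1 : ∀ x, ∑ y ∈ Finset.univ.erase x, (f x + f y) =
      ((Fintype.card κ : ℤ) - 1) * f x + (∑ y, f y - f x) := by
    intro x
    rw [Finset.sum_add_distrib, Finset.sum_const, nsmul_eq_mul,
      Finset.card_erase_of_mem (Finset.mem_univ x), Finset.card_univ,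
      Finset.sum_erase_eq_sub (Finset.mem_univ x)]
    have : 1 ≤ Fintype.card κ := Fintype.card_pos_iff.2 ⟨x⟩
    push_cast [this]
    ring
  rw [Finset.sum_congr rfl fun x _ => h1 x, Finset.sum_add_distrib, ← Finset.mul_sum,
    Finset.sum_sub_distrib, Finset.sum_const, nsmul_eq_mul, Finset.card_univ]
  ring

/-- the contact with the discriminant, maximal degree -/
theorem dct_pr [CharZero k] {h : L} (hh : h ≠ 0) {τ : κ → L} (hτ : Function.Injective τ) {n : ℕ}
    (hc : Fintype.card κ = n + 1) : dsf n (pr h τ) ≠ 0 ∧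
    dct W n (pr h τ) = ∑ x, ∑ y ∈ Finset.univ.erase x, mm W (τ x) (τ y) := by
  have hch : CharZero L := charZero_of_injective_algebraMap (algebraMap k L).injective
  have h1 := dsf_pr hh τ hc
  have hn : ((n + 1 : ℕ) : L) ≠ 0 := by exact_mod_cast Nat.succ_ne_zero n
  have hP : ∏ x, (derivative (pr h τ)).eval (τ x) ≠ 0 :=
    Finset.prod_ne_zero_iff.2 fun x _ => der_pr_ne hh hτ x
  have hd : dsf n (pr h τ) ≠ 0 := by
    intro h0
    rw [h0, mul_zero] at h1
    exact mul_ne_zero (pow_ne_zero _ hn) (mul_ne_zero (pow_ne_zero _ hh) hP) h1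
  refine ⟨hd, ?_⟩
  have h2 := congrArg W.ord h1
  rw [W.ord_mul (pow_ne_zero _ hn) (mul_ne_zero (pow_ne_zero _ hh) hP), W.ord_pow,
    ord_natCast W (Nat.succ_ne_zero n), W.ord_mul (pow_ne_zero _ hh) hP, W.ord_pow,
    ord_prod' W _ _ fun x _ => der_pr_ne hh hτ x, W.ord_mul (mul_ne_zero hn hh) hd,
    W.ord_mul hn hh, ord_natCast W (Nat.succ_ne_zero n),
    Finset.sum_congr rfl fun x _ => ord_der_pr W hh hτ x, Finset.sum_add_distrib,
    Finset.sum_const, nsmul_eq_mul, Finset.card_univ, hc] at h2
  have h3 := sum_erase_tau (fun x => tau W (τ x))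
  have h4 : ∑ x, ∑ y ∈ Finset.univ.erase x, (mm W (τ x) (τ y) - tau W (τ x) - tau W (τ y)) =
      ∑ x, ∑ y ∈ Finset.univ.erase x, mm W (τ x) (τ y) -
        ∑ x, ∑ y ∈ Finset.univ.erase x, (tau W (τ x) + tau W (τ y)) := by
    rw [← Finset.sum_sub_distrib]
    refine Finset.sum_congr rfl fun x _ => ?_
    rw [← Finset.sum_sub_distrib]
    exact Finset.sum_congr rfl fun y _ => by ring
  rw [h4, h3, hc] at h2
  have : Infinite k := inferInstance
  unfold dct
  rw [cnt_pr W hh]
  push_cast at h2
  linarith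

/-- the contact with the discriminant, submaximal degree -/
theorem dct_pr' [CharZero k] {h : L} (hh : h ≠ 0) {τ : κ → L} (hτ : Function.Injective τ) {n : ℕ}
    (hc : Fintype.card κ = n) : dsf n (pr h τ) ≠ 0 ∧
    dct W n (pr h τ) = 2 * ∑ x, tau W (τ x) +
      ∑ x, ∑ y ∈ Finset.univ.erase x, mm W (τ x) (τ y) := by
  have hch : CharZero L := charZero_of_injective_algebraMap (algebraMap k L).injective
  have : Infinite k := inferInstance
  rcases n with _ | n
  · have he : IsEmpty κ := Fintype.card_eq_zero_iff.1 hc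
    have h1 : dsf 0 (pr h τ) = 1 := by
      unfold dsf
      rw [resultant_zero_left_deg, pow_zero]
    refine ⟨by rw [h1]; exact one_ne_zero, ?_⟩
    unfold dct
    rw [h1, W.ord_one]
    simp
  have h1 := dsf_pr' hh τ hc
  have hn : ((n + 2 : ℕ) : L) ≠ 0 := by exact_mod_cast Nat.succ_ne_zero (n + 1)
  have hP : ∏ x, (derivative (pr h τ)).eval (τ x) ≠ 0 :=
    Finset.prod_ne_zero_iff.2 fun x _ => der_pr_ne hh hτ x
  have hm1 : ((-1 : L)) ^ (n + 1) ≠ 0 := pow_ne_zero _ (neg_ne_zero.2 one_ne_zero)
  have hA : (-1) ^ (n + 1) * ((n + 2 : ℕ) : L) ^ n ≠ 0 := mul_ne_zero hm1 (pow_ne_zero _ hn)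
  have hB : h ^ n * ∏ x, (derivative (pr h τ)).eval (τ x) ≠ 0 :=
    mul_ne_zero (pow_ne_zero _ hh) hP
  have hd : dsf (n + 1) (pr h τ) ≠ 0 := by
    rw [h1]
    exact mul_ne_zero (mul_ne_zero hA hh) hB
  refine ⟨hd, ?_⟩
  have hm1O : W.ord ((-1 : L) ^ (n + 1)) = 0 := by
    rw [W.ord_pow, W.ord_neg_one, mul_zero]
  have h2 := congrArg W.ord h1
  rw [W.ord_mul (mul_ne_zero hA hh) hB, W.ord_mul hA hh, W.ord_mul hm1 (pow_ne_zero _ hn), hm1O,
    W.ord_pow, ord_natCast W (Nat.succ_ne_zero (n + 1)), W.ord_mul (pow_ne_zero _ hh) hP, W.ord_pow,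
    ord_prod' W _ _ fun x _ => der_pr_ne hh hτ x,
    Finset.sum_congr rfl fun x _ => ord_der_pr W hh hτ x, Finset.sum_add_distrib,
    Finset.sum_const, nsmul_eq_mul, Finset.card_univ, hc] at h2
  have h3 := sum_erase_tau (fun x => tau W (τ x))
  have h4 : ∑ x, ∑ y ∈ Finset.univ.erase x, (mm W (τ x) (τ y) - tau W (τ x) - tau W (τ y)) =
      ∑ x, ∑ y ∈ Finset.univ.erase x, mm W (τ x) (τ y) -
        ∑ x, ∑ y ∈ Finset.univ.erase x, (tau W (τ x) + tau W (τ y)) := by
    rw [← Finset.sum_sub_distrib]
    refine Finset.sum_congr rfl fun x _ => ?_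
    rw [← Finset.sum_sub_distrib]
    exact Finset.sum_congr rfl fun y _ => by ring
  rw [h4, h3, hc] at h2
  unfold dct
  rw [cnt_pr W hh, h2]
  push_cast
  ring

end one

/-- the discriminant does not vanish -/
theorem dsf_ne {L : Type} [Field L] [CharZero L] {κ : Type} [Fintype κ] [DecidableEq κ] {h : L}
    (hh : h ≠ 0) {τ : κ → L} (hτ : Function.Injective τ) {n : ℕ}
    (hc : Fintype.card κ = n + 1 ∨ Fintype.card κ = n) : dsf n (pr h τ) ≠ 0 := by
  have hP : ∏ x, (derivative (pr h τ)).eval (τ x) ≠ 0 :=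
    Finset.prod_ne_zero_iff.2 fun x _ => der_pr_ne hh hτ x
  rcases hc with hc | hc
  · have h1 := dsf_pr hh τ hc
    have hn : ((n + 1 : ℕ) : L) ≠ 0 := by exact_mod_cast Nat.succ_ne_zero n
    intro h0
    rw [h0, mul_zero] at h1
    exact mul_ne_zero (pow_ne_zero _ hn) (mul_ne_zero (pow_ne_zero _ hh) hP) h1
  · rcases n with _ | n
    · unfold dsf
      rw [resultant_zero_left_deg, pow_zero]
      exact one_ne_zero
    · have hn : ((n + 2 : ℕ) : L) ≠ 0 := by exact_mod_cast Nat.succ_ne_zero (n + 1)
      rw [dsf_pr' hh τ hc]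
      exact mul_ne_zero (mul_ne_zero (mul_ne_zero (pow_ne_zero _ (neg_ne_zero.2 one_ne_zero))
        (pow_ne_zero _ hn)) hh) (mul_ne_zero (pow_ne_zero _ hh) hP)

variable {k K L : Type} [Field k] [Field K] [Field L] [Algebra k K] [Algebra k L] [Algebra K L]
  [IsScalarTower k K L]

theorem cnt_map {W : Place k L} {P : Place k K} {e : ℕ} (hWP : Over W P e) {F : K[X]}
    (hF : F ≠ 0) : cnt W (F.map (algebraMap K L)) = e * cnt P F := by
  apply cnt_unique
  · intro j
    rw [coeff_map]
    exact over_ge hWP (cnt_ge P F j)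
  · obtain ⟨j, hj, hj2⟩ := cnt_att P hF
    refine ⟨j, ?_, ?_⟩
    · rw [coeff_map]
      exact (_root_.map_ne_zero _).2 hj
    · rw [coeff_map, hWP.2, hj2]

theorem dct_map {W : Place k L} {P : Place k K} {e : ℕ} (hWP : Over W P e) {F : K[X]}
    (hF : F ≠ 0) (n : ℕ) : dct W n (F.map (algebraMap K L)) = e * dct P n F := by
  unfold dct
  rw [cnt_map hWP hF, map_dsf, hWP.2]
  ring

/-- The roots of `F` in `L`. -/
structure RD (F : K[X]) (n : ℕ) (κ : Type) [Fintype κ] [DecidableEq κ] (τ : κ → L) : Prop where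
  inj : Function.Injective τ
  eq : F.map (algebraMap K L) = pr (algebraMap K L F.leadingCoeff) τ
  ne : F ≠ 0
  card : Fintype.card κ = n + 1 ∨ Fintype.card κ = n

section rd

variable {κ : Type} [Fintype κ] [DecidableEq κ] {F : K[X]} {n : ℕ} {τ : κ → L}

theorem RD.lead (R : RD F n κ τ) : algebraMap K L F.leadingCoeff ≠ 0 :=
  (_root_.map_ne_zero _).2 (leadingCoeff_ne_zero.2 R.ne)

theorem RD.root (R : RD F n κ τ) (x : κ) : aeval (τ x) F = 0 := by
  rw [← eval_map_algebraMap, R.eq]
  unfold pr
  rw [eval_mul, eval_prod, Finset.prod_eq_zero (Finset.mem_univ x), mul_zero]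
  simp

theorem RD.natDegree (R : RD F n κ τ) : F.natDegree = Fintype.card κ := by
  rw [← natDegree_map (algebraMap K L), R.eq, pr_natDegree R.lead]

theorem RD.der (R : RD F n κ τ) (x : κ) : aeval (τ x) (derivative F) =
    (derivative (pr (algebraMap K L F.leadingCoeff) τ)).eval (τ x) := by
  rw [← R.eq, derivative_map, eval_map_algebraMap]

theorem RD.sum_le [CharZero k] (R : RD F n κ τ) {W : Place k L} {P : Place k K} {e : ℕ}
    (hWP : Over W P e) : dsf n F ≠ 0 ∧
    ∑ x, ∑ y ∈ Finset.univ.erase x, mm W (τ x) (τ y) ≤ e * dct P n F := by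
  rw [← dct_map hWP R.ne, R.eq]
  have h0 : dsf n F ≠ 0 ↔ dsf n (pr (algebraMap K L F.leadingCoeff) τ) ≠ 0 := by
    rw [← R.eq, map_dsf, _root_.map_ne_zero]
  rw [h0]
  rcases R.card with hc | hc
  · obtain ⟨h1, h2⟩ := dct_pr W R.lead R.inj hc
    exact ⟨h1, h2.ge⟩
  · obtain ⟨h1, h2⟩ := dct_pr' W R.lead R.inj hc
    refine ⟨h1, ?_⟩
    rw [h2]
    have : 0 ≤ ∑ x, tau W (τ x) := Finset.sum_nonneg fun x _ => tau_nonneg W _
    linarith

theorem RD.sum_nonneg (R : RD F n κ τ) (W : Place k L) (x : κ) :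
    0 ≤ ∑ y ∈ Finset.univ.erase x, mm W (τ x) (τ y) :=
  Finset.sum_nonneg fun _ hy => mm_nonneg W fun h => (Finset.ne_of_mem_erase hy) (R.inj h).symm

theorem RD.dct_nonneg [CharZero k] (R : RD F n κ τ) {W : Place k L} {P : Place k K} {e : ℕ}
    (hWP : Over W P e) : 0 ≤ dct P n F := by
  have h1 := (R.sum_le hWP).2
  have h2 : 0 ≤ ∑ x, ∑ y ∈ Finset.univ.erase x, mm W (τ x) (τ y) :=
    Finset.sum_nonneg fun x _ => R.sum_nonneg W x
  have h3 : (0 : ℤ) < e := by exact_mod_cast hWP.1
  have h4 : 0 ≤ (e : ℤ) * dct P n F := h2.trans h1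
  exact le_of_mul_le_mul_left (by simpa using h4) h3

theorem RD.mm_zero [CharZero k] (R : RD F n κ τ) {W : Place k L} {P : Place k K} {e : ℕ}
    (hWP : Over W P e) (h0 : dct P n F = 0) {x y : κ} (hxy : x ≠ y) : mm W (τ x) (τ y) = 0 := by
  have h1 := (R.sum_le hWP).2
  rw [h0, mul_zero] at h1
  have h2 := Finset.single_le_sum (f := fun x => ∑ y ∈ Finset.univ.erase x, mm W (τ x) (τ y))
    (fun x _ => R.sum_nonneg W x) (Finset.mem_univ x)
  have h3 := Finset.single_le_sum (f := fun y => mm W (τ x) (τ y))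
    (fun y hy => mm_nonneg W fun h => (Finset.ne_of_mem_erase hy) (R.inj h).symm)
    (Finset.mem_erase.2 ⟨hxy.symm, Finset.mem_univ y⟩)
  have h4 : 0 ≤ mm W (τ x) (τ y) := mm_nonneg W fun h => hxy (R.inj h)
  linarith

/-- The derivative of a root at a place where the discriminant does not vanish. -/
theorem RD.der_good [CharZero k] (R : RD F n κ τ) {W : Place k L} {P : Place k K} {e : ℕ}
    (hWP : Over W P e) (h0 : dct P n F = 0) {D : Derivation k K K} (hD : DerReg P D)
    {E : Derivation k L L} (hE : ∀ x : K, E (algebraMap K L x) = algebraMap K L (D x)) (x : κ) :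
    Ge W (-2 * tau W (τ x)) (E (τ x)) := by
  have hinf : Infinite k := inferInstance
  have h1 := Pool.Agent.Y190.SC.entry2 hWP (q := 0) (d := F.natDegree) F.coeff
    (fun m _ => cnt_ge P F m) (fun i => i.elim0) (fun i => i.elim0) (fun i => i.elim0) (τ x)
    (by rw [ev_eq_aeval]; exact R.root x) true D hD
  have hno : ¬ (true = true ∧ ∃ i : Fin 0, 0 < vv W (τ x) (i.elim0 : k)) := by
    rintro ⟨-, i, -⟩
    exact i.elim0
  rw [if_neg hno, sub_zero] at h1
  unfold Pool.Agent.Y190.SC.bet at h1
  rw [Finset.univ_eq_empty, Finset.sum_empty, add_zero] at h1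
  have h2 := der_ev hE (F.natDegree + 1) F.coeff (τ x)
  rw [ev_eq_aeval, R.root x, map_zero, sum_derivative, R.der x] at h2
  have h3 : ev L (F.natDegree + 1) (fun j => D (F.coeff j)) (τ x) =
      -((derivative (pr (algebraMap K L F.leadingCoeff) τ)).eval (τ x) * E (τ x)) := by
    linear_combination -h2
  rw [h3] at h1
  have h4 := h1.neg
  rw [neg_neg] at h4
  have hne := der_pr_ne R.lead R.inj x
  have hord := ord_der_pr W R.lead R.inj x
  have hcard : 1 ≤ Fintype.card κ := Fintype.card_pos_iff.2 ⟨x⟩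
  have h5 : ∑ y ∈ Finset.univ.erase x, (mm W (τ x) (τ y) - tau W (τ x) - tau W (τ y)) =
      -((Fintype.card κ : ℤ) - 1) * tau W (τ x) - (∑ y, tau W (τ y) - tau W (τ x)) := by
    rw [← Finset.sum_erase_eq_sub (Finset.mem_univ x)]
    have h6 : ∀ y ∈ Finset.univ.erase x, mm W (τ x) (τ y) - tau W (τ x) - tau W (τ y) =
        -tau W (τ x) - tau W (τ y) := fun y hy => by
      rw [R.mm_zero hWP h0 (Finset.ne_of_mem_erase hy).symm]
      ring
    rw [Finset.sum_congr rfl h6, Finset.sum_sub_distrib, Finset.sum_const, nsmul_eq_mul,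
      Finset.card_erase_of_mem (Finset.mem_univ x), Finset.card_univ]
    push_cast [hcard]
    ring
  rw [h5] at hord
  have hcnt : (e : ℤ) * cnt P F = W.ord (algebraMap K L F.leadingCoeff) - ∑ y, tau W (τ y) := by
    rw [← cnt_map hWP R.ne, R.eq, cnt_pr W R.lead]
  refine Ge.of_mul' hne hord ?_
  refine h4.mono ?_
  rw [hcnt, R.natDegree]
  linarith

end rd

section est

variable {W : Place k L} {P : Place k K} {e : ℕ}

/-- The derivative of an element which is near a constant. -/
theorem der_near [CharZero k] [FiniteDimensional K L] [IsGalois K L] (hWP : Over W P e)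
    {b : Bool} {D : Derivation k K K} (hD : DKind b P D)
    {E : Derivation k L L} (hE : ∀ x : K, E (algebraMap K L x) = algebraMap K L (D x))
    {q : ℕ} {a : Fin q → k} (ha : Function.Injective a) {t : L}
    (ht : ∀ i, t ≠ algebraMap k L (a i)) :
    Ge W (∑ i, vv W t (a i) - 2 * tau W t - if b then (e : ℤ) else 0) (E t) := by
  have hext : ∀ (f : L) (n : ℤ), Ge W n f → Ge W (n - if b then (e : ℤ) else 0) (E f) := by
    intro f n hf
    cases b with
    | true => exact reg_ext hWP hD hE hf
    | false =>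
      have := log_ext hWP hD hE hf
      simpa using this
  have h0 := tau_nonneg W t
  by_cases hall : ∀ i, vv W t (a i) = 0
  · rw [Finset.sum_eq_zero fun i _ => hall i]
    exact (hext t _ (ge_tau W t)).mono (by linarith)
  · push Not at hall
    obtain ⟨i, hi⟩ := hall
    have hiv : 0 < vv W t (a i) := lt_of_le_of_ne (vv_nonneg W (ht i)) (Ne.symm hi)
    have htau := tau_of_vv W (ht i) hiv
    have hsum : ∑ l, vv W t (a l) = vv W t (a i) := by
      rw [Finset.sum_eq_single i]
      · intro l _ hl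
        exact vv_zero (fun h => hl (ha h).symm) (ht i) (ht l) hiv
      · intro h
        exact absurd (Finset.mem_univ i) h
    rw [hsum, htau, mul_zero, sub_zero]
    have h1 : Ge W (vv W t (a i)) (t - algebraMap k L (a i)) := by
      right
      unfold vv
      rw [htau, add_zero]
    have h2 := hext _ _ h1
    rwa [map_sub, E.map_algebraMap, sub_zero] at h2

/-- The determinant of the derivatives. -/
theorem det_near [CharZero k] [FiniteDimensional K L] [IsGalois K L] (hWP : Over W P e)
    {b : Bool} {w : ℕ} {D : Fin w → Derivation k K K} (hD : ∀ i, DKind b P (D i))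
    {E : Fin w → Derivation k L L}
    (hE : ∀ i, ∀ x : K, E i (algebraMap K L x) = algebraMap K L (D i x))
    {q : ℕ} {a : Fin q → k} (ha : Function.Injective a) {J : Fin w → L}
    (ht : ∀ j i, J j ≠ algebraMap k L (a i)) :
    Ge W (∑ j, (∑ i, vv W (J j) (a i) - 2 * tau W (J j)) - if b then (e : ℤ) else 0)
      (Matrix.of fun i j => E i (J j)).det := by
  classical
  set β : Fin w → ℤ := fun j => ∑ i, vv W (J j) (a i) - 2 * tau W (J j) with hβ
  have he : (0 : ℤ) < e := by exact_mod_cast hWP.1
  cases b with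
  | false =>
    simp only [Bool.false_eq_true, if_false, sub_zero]
    refine ge_det _ _ _ (fun i j => β j) (fun i j => ?_) (fun σ => le_rfl)
    have := der_near hWP (hD i) (hE i) ha (ht j)
    simpa using this
  | true =>
    simp only [if_true]
    obtain ⟨u, hu0, hu⟩ := P.surj
    have hlog : ∀ (D' : Derivation k K K) (E' : Derivation k L L), DKind false P D' →
        (∀ x : K, E' (algebraMap K L x) = algebraMap K L (D' x)) → ∀ j, Ge W (β j) (E' (J j)) := by
      intro D' E' hD' hE' j
      have := der_near hWP hD' hE' ha (ht j)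
      simpa using this
    have hreg : ∀ (D' : Derivation k K K) (E' : Derivation k L L), DKind true P D' →
        (∀ x : K, E' (algebraMap K L x) = algebraMap K L (D' x)) →
        ∀ j, Ge W (β j - e) (E' (J j)) := by
      intro D' E' hD' hE' j
      have := der_near hWP hD' hE' ha (ht j)
      simpa using this
    by_cases hall : ∀ i, D i u = 0
    · refine (ge_det W _ (∑ j, β j) (fun i j => β j) (fun i j => ?_) (fun σ => le_rfl)).mono ?_
      · exact hlog (D i) (E i) (Pool.Agent.Y190.SC.log_of_kill (hD i) hu0 hu (hall i)) (hE i) j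
      · linarith
    · push Not at hall
      obtain ⟨i1, hi1⟩ := hall
      obtain ⟨i0, hi0, hmin⟩ := Finset.exists_min_image
        (Finset.univ.filter fun i => D i u ≠ 0) (fun i => P.ord (D i u))
        ⟨i1, Finset.mem_filter.2 ⟨Finset.mem_univ _, hi1⟩⟩
      have hi0' : D i0 u ≠ 0 := (Finset.mem_filter.1 hi0).2
      set x : Fin w → K := fun i => D i u / D i0 u with hx
      have hxge : ∀ i, Ge P 0 (x i) := by
        intro i
        by_cases h : D i u = 0
        · simp only [hx, h, zero_div]
          exact Ge.zero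
        · refine Ge.of_mul' (h := D i0 u) (m := P.ord (D i0 u)) hi0' rfl ?_
          simp only [hx]
          rw [mul_div_cancel₀ _ hi0', zero_add]
          exact Or.inr (hmin i (Finset.mem_filter.2 ⟨Finset.mem_univ _, h⟩))
      let D' : Fin w → Derivation k K K := fun i => D i - x i • D i0
      let E' : Fin w → Derivation k L L := fun i => E i - algebraMap K L (x i) • E i0
      have hE' : ∀ i, ∀ y : K, E' i (algebraMap K L y) = algebraMap K L (D' i y) := by
        intro i y
        change E i (algebraMap K L y) - algebraMap K L (x i) * E i0 (algebraMap K L y) =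
          algebraMap K L (D i y - x i * D i0 y)
        rw [hE, hE, map_sub, map_mul]
      have hD'reg : ∀ i, DKind true P (D' i) := by
        intro i
        change DerReg P (D' i)
        intro g hg
        have h1 : Ge P 0 (D i g) := hD i g hg
        have h2 : Ge P 0 (D i0 g) := hD i0 g hg
        have h3 := (hxge i).mul h2
        rw [add_zero] at h3
        have h4 : (D' i) g = D i g - x i * D i0 g := rfl
        rw [h4]
        exact h1.sub h3
      have hD'log : ∀ i, DKind false P (D' i) := by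
        intro i
        refine Pool.Agent.Y190.SC.log_of_kill (hD'reg i) hu0 hu ?_
        have h4 : (D' i) u = D i u - x i * D i0 u := rfl
        rw [h4]
        simp only [hx]
        rw [div_mul_cancel₀ _ hi0', sub_self]
      let B : Matrix (Fin w) (Fin w) L := Matrix.of fun i j =>
        if i = i0 then E i0 (J j) else E' i (J j)
      have hdet : (Matrix.of fun i j => E i (J j)).det = B.det := by
        refine Matrix.det_eq_of_forall_row_eq_smul_add_const
          (fun i => if i = i0 then 0 else algebraMap K L (x i)) i0 (if_pos rfl) fun i j => ?_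
        change E i (J j) = B i j + (if i = i0 then 0 else algebraMap K L (x i)) * B i0 j
        simp only [B, Matrix.of_apply, if_true]
        by_cases h : i = i0
        · rw [if_pos h, if_pos h, zero_mul, add_zero, h]
        · rw [if_neg h, if_neg h]
          have h4 : (E' i) (J j) = E i (J j) - algebraMap K L (x i) * E i0 (J j) := rfl
          rw [h4]
          ring
      rw [hdet]
      refine ge_det W _ _ (fun i j => β j - if i = i0 then (e : ℤ) else 0) (fun i j => ?_)
        (fun σ => ?_)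
      · simp only [B, Matrix.of_apply]
        by_cases h : i = i0
        · rw [if_pos h, if_pos h]
          exact hreg _ _ (hD i0) (hE i0) j
        · rw [if_neg h, if_neg h, sub_zero]
          exact hlog _ _ (hD'log i) (hE' i) j
      · have h5 : ∑ j, (if σ j = i0 then (e : ℤ) else 0) = e := by
          rw [Finset.sum_eq_single (σ.symm i0)]
          · rw [if_pos (Equiv.apply_symm_apply σ i0)]
          · intro j _ hj
            rw [if_neg]
            intro h
            apply hj
            rw [← h, Equiv.symm_apply_apply]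
          · intro h
            exact absurd (Finset.mem_univ _) h
        have h6 : ∑ j, (β j - if σ j = i0 then (e : ℤ) else 0) = ∑ j, β j - e := by
          rw [Finset.sum_sub_distrib, h5]
        rw [h6]

end est

section more

/-- polynomials with constant coefficients -/
theorem cnt_const (P : Place k K) {f : k[X]} (hf : f ≠ 0) : cnt P (f.map (algebraMap k K)) = 0 := by
  apply cnt_unique
  · intro j
    rw [coeff_map]
    by_cases h : f.coeff j = 0
    · rw [h, map_zero]
      exact Ge.zero
    · exact Or.inr (by rw [P.ord_const h])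
  · refine ⟨f.natDegree, ?_, ?_⟩
    · rw [coeff_map, _root_.map_ne_zero, coeff_natDegree]
      exact leadingCoeff_ne_zero.2 hf
    · rw [coeff_map, P.ord_const]
      rw [coeff_natDegree]
      exact leadingCoeff_ne_zero.2 hf

/-- the contacts of the roots with a constant -/
theorem sum_vv [Infinite k] {κ : Type} [Fintype κ] [DecidableEq κ] (W : Place k L) {h : L}
    (hh : h ≠ 0) {τ : κ → L} {a : k} (ha : ∀ x, τ x ≠ algebraMap k L a) :
    ∑ x, vv W (τ x) a = W.ord ((pr h τ).eval (algebraMap k L a)) - cnt W (pr h τ) := by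
  have hne : ∀ x ∈ (Finset.univ : Finset κ), algebraMap k L a - τ x ≠ 0 := fun x _ =>
    sub_ne_zero.2 (ha x).symm
  rw [cnt_pr W hh]
  unfold pr
  rw [eval_mul, eval_C, eval_prod]
  simp only [eval_sub, eval_X, eval_C]
  rw [W.ord_mul hh (Finset.prod_ne_zero_iff.2 hne), ord_prod' W _ _ hne]
  unfold vv
  rw [Finset.sum_add_distrib]
  have h1 : ∑ x, W.ord (algebraMap k L a - τ x) = ∑ x, W.ord (τ x - algebraMap k L a) := by
    refine Finset.sum_congr rfl fun x _ => ?_
    rw [← neg_sub (τ x), W.ord_neg]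
  rw [h1]
  ring

/-- the contacts of the roots with a constant, over the ground field -/
theorem RD.sum_vv [Infinite k] {κ : Type} [Fintype κ] [DecidableEq κ] {F : K[X]} {n : ℕ}
    {τ : κ → L} (R : RD F n κ τ) {W : Place k L} {P : Place k K} {e : ℕ}
    (hWP : Over W P e) {a : k} (ha : F.eval (algebraMap k K a) ≠ 0) :
    (∀ x, τ x ≠ algebraMap k L a) ∧ ∑ x, vv W (τ x) a = e * ct P F a := by
  have hra : ∀ x, τ x ≠ algebraMap k L a := by
    intro x h0
    have h1 := R.root x
    rw [h0, IsScalarTower.algebraMap_apply k K L, aeval_algebraMap_apply, map_eq_zero,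
      coe_aeval_eq_eval] at h1
    exact ha h1
  refine ⟨hra, ?_⟩
  rw [Pool.Agent.H910.Dsc.sum_vv W R.lead hra, ← R.eq, cnt_map hWP R.ne,
    IsScalarTower.algebraMap_apply k K L, eval_map_apply, hWP.2]
  unfold ct
  ring

/-- Two roots near the same constant are near each other. -/
theorem mm_pos_of_vv {W : Place k L} {x y : L} {a : k} (hxy : x ≠ y)
    (hx : x ≠ algebraMap k L a) (hy : y ≠ algebraMap k L a) (h1 : 0 < vv W x a)
    (h2 : 0 < vv W y a) : 0 < mm W x y := by
  have t1 := tau_of_vv W hx h1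
  have t2 := tau_of_vv W hy h2
  unfold vv at h1 h2
  rw [t1, add_zero] at h1
  rw [t2, add_zero] at h2
  have h3 : Ge W 1 (x - algebraMap k L a) := Or.inr (by omega)
  have h4 : Ge W 1 (y - algebraMap k L a) := Or.inr (by omega)
  have h5 := (h3.sub h4).resolve_left (by
    rw [sub_sub_sub_cancel_right]
    exact sub_ne_zero.2 hxy)
  rw [sub_sub_sub_cancel_right] at h5
  unfold mm
  rw [t1, t2]
  omega

/-- If the discriminant is a unit, a constant is near at most one root. -/
theorem RD.vv_eq [CharZero k] {κ : Type} [Fintype κ] [DecidableEq κ] {F : K[X]} {n : ℕ}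
    {τ : κ → L} (R : RD F n κ τ) {W : Place k L} {P : Place k K} {e : ℕ}
    (hWP : Over W P e) (h0 : dct P n F = 0) {a : k} (ha : F.eval (algebraMap k K a) ≠ 0)
    {x : κ} (hx : 0 < vv W (τ x) a) : vv W (τ x) a = e * ct P F a := by
  have hinf : Infinite k := inferInstance
  obtain ⟨hra, hsum⟩ := R.sum_vv hWP ha
  rw [← hsum]
  symm
  refine Finset.sum_eq_single x (fun y _ hy => ?_) (fun h => absurd (Finset.mem_univ x) h)
  by_contra hne
  have h1 : 0 < vv W (τ y) a := lt_of_le_of_ne (vv_nonneg W (hra y)) (Ne.symm hne)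
  have h2 := mm_pos_of_vv (fun h => hy (R.inj h)) (hra y) (hra x) h1 hx
  rw [R.mm_zero hWP h0 hy] at h2
  exact lt_irrefl _ h2

end more

end Pool.Agent.H910.Dsc
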