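import Pool.Graph.R_seed8.Y190.AN.RsE
import Pool.Graph.R_seed8.Y618.SC.AnA

/-!
Monomials in analytic functions near infinity: a pointwise bound and a bound for the orders give
that the quotients are meromorphic at infinity (adapted from `Pool.Agent.Y190.AN.core_rs` and
`Pool.Agent.Y618.SA.core3`).
-/

set_option autoImplicit false

namespace Pool.Agent.H910.Dsc

open Filter Metric Real Set Topology
open Pool.Agent.H159R3.NV Pool.Agent.W602.NC Pool.Agent.W602.TL Pool.Agent.W601.SM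
  Pool.Agent.W601.PH Pool.Agent.Y216 Pool.Agent.W603.BP Pool.Agent.Y190.AN
open Pool.Agent.Y618.SA (circle3)

theorem prod_le_mono {O : Type} [Fintype O] {x y : O → ℝ} {Z : ℝ} (hx : ∀ o, 0 ≤ x o)
    (h : ∀ o, x o ≤ Z * y o) (α : O → ℕ) :
    ∏ o, x o ^ α o ≤ Z ^ (∑ o, α o) * ∏ o, y o ^ α o := by
  rw [← Finset.prod_pow_eq_pow_sum, ← Finset.prod_mul_distrib]
  refine Finset.prod_le_prod (fun o _ => pow_nonneg (hx o) _) fun o _ => ?_
  rw [← mul_pow]
  exact pow_le_pow_left₀ (hx o) (h o) _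

/-- **Monomials near infinity.** -/
theorem core_mono {O : Type} [Fintype O] [DecidableEq O] {p : ℕ} {r0 : ℝ} (hr0 : 0 < r0)
    (f : O → ℂ → ℂ) (hf : ∀ o, AnalyticOnNhd ℂ (f o) (Ext r0))
    (hne : ∀ o, ∃ z ∈ Ext r0, f o z ≠ 0) (α β : O → ℕ) (γ : Fin (p + 1) → O → ℕ)
    (hord : ∀ z ∈ Ext r0, ∀ b : O → ℕ, (∀ o, analyticOrderAt (f o) z = b o) →
      ∑ o, β o * b o ≤ ∑ o, α o * b o)
    {C : ℝ} (hC : 1 ≤ C) (D : ℕ)
    (hpt : ∀ z ε, 0 < ε → ε ≤ 1 → closedBall z ε ⊆ Ext r0 →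
      (∀ m o, γ m o ≠ 0 → ∀ w ∈ closedBall z ε, f o w ≠ 0) →
      ∀ m, (∏ o, ‖f o z‖ ^ α o) * ∏ o, ‖f o z‖ ^ γ m o ≤ C * (1 / ε) ^ D * ∏ o, ‖f o z‖ ^ β o)
    (j : Fin (p + 1)) :
    ∃ R : ℂ → ℂ, MeromorphicAt (fun w => R w⁻¹) 0 ∧ ∃ R0 : ℝ, ∀ z, R0 < ‖z‖ →
      ∏ o, f o z ^ γ j o = R z * ∏ o, f o z ^ γ 0 o := by
  classical
  -- the annulus
  obtain ⟨hG1, hG2⟩ := prod_ne hr0 Finset.univ f (fun o _ => hf o) fun o _ => hne o
  set r' : ℝ := max r0 1 with hr'
  have hr'0 : 0 < r' := lt_of_lt_of_le hr0 (le_max_left _ _)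
  have hG3 := ne_on_smaller hr0 (le_max_left r0 1) hG1 hG2
  obtain ⟨r1, r2, h01, h12, hfree⟩ := annulus hr'0 (hG1.mono (Ext_mono (le_max_left r0 1))) hG3
  obtain ⟨a, h1a, ha2⟩ := exists_between h12
  have hr1 : 1 < r1 := lt_of_le_of_lt (le_max_right _ _) h01
  have hr01 : r0 < r1 := lt_of_le_of_lt (le_max_left _ _) h01
  have ha1 : 1 ≤ a := by linarith
  have ha0 : 0 < a := by linarith
  have hra : r0 ≤ a := by linarith
  have hEa : Ext a ⊆ Ext r0 := Ext_mono hra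
  have hbv := fun o => birkhoff (F := f o) (by linarith : (0 : ℝ) ≤ r1) h1a ha2
    ((hf o).differentiableOn.mono (Ext_mono hr01.le)) (fun z h1 h2 =>
      Finset.prod_ne_zero_iff.mp (hfree z h1 h2) o (Finset.mem_univ o))
  choose k q G hq hG hG0 hvG using hbv
  let H : O → ℂ → ℂ := fun o z => z ^ k o * Complex.exp (q o z⁻¹)
  have hH : ∀ o, Tame a (H o) := fun o => tame_of ha1 (k o) (hq o)
  have hvH : ∀ o, ∀ z ∈ Ext a, f o z = H o z * G o z := fun o z hz => hvG o z hz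
  obtain ⟨C0, hC0, κ0, hbd, -⟩ := tame_uni H hH
  -- the entire functions
  let g : Fin (p + 1) → ℂ → ℂ := fun m z => ∏ o, G o z ^ γ m o
  have hG00 : ∀ o, G o 0 ≠ 0 := fun o => hG0 o 0 (by simpa using ha0.le)
  have hmonD : ∀ δ : O → ℕ, Differentiable ℂ fun z => ∏ o, G o z ^ δ o := fun δ =>
    Differentiable.fun_finsetProd fun o _ => (hG o).pow _
  have hmon0 : ∀ (δ : O → ℕ) (z : ℂ), (∀ o, G o z ≠ 0) → ∏ o, G o z ^ δ o ≠ 0 := fun δ z h =>
    Finset.prod_ne_zero_iff.mpr fun o _ => pow_ne_zero _ (h o)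
  have hg : ∀ m, Differentiable ℂ (g m) := fun m => hmonD _
  have hg0 : ∀ m, g m 0 ≠ 0 := fun m => hmon0 _ _ hG00
  set T : ℕ := ∑ o, α o + ∑ o, β o + ∑ m, ∑ o, γ m o with hT
  have hmain := circle3 (p := p) (d := D) (K := κ0 * T) (C := C0 ^ T * C) (a := a + 2)
    (one_le_mul_of_one_le_of_one_le (one_le_pow₀ hC0) hC) (by linarith) hg
    (P := fun z => ∏ o, G o z ^ α o) (Q := fun z => ∏ o, G o z ^ β o) (hmonD α)
    (hmon0 _ _ hG00) (hmonD β) (hmon0 _ _ hG00) ?_ ?_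
  rotate_left
  · -- orders
    intro z
    by_cases hz : z ∈ Ext a
    · have hzr := hEa hz
      have hev := (Ext_open a).mem_nhds hz
      have hfin : ∀ o, ∃ n : ℕ, analyticOrderAt (f o) z = n := by
        intro o
        have h1 : analyticOrderAt (f o) z ≠ ⊤ := by
          intro h0
          obtain ⟨z2, hz2, h2⟩ := hne o
          exact h2 ((hf o).eqOn_zero_of_preconnected_of_eventuallyEq_zero (Ext_preconn hr0)
            hzr (analyticOrderAt_eq_top.mp h0) hz2)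
        obtain ⟨n, hn⟩ := ENat.ne_top_iff_exists.mp h1
        exact ⟨n, hn.symm⟩
      choose b hb using hfin
      have hunit : ∀ o, analyticOrderAt (G o) z = b o := by
        intro o
        rw [← hb o]
        have e1 : f o =ᶠ[𝓝 z] H o * G o := by
          filter_upwards [hev] with w hw
          exact hvH o w hw
        rw [analyticOrderAt_congr e1, analyticOrderAt_mul ((hH o).an z hz) ((hG o).analyticAt z),
          ((hH o).an z hz).analyticOrderAt_eq_zero.mpr ((hH o).ne z hz), zero_add]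
      have hmono : ∀ δ : O → ℕ, analyticOrderAt (fun z => ∏ o, G o z ^ δ o) z =
          ((∑ o, δ o * b o : ℕ) : ℕ∞) := by
        intro δ
        rw [analyticOrder_prod Finset.univ (fun o z => G o z ^ δ o)
          (fun o _ => ((hG o).analyticAt z).fun_pow _), Nat.cast_sum]
        refine Finset.sum_congr rfl fun o _ => ?_
        have e : (fun z => G o z ^ δ o) = G o ^ δ o := rfl
        rw [e, analyticOrderAt_pow ((hG o).analyticAt z), nsmul_eq_mul, hunit, Nat.cast_mul]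
      rw [hmono, hmono]
      exact_mod_cast hord z hzr b hb
    · have hza : ‖z‖ ≤ a := not_lt.mp hz
      have h1 : analyticOrderAt (fun z => ∏ o, G o z ^ β o) z = 0 := by
        apply AnalyticAt.analyticOrderAt_eq_zero ((hmonD β).analyticAt z) |>.mpr
        exact hmon0 _ _ fun o => hG0 o z hza
      rw [h1]
      exact bot_le
  · -- the pointwise bound
    intro z ε haz hε hε1 hgood
    have hz1' : 1 ≤ ‖z‖ := by linarith
    have hballE : ∀ y ∈ closedBall z ε, y ∈ Ext a := by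
      intro y hy
      rw [mem_closedBall, dist_eq_norm] at hy
      have : ‖z‖ ≤ ‖y‖ + 1 := by
        calc ‖z‖ = ‖y - (y - z)‖ := by congr 1; ring
          _ ≤ ‖y‖ + ‖y - z‖ := norm_sub_le _ _
          _ ≤ _ := by linarith
      change a < ‖y‖
      linarith
    have hzm : z ∈ closedBall z ε := mem_closedBall_self hε.le
    have hzE : z ∈ Ext a := hballE z hzm
    set Z : ℝ := C0 * ‖z‖ ^ κ0 with hZ
    have hZ1 : 1 ≤ Z := one_le_mul_of_one_le_of_one_le hC0 (one_le_pow₀ hz1')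
    have hZ0 : 0 ≤ Z := by linarith
    have hlow : ∀ o, ‖G o z‖ ≤ Z * ‖f o z‖ := by
      intro o
      have h1 := (hbd o z (by linarith) hz1').2
      rw [hvH o z hzE, norm_mul]
      calc ‖G o z‖ = 1 * ‖G o z‖ := (one_mul _).symm
        _ ≤ (C0 * ‖z‖ ^ κ0 * ‖H o z‖) * ‖G o z‖ := mul_le_mul_of_nonneg_right h1 (norm_nonneg _)
        _ = _ := by rw [hZ]; ring
    have hup : ∀ o, ‖f o z‖ ≤ Z * ‖G o z‖ := by
      intro o
      have h1 := (hbd o z (by linarith) hz1').1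
      rw [hvH o z hzE, norm_mul]
      exact mul_le_mul_of_nonneg_right h1 (norm_nonneg _)
    have hnv : ∀ m o, γ m o ≠ 0 → ∀ w ∈ closedBall z ε, f o w ≠ 0 := by
      intro m o hmo w hw
      have h1 := hgood.1 m w hw
      have h2 := Finset.prod_ne_zero_iff.mp h1 o (Finset.mem_univ o)
      have h3 := (pow_ne_zero_iff hmo).mp h2
      rw [hvH o w (hballE w hw)]
      exact mul_ne_zero ((hH o).ne w (hballE w hw)) h3
    obtain ⟨m, hm⟩ := sup_attained g z
    have hp := hpt z ε hε hε1 (fun y hy => hEa (hballE y hy)) hnv m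
    have hn : ∀ δ : O → ℕ, ‖∏ o, G o z ^ δ o‖ = ∏ o, ‖G o z‖ ^ δ o := by
      intro δ
      simp only [norm_prod, norm_pow]
    have hgm : ‖g m z‖ = ∏ o, ‖G o z‖ ^ γ m o := hn _
    rw [hm, hgm, hn, hn]
    have k1 := prod_le_mono (fun o => norm_nonneg (G o z)) hlow α
    have k2 := prod_le_mono (fun o => norm_nonneg (G o z)) hlow (γ m)
    have k3 := prod_le_mono (fun o => norm_nonneg (f o z)) hup β
    have hγT : ∑ o, α o + ∑ o, γ m o + ∑ o, β o ≤ T := by
      have := Finset.single_le_sum (f := fun m => ∑ o, γ m o) (fun _ _ => Nat.zero_le _)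
        (Finset.mem_univ m)
      rw [hT]
      omega
    have hε' : 0 ≤ 1 / ε := by positivity
    have hC' : 0 ≤ C := by linarith
    calc (∏ o, ‖G o z‖ ^ α o) * ∏ o, ‖G o z‖ ^ γ m o
        ≤ (Z ^ (∑ o, α o) * ∏ o, ‖f o z‖ ^ α o) * (Z ^ (∑ o, γ m o) * ∏ o, ‖f o z‖ ^ γ m o) :=
          mul_le_mul k1 k2 (Finset.prod_nonneg fun _ _ => by positivity)
            (mul_nonneg (by positivity) (Finset.prod_nonneg fun _ _ => by positivity))
      _ = Z ^ (∑ o, α o + ∑ o, γ m o) *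
            ((∏ o, ‖f o z‖ ^ α o) * ∏ o, ‖f o z‖ ^ γ m o) := by rw [pow_add]; ring
      _ ≤ Z ^ (∑ o, α o + ∑ o, γ m o) * (C * (1 / ε) ^ D * ∏ o, ‖f o z‖ ^ β o) :=
          mul_le_mul_of_nonneg_left hp (by positivity)
      _ ≤ Z ^ (∑ o, α o + ∑ o, γ m o) * (C * (1 / ε) ^ D *
            (Z ^ (∑ o, β o) * ∏ o, ‖G o z‖ ^ β o)) :=
          mul_le_mul_of_nonneg_left (mul_le_mul_of_nonneg_left k3 (by positivity)) (by positivity)
      _ = Z ^ (∑ o, α o + ∑ o, γ m o + ∑ o, β o) *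
            (C * (1 / ε) ^ D * ∏ o, ‖G o z‖ ^ β o) := by rw [pow_add _ (_ + _)]; ring
      _ ≤ Z ^ T * (C * (1 / ε) ^ D * ∏ o, ‖G o z‖ ^ β o) :=
          mul_le_mul_of_nonneg_right (pow_le_pow_right₀ hZ1 hγT)
            (mul_nonneg (by positivity) (Finset.prod_nonneg fun _ _ => by positivity))
      _ = C0 ^ T * C * ‖z‖ ^ (κ0 * T) * (1 / ε) ^ D * ∏ o, ‖G o z‖ ^ β o := by
          rw [hZ, mul_pow, ← pow_mul]
          ring
  · obtain ⟨Λ, K1, K2, hBase, hK2, hgr⟩ := log_growth2 hg hg0 (by linarith : (1 : ℝ) ≤ a + 2) hmain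
    obtain ⟨R, hR, R0, hRe⟩ := quot_rational hBase hK2 (by linarith : (1 : ℝ) ≤ a + 2) hgr j
    have hHm : ∀ o, MeromorphicAt (fun w => H o w⁻¹) 0 := fun o => unit_mero ha0 (k _) (hq _)
    refine ⟨fun z => ((∏ o, H o z ^ γ j o) / ∏ o, H o z ^ γ 0 o) * R z, ?_, max R0 a, ?_⟩
    · apply MeromorphicAt.fun_mul _ hR
      have hpm : ∀ δ : O → ℕ, MeromorphicAt (fun w => ∏ o, H o w⁻¹ ^ δ o) 0 := fun δ =>
        MeromorphicAt.fun_prod fun o _ => (hHm o).fun_pow _
      exact (hpm _).fun_div (hpm _)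
    · intro z hz
      have hz1 : R0 < ‖z‖ := lt_of_le_of_lt (le_max_left _ _) hz
      have hzE : z ∈ Ext a := lt_of_le_of_lt (le_max_right _ _) hz
      have e1 : ∀ δ : O → ℕ, ∏ o, f o z ^ δ o = (∏ o, H o z ^ δ o) * ∏ o, G o z ^ δ o := by
        intro δ
        rw [← Finset.prod_mul_distrib]
        exact Finset.prod_congr rfl fun o _ => by rw [hvH o z hzE, mul_pow]
      rw [e1, e1]
      have h3 : ∏ o, G o z ^ γ j o = R z * ∏ o, G o z ^ γ 0 o := hRe z hz1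
      have h4 : ∏ o, H o z ^ γ 0 o ≠ 0 :=
        Finset.prod_ne_zero_iff.mpr fun o _ => pow_ne_zero _ ((hH o).ne z hzE)
      rw [h3]
      field_simp

end Pool.Agent.H910.Dsc
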