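import Pool.Agent.H910.Dsc.PI
import Pool.Graph.R_seed8.Y190.AN.Ram
import Pool.Graph.R_seed8.Helper386.D5V.Helper399_FF4

/-!
The orders of the resultant of a binary form with its derivative.
-/

set_option autoImplicit false
set_option linter.unusedSectionVars false

open FF Polynomial Filter Topology Set Metric

namespace Pool.Agent.H910.Dsc

open Pool.Agent.Y190.BV Pool.Agent.Y216 Pool.Agent.W603.LV Pool.Agent.W602.GT

section field

variable {k K L : Type} [Field k] [Field K] [Field L] [Algebra k K] [Algebra k L] [Algebra K L]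
  [IsScalarTower k K L]

/-- If the contact with the discriminant vanishes, it vanishes for all factors. -/
theorem dct_zero_of_roots [CharZero k] {κ κ' : Type} [Fintype κ] [DecidableEq κ] [Fintype κ']
    [DecidableEq κ'] {H F : K[X]} {n n' : ℕ} {τ : κ → L} {τ' : κ' → L} (R : RD H n κ τ)
    (R' : RD F n' κ' τ') (hc : Fintype.card κ' = n' + 1) (hdvd : F ∣ H) {W : Place k L}
    {P : Place k K} {e : ℕ} (hWP : Over W P e) (h0 : dct P n H = 0) : dct P n' F = 0 := by
  have hex : ∀ x : κ', ∃ y : κ, τ y = τ' x := by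
    intro x
    have h1 : aeval (τ' x) H = 0 := by
      obtain ⟨Q, hQ⟩ := hdvd
      rw [hQ, map_mul, R'.root, zero_mul]
    rw [← eval_map_algebraMap, R.eq] at h1
    unfold pr at h1
    rw [eval_mul, eval_C, eval_prod] at h1
    obtain ⟨y, -, hy⟩ := Finset.prod_eq_zero_iff.1 ((mul_eq_zero.1 h1).resolve_left R.lead)
    rw [eval_sub, eval_X, eval_C, sub_eq_zero] at hy
    exact ⟨y, hy.symm⟩
  choose φ hφ using hex
  have h1 : (e : ℤ) * dct P n' F = 0 := by
    rw [← dct_map hWP R'.ne, R'.eq, (dct_pr W R'.lead R'.inj hc).2]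
    refine Finset.sum_eq_zero fun x _ => Finset.sum_eq_zero fun y hy => ?_
    rw [← hφ x, ← hφ y]
    refine R.mm_zero hWP h0 fun hxy => ?_
    have h2 : τ' x = τ' y := by rw [← hφ x, ← hφ y, hxy]
    exact (Finset.ne_of_mem_erase hy) (R'.inj h2).symm
  have h3 : (e : ℤ) ≠ 0 := by exact_mod_cast hWP.1.ne'
  exact (mul_eq_zero.1 h1).resolve_left h3

/-- the derivative of a root -/
theorem der_root {n : ℕ} {y : Fin (n + 1) → K} {D : Derivation k K K} {E : Derivation k L L}
    (hE : ∀ x : K, E (algebraMap K L x) = algebraMap K L (D x)) {t : L}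
    (ht : aeval t (pol y) = 0) :
    ((pol fun j => D (y j)).map (algebraMap K L)).eval t =
      -((derivative ((pol y).map (algebraMap K L))).eval t * E t) := by
  have h1 : E (∑ j : Fin (n + 1), algebraMap K L (y j) * t ^ (j : ℕ)) = 0 := by
    have h2 : ∑ j : Fin (n + 1), algebraMap K L (y j) * t ^ (j : ℕ) = aeval t (pol y) := by
      rw [← eval_map_algebraMap, map_pol, pol_eval]
    rw [h2, ht, map_zero]
  rw [map_sum] at h1
  have h2 : ∀ j : Fin (n + 1), E (algebraMap K L (y j) * t ^ (j : ℕ)) =
      algebraMap K L (D (y j)) * t ^ (j : ℕ) +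
        algebraMap K L (y j) * ((j : ℕ) * t ^ ((j : ℕ) - 1)) * E t := by
    intro j
    rw [E.leibniz, E.leibniz_pow, hE]
    simp only [smul_eq_mul, nsmul_eq_mul]
    ring
  rw [Finset.sum_congr rfl fun j _ => h2 j, Finset.sum_add_distrib, ← Finset.sum_mul] at h1
  rw [map_pol, map_pol, pol_eval, pol_der_eval]
  linear_combination h1

end field

/-- **The order of the resultant with the derivative.** -/
theorem ord_res {k K : Type} [Field k] [Field K] [Algebra k K] [CharZero k] {P : Place k K}
    {D : Derivation k K K} (hD : DerReg P D) {e : ℕ} {y : Fin (e + 2) → K}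
    (hl : y (Fin.last _) ≠ 0) (hsq : Squarefree (pol y))
    (hroot : ∀ b : k, (pol y).eval (algebraMap k K b) ≠ 0) {q : ℕ} {a : Fin q → k}
    (ha : Function.Injective a) (hR : Rs y (fun j => D (y j)) ≠ 0) :
    2 * ((e : ℤ) + 1) * cnt P (pol y) + dct P e (pol y) + ∑ i, ct P (pol y) (a i) - ((e : ℤ) + 1) ≤
      P.ord (Rs y fun j => D (y j)) ∧
    (dct P e (pol y) = 0 → 2 * ((e : ℤ) + 1) * cnt P (pol y) +
      ∑ i, (ct P (pol y) (a i) - if 0 < ct P (pol y) (a i) then 1 else 0) ≤
        P.ord (Rs y fun j => D (y j))) := by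
  classical
  have hchK : CharZero K := charZero_of_injective_algebraMap (algebraMap k K).injective
  have hinf : Infinite k := inferInstance
  have hdeg : (pol y).natDegree = e + 1 := natDegree_pol hl
  have hne : pol y ≠ 0 := hsq.ne_zero
  have hsep : (pol y).Separable := PerfectField.separable_iff_squarefree.2 hsq
  let L := (pol y).SplittingField
  have hgal : IsGalois K L := IsGalois.of_separable_splitting_field hsep
  have hcL : CharZero L := charZero_of_injective_algebraMap (algebraMap k L).injective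
  obtain ⟨r, hr, -, hcoef⟩ := exists_roots (L := L) (pol y) hsep
    (Polynomial.SplittingField.splits _)
  have hRD : RD (pol y) e (Fin (pol y).natDegree) r := by
    refine ⟨hr, ?_, hne, Or.inl ?_⟩
    · ext j
      rw [coeff_map, hcoef j]
      unfold pr
      rw [coeff_C_mul]
    · rw [Fintype.card_fin, hdeg]
  have hc : Fintype.card (Fin (pol y).natDegree) = e + 1 := by rw [Fintype.card_fin, hdeg]
  obtain ⟨E, hE⟩ := exists_ext (L := L) D
  obtain ⟨S, T', _, hT, hsum⟩ := exists_places_over (K' := L) P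
  have hSne : S.Nonempty := by
    by_contra hcon
    rw [Finset.not_nonempty_iff_eq_empty] at hcon
    rw [hcon, Finset.sum_empty] at hsum
    have : 0 < Module.finrank K L := Module.finrank_pos
    omega
  obtain ⟨W, hW⟩ := hSne
  obtain ⟨e0, hWP, _⟩ := hT W hW
  set h : L := algebraMap K L (pol y).leadingCoeff with hh
  have hh0 : h ≠ 0 := hRD.lead
  -- the identity
  have hder : ∀ x, ((pol fun j => D (y j)).map (algebraMap K L)).eval (r x) =
      -((derivative (pr h r)).eval (r x) * E (r x)) := by
    intro x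
    rw [der_root hE (hRD.root x), hRD.eq]
  have hres := res_der hh0 r hc ((natDegree_map_le).trans (natDegree_pol_le _))
    (fun x => E (r x)) hder
  have hRs : resultant (pr h r) ((pol fun j => D (y j)).map (algebraMap K L)) (e + 1) (e + 1) =
      algebraMap K L (Rs y fun j => D (y j)) := by
    rw [hh, ← hRD.eq, resultant_map_map]
    rfl
  rw [hRs] at hres
  have hn : ((e + 1 : ℕ) : L) ≠ 0 := by exact_mod_cast Nat.succ_ne_zero e
  have hRL : algebraMap K L (Rs y fun j => D (y j)) ≠ 0 := (_root_.map_ne_zero _).2 hR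
  have hnn : (-1 : L) ^ (e + 1) * ((e + 1 : ℕ) : L) ≠ 0 :=
    mul_ne_zero (pow_ne_zero _ (neg_ne_zero.2 one_ne_zero)) hn
  have hds : dsf e (pr h r) ≠ 0 := dsf_ne hh0 hr (Or.inl hc)
  have hprod : ∏ x, E (r x) ≠ 0 := by
    intro h0
    rw [h0, mul_zero] at hres
    exact mul_ne_zero (pow_ne_zero _ hn) hRL hres
  have hEx : ∀ x ∈ (Finset.univ : Finset (Fin (pol y).natDegree)), E (r x) ≠ 0 :=
    Finset.prod_ne_zero_iff.1 hprod
  have h2 := congrArg W.ord hres
  rw [W.ord_mul (pow_ne_zero _ hn) hRL, W.ord_pow, ord_natCast W (Nat.succ_ne_zero e), hWP.2,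
    W.ord_mul (mul_ne_zero (mul_ne_zero hnn (pow_ne_zero _ hh0)) hds) hprod,
    W.ord_mul (mul_ne_zero hnn (pow_ne_zero _ hh0)) hds, W.ord_mul hnn (pow_ne_zero _ hh0),
    W.ord_mul (pow_ne_zero _ (neg_ne_zero.2 one_ne_zero)) hn, W.ord_pow, W.ord_neg_one,
    ord_natCast W (Nat.succ_ne_zero e), W.ord_pow, ord_prod' W _ _ hEx] at h2
  -- the estimates
  have hra : ∀ x i, r x ≠ algebraMap k L (a i) := fun x i => (hRD.sum_vv hWP (hroot (a i))).1 x
  have hcnt : (e0 : ℤ) * cnt P (pol y) = W.ord h - ∑ x, tau W (r x) := by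
    rw [← cnt_map hWP hne, hRD.eq, cnt_pr W hh0]
  have hctv : ∀ i, ∑ x, vv W (r x) (a i) = e0 * ct P (pol y) (a i) := fun i =>
    (hRD.sum_vv hWP (hroot (a i))).2
  have hdct : W.ord (dsf e (pr h r)) = e0 * dct P e (pol y) + 2 * e * (e0 * cnt P (pol y)) := by
    rw [← dct_map hWP hne, ← cnt_map hWP hne, hRD.eq]
    unfold dct
    ring
  rw [hdct] at h2
  have h3 : (0 : ℤ) < e0 := by exact_mod_cast hWP.1
  have hcore : ∀ lo : Fin (pol y).natDegree → ℤ,
      (∀ x, ∑ i, vv W (r x) (a i) - 2 * tau W (r x) - lo x ≤ W.ord (E (r x))) →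
      (e0 : ℤ) * (2 * ((e : ℤ) + 1) * cnt P (pol y) + dct P e (pol y) +
        ∑ i, ct P (pol y) (a i)) - ∑ x, lo x ≤ e0 * P.ord (Rs y fun j => D (y j)) := by
    intro lo hlo
    have hsumE := Finset.sum_le_sum
      fun x (_ : x ∈ (Finset.univ : Finset (Fin (pol y).natDegree))) => hlo x
    rw [Finset.sum_sub_distrib, Finset.sum_sub_distrib, Finset.sum_comm, ← Finset.mul_sum,
      Finset.sum_congr rfl fun i _ => hctv i, ← Finset.mul_sum] at hsumE
    push_cast at h2
    linarith
  constructor
  · have h4 := hcore (fun _ => e0) fun x => by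
      have h1 := (der_near (b := true) hWP hD hE ha (hra x)).resolve_left
        (hEx x (Finset.mem_univ _))
      simpa using h1
    rw [Finset.sum_const, Finset.card_univ, hc, nsmul_eq_mul] at h4
    refine le_of_mul_le_mul_left ?_ h3
    push_cast at h4
    linarith
  · intro hd0
    have h4 := hcore (fun x => if ∃ i, 0 < vv W (r x) (a i) then (e0 : ℤ) else 0) fun x => by
      by_cases hex : ∃ i, 0 < vv W (r x) (a i)
      · rw [if_pos hex]
        have h1 := (der_near (b := true) hWP hD hE ha (hra x)).resolve_left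
          (hEx x (Finset.mem_univ _))
        simpa using h1
      · rw [if_neg hex]
        push Not at hex
        rw [Finset.sum_eq_zero fun i _ => le_antisymm (hex i) (vv_nonneg W (hra x i))]
        have h1 := (hRD.der_good hWP hd0 hD hE x).resolve_left (hEx x (Finset.mem_univ _))
        linarith
    have h5 : ∑ x, (if ∃ i, 0 < vv W (r x) (a i) then (e0 : ℤ) else 0) ≤
        ∑ i, (if 0 < ct P (pol y) (a i) then (e0 : ℤ) else 0) := by
      calc ∑ x, (if ∃ i, 0 < vv W (r x) (a i) then (e0 : ℤ) else 0)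
          ≤ ∑ x, ∑ i, (if 0 < vv W (r x) (a i) then (e0 : ℤ) else 0) := by
            refine Finset.sum_le_sum fun x _ => ?_
            have h6 : ∀ i ∈ (Finset.univ : Finset (Fin q)),
                0 ≤ (if 0 < vv W (r x) (a i) then (e0 : ℤ) else 0) := fun i _ => by
              split_ifs
              · exact h3.le
              · exact le_rfl
            by_cases hex : ∃ i, 0 < vv W (r x) (a i)
            · rw [if_pos hex]
              obtain ⟨i, hi⟩ := hex
              refine le_trans ?_ (Finset.single_le_sum h6 (Finset.mem_univ i))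
              rw [if_pos hi]
            · rw [if_neg hex]
              exact Finset.sum_nonneg h6
        _ = ∑ i, ∑ x, (if 0 < vv W (r x) (a i) then (e0 : ℤ) else 0) := Finset.sum_comm
        _ ≤ _ := by
            refine Finset.sum_le_sum fun i _ => ?_
            by_cases hex : ∃ x, 0 < vv W (r x) (a i)
            · obtain ⟨x, hx⟩ := hex
              have h7 := hRD.vv_eq hWP hd0 (hroot (a i)) hx
              have h8 : 0 < ct P (pol y) (a i) := by
                rw [h7] at hx
                exact pos_of_mul_pos_right hx h3.le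
              rw [if_pos h8, Finset.sum_eq_single x]
              · rw [if_pos hx]
              · intro x' _ hx'
                rw [if_neg]
                intro hx2
                have h9 := mm_pos_of_vv (fun h => hx' (hRD.inj h)) (hra x' i) (hra x i) hx2 hx
                rw [hRD.mm_zero hWP hd0 hx'] at h9
                exact lt_irrefl _ h9
              · intro h
                exact absurd (Finset.mem_univ x) h
            · push Not at hex
              rw [Finset.sum_eq_zero fun x _ => if_neg (not_lt.2 (hex x))]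
              split_ifs
              · exact h3.le
              · exact le_rfl
    have h6 : ∑ i, (if 0 < ct P (pol y) (a i) then (e0 : ℤ) else 0) =
        e0 * ∑ i, (if 0 < ct P (pol y) (a i) then (1 : ℤ) else 0) := by
      rw [Finset.mul_sum]
      exact Finset.sum_congr rfl fun i _ => by split_ifs <;> ring
    rw [Finset.sum_sub_distrib]
    refine le_of_mul_le_mul_left ?_ h3
    rw [hd0] at h4
    rw [h6] at h5
    linarith

open Pool.Agent.Y190.AN

/-- the derivation is regular -/
theorem derReg_PL {D : Dm} {z : ℂ} (hz : z ∈ D.U) : DerReg (PL hz) (MDer D) := by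
  intro x hx
  obtain ⟨f, hf, rfl⟩ := cl_surj x
  by_cases h0 : cl f hf = 0
  · rw [h0, map_zero]
    exact Or.inl rfl
  rcases hx with hx | hx
  · exact absurd hx h0
  rw [MDer_apply, MD_cl]
  by_cases h0' : cl (deriv f) hf.deriv = 0
  · exact Or.inl h0'
  right
  rw [PL_cl hf hz] at hx
  rw [PL_cl hf.deriv hz]
  obtain ⟨n, hn⟩ := WithTop.ne_top_iff_exists.1 (cl_ne_zero h0 z hz)
  rw [← hn] at hx
  have hn0 : 0 ≤ n := hx
  obtain ⟨g, hg, -, hfg⟩ := (meromorphicOrderAt_eq_int_iff (hf z hz)).1 hn.symm
  obtain ⟨m, rfl⟩ := Int.eq_ofNat_of_zero_le hn0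
  have hga : AnalyticAt ℂ (fun w => (w - z) ^ m * g w) z :=
    ((analyticAt_id.fun_sub analyticAt_const).fun_pow m).fun_mul hg
  have hev : ∀ᶠ w in 𝓝[≠] z, f w = (w - z) ^ m * g w := by
    filter_upwards [hfg] with w hw
    rw [hw, zpow_natCast, smul_eq_mul]
  have h1 := deriv_ev hev
  have h2 : meromorphicOrderAt (deriv f) z =
      meromorphicOrderAt (deriv fun w => (w - z) ^ m * g w) z := meromorphicOrderAt_congr h1
  rw [h2]
  have h3 := hga.deriv.meromorphicOrderAt_nonneg
  have h4 := cl_ne_zero h0' z hz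
  rw [h2] at h4
  obtain ⟨n', hn'⟩ := WithTop.ne_top_iff_exists.1 h4
  rw [← hn'] at h3 ⊢
  exact_mod_cast h3

end Pool.Agent.H910.Dsc
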