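import Pool.Agent.H910.Dsc.Frm

/-!
Function fields with a binary form whose contact orders with constants and with the discriminant
satisfy a condition on their sums are of log general type.
-/

set_option autoImplicit false

open FF Pool.Agent.W603.LV Pool.Agent.W602.GT Polynomial

namespace Pool.Agent.H910.Dsc

open Pool.Agent.Y190.BV Pool.Agent.Y216 Pool.Agent.Y190.SC

/-- A form with nonzero discriminant is squarefree. -/
theorem sqf_of_dsf {K : Type} [Field K] {n : ℕ} {H : K[X]} (hH : H ≠ 0) (hdeg : H.natDegree ≤ n + 1)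
    (h : dsf n H ≠ 0) : Squarefree H ∧ n ≤ H.natDegree := by
  have h1 := eq_pol hdeg
  have h2 : bdisc (fun j : Fin (n + 2) => H.coeff j) ≠ 0 := by
    rw [bdisc_eq, ← h1]
    exact h
  have h3 : (fun j : Fin (n + 2) => H.coeff j) ≠ 0 := by
    intro h0
    apply hH
    rw [h1, h0]
    unfold pol
    simp
  have h4 := sqf_of_bdisc h3 h2
  rwa [← h1] at h4

/-- the root data of a form with nonzero discriminant -/
theorem exists_rd {K L : Type} [Field K] [Field L] [Algebra K L] [CharZero K] {n : ℕ} {H : K[X]}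
    (hH : H ≠ 0) (hdeg : H.natDegree ≤ n + 1) (h : dsf n H ≠ 0)
    (hs : (H.map (algebraMap K L)).Splits) :
    ∃ r : Fin H.natDegree → L, RD H n (Fin H.natDegree) r := by
  obtain ⟨h1, h2⟩ := sqf_of_dsf hH hdeg h
  obtain ⟨r, hr, -, hcoef⟩ := exists_roots (L := L) H
    (PerfectField.separable_iff_squarefree.2 h1) hs
  refine ⟨r, hr, ?_, hH, ?_⟩
  · ext j
    rw [coeff_map, hcoef j]
    unfold pr
    rw [coeff_C_mul]
  · rw [Fintype.card_fin]
    omega

variable {k K : Type} [Field k] [Field K] [Algebra k K]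

/-- **Log general type.** -/
theorem core_dsc [IsAlgClosed k] [CharZero k] {w : ℕ} (hw : 1 ≤ w)
    (htr : Algebra.trdeg k K = w) {n q : ℕ}
    (a : Fin q → k) (ha : Function.Injective a) {M : ℕ} {μ c : Fin q → ℕ} {cD : ℕ}
    (hμ : ∀ i, μ i ≤ M)
    (hbound : (n + 1) * (∑ i, c i + 2 * n * cD) + 2 * M < ∑ i, μ i) (H : K[X]) (hH : H ≠ 0)
    (hdeg : H.natDegree ≤ n + 1) (hdsf : dsf n H ≠ 0)
    (halg : Algebra.IsAlgebraic (Algebra.adjoin k {x | ∃ i j, x = H.coeff i / H.coeff j}) K)
    (h0 : ∀ i, H.eval (algebraMap k K (a i)) ≠ 0)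
    (Bd : Place k K → Prop)
    (hram : ∀ P : Place k K, Divisorial w P → ¬ Bd P → DisC n M μ c cD a H P) :
    LogGeneralType k K w Bd := by
  classical
  have hchK : CharZero K := charZero_of_injective_algebraMap (algebraMap k K).injective
  have hinf : Infinite k := inferInstance
  have hl : H.leadingCoeff ≠ 0 := leadingCoeff_ne_zero.2 hH
  have hl' : H.leadingCoeff⁻¹ ≠ 0 := inv_ne_zero hl
  let H1 : K[X] := C H.leadingCoeff⁻¹ * H
  have hmon : H1.Monic := by
    rw [Polynomial.Monic.def, leadingCoeff_mul, leadingCoeff_C, inv_mul_cancel₀ hl]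
  have hdeg1 : H1.natDegree ≤ n + 1 := (natDegree_C_mul_le _ _).trans hdeg
  have hdsf1 : dsf n H1 ≠ 0 := by
    rw [dsf_C_mul]
    exact mul_ne_zero (pow_ne_zero _ hl') hdsf
  have h01 : ∀ i, H1.eval (algebraMap k K (a i)) ≠ 0 := fun i => by
    rw [eval_mul, eval_C]
    exact mul_ne_zero hl' (h0 i)
  -- the Galois extension
  have hsep : H1.Separable :=
    PerfectField.separable_iff_squarefree.2 (sqf_of_dsf hmon.ne_zero hdeg1 hdsf1).1
  let L := H1.SplittingField
  have hgal : IsGalois K L := IsGalois.of_separable_splitting_field hsep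
  obtain ⟨r, hr⟩ := exists_rd (L := L) hmon.ne_zero hdeg1 hdsf1 (Polynomial.SplittingField.splits H1)
  have hcoef : ∀ j, algebraMap K L (H.coeff j) = algebraMap K L H.leadingCoeff *
        (∏ i, (Polynomial.X - Polynomial.C (r i))).coeff j := by
    intro j
    have h1 := congrArg (fun F => F.coeff j) hr.eq
    simp only [coeff_map] at h1
    unfold pr at h1
    rw [hmon.leadingCoeff, map_one, C_1, one_mul] at h1
    rw [← h1, ← map_mul]
    congr 1
    rw [coeff_C_mul, mul_inv_cancel_left₀ hl]
  have hS0 := alg_roots (k := k) H halg r hl hcoef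
  -- the nonconstant roots
  let S : Set L := {t | (∃ i, t = r i) ∧ ∀ y : k, t ≠ algebraMap k L y}
  have hS : Algebra.IsAlgebraic (Algebra.adjoin k S) L := by
    have hle : Algebra.adjoin k (Set.range r) ≤ Algebra.adjoin k S := by
      rw [Algebra.adjoin_le_iff]
      rintro _ ⟨i, rfl⟩
      by_cases hi : ∀ y : k, r i ≠ algebraMap k L y
      · exact Algebra.subset_adjoin ⟨⟨i, rfl⟩, hi⟩
      · push Not at hi
        obtain ⟨y, hy⟩ := hi
        rw [hy]
        exact Subalgebra.algebraMap_mem _ _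
    let _ : Algebra (Algebra.adjoin k (Set.range r)) (Algebra.adjoin k S) :=
      (Subalgebra.inclusion hle).toRingHom.toAlgebra
    have : IsScalarTower (Algebra.adjoin k (Set.range r)) (Algebra.adjoin k S) L :=
      IsScalarTower.of_algebraMap_eq fun x => rfl
    exact Algebra.IsAlgebraic.extendScalars (R := Algebra.adjoin k (Set.range r))
      (Subalgebra.inclusion_injective hle)
  have htrL : Algebra.trdeg k L = w := by rw [trdeg_ext (K := K), htr]
  let ι : Type := {i : Fin H1.natDegree // ∀ y : k, r i ≠ algebraMap k L y}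
  have htrans : ∀ l : ι, Transcendental k (r l.1) := by
    intro l h1
    obtain ⟨y, hy⟩ := const_of_algebraic h1
    exact l.2 y hy
  have hJ : ∀ l : ι, ∃ y : Fin w → L, IsTranscendenceBasis k y ∧ (∀ j, y j ∈ S) ∧
      ∃ j, y j = r l.1 := fun l =>
    exists_basis_through htrL S hS ⟨⟨l.1, rfl⟩, l.2⟩ (htrans l)
  choose J hJb hJS j0 hj0 using hJ
  have hcc : ∀ l j, ∃ x : ι, J l j = r x.1 := by
    intro l j
    obtain ⟨⟨i, hi⟩, hi2⟩ := hJS l j
    exact ⟨⟨i, fun y => hi ▸ hi2 y⟩, hi⟩
  choose cc hcc using hcc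
  let Φ : Fam2 k K L (Fin H1.natDegree) ι n w :=
    { H := H1
      mon := hmon
      τ := r
      rd := hr
      T := fun l => r l.1
      inc := fun l => l.1
      hinc := fun l => rfl
      sumT := by
        intro W
        symm
        refine Fintype.sum_of_injective (fun l : ι => l.1) Subtype.val_injective _ _ ?_ fun l => rfl
        intro i hi
        have h1 : ∃ y : k, r i = algebraMap k L y := by
          by_contra hcon
          push Not at hcon
          exact hi ⟨⟨i, hcon⟩, rfl⟩
        obtain ⟨y, hy⟩ := h1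
        rw [hy, tau_const]
      cc := cc
      j0 := j0
      hj0 := by
        intro l
        have h1 : r (cc l (j0 l)).1 = r l.1 := by rw [← hcc, hj0]
        exact Subtype.ext (hr.inj h1) }
  have hΦJ : Φ.J = J := by
    funext l j
    exact (hcc l j).symm
  have hM : 0 < M := by
    rcases Nat.eq_zero_or_pos M with h | h
    · have h1 : ∑ i, μ i = 0 := Finset.sum_eq_zero fun i _ => by
        have := hμ i
        omega
      omega
    · exact h
  have hne : Nonempty ι := by
    obtain ⟨x, _, hx⟩ := exists_basis_in htrL S hS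
    obtain ⟨⟨i, hi⟩, hi2⟩ := hx ⟨0, hw⟩
    exact ⟨⟨i, fun y => hi ▸ hi2 y⟩⟩
  have hcard : Fintype.card ι ≤ n + 1 := by
    refine (Fintype.card_subtype_le _).trans ?_
    rw [Fintype.card_fin]
    exact hdeg1
  refine Φ.gt (c := c) (cD := cD) htr (by rw [hΦJ]; exact hJb) a ha hM hμ h01 ?_ Bd ?_
  · have h1 := Nat.mul_le_mul_right (∑ i, c i + 2 * n * cD) hcard
    omega
  · intro P hP hBd
    have hct : ∀ i, ct P H1 (a i) = ct P H (a i) := fun i => ct_C_mul P hl' (h0 i)
    have hdct : dct P n H1 = dct P n H := dct_C_mul P n hl' hH hdsf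
    change DisC n M μ c cD a H1 P
    unfold DisC
    simp only [hct, hdct]
    exact hram P hP hBd

end Pool.Agent.H910.Dsc
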