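import Pool.Agent.H910.Dsc.Root
import Pool.Agent.H910.Dsc.Land
import Pool.Agent.H910.Dsc.Sum
import Pool.Graph.R_seed8.Y190.AN.Rsl

/-!
The pointwise inequality: the resultant of a binary form with its derivative.
-/

set_option autoImplicit false

open Polynomial Filter Topology Set Metric

namespace Pool.Agent.H910.Dsc

open Pool.Agent.Y190.BV Pool.Agent.Y216 Pool.Agent.W601.PH Pool.Agent.W601.SM

theorem pol_eval {R : Type*} [CommRing R] {n : ℕ} (F : Fin (n + 1) → R) (t : R) :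
    (pol F).eval t = ∑ j, F j * t ^ (j : ℕ) := by
  unfold pol
  rw [eval_finsetSum]
  exact Finset.sum_congr rfl fun j _ => by rw [eval_mul, eval_C, eval_pow, eval_X]

theorem pol_der_eval {R : Type*} [CommRing R] {n : ℕ} (F : Fin (n + 1) → R) (t : R) :
    (derivative (pol F)).eval t = ∑ j, F j * ((j : ℕ) * t ^ ((j : ℕ) - 1)) := by
  unfold pol
  rw [derivative_sum, eval_finsetSum]
  exact Finset.sum_congr rfl fun j _ => by
    rw [derivative_C_mul_X_pow, eval_mul, eval_C, eval_pow, eval_X, mul_assoc]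

theorem coeff_bound {κ : Type*} [DecidableEq κ] (τ : κ → ℂ) (s : Finset κ) (j : ℕ) :
    ‖(∏ k ∈ s, (X - C (τ k))).coeff j‖ ≤ ∏ k ∈ s, (1 + ‖τ k‖) := by
  induction s using Finset.induction_on generalizing j with
  | empty =>
    rw [Finset.prod_empty, Finset.prod_empty, coeff_one]
    split_ifs <;> simp
  | insert x s hx ih =>
    have hB : 0 ≤ ∏ k ∈ s, (1 + ‖τ k‖) := Finset.prod_nonneg fun k _ => by positivity
    rw [Finset.prod_insert hx, Finset.prod_insert hx, sub_mul, coeff_sub, coeff_C_mul]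
    rcases j with _ | j
    · rw [coeff_X_mul_zero, zero_sub, norm_neg, norm_mul]
      have h1 := mul_le_mul_of_nonneg_left (ih 0) (norm_nonneg (τ x))
      linarith
    · rw [coeff_X_mul]
      refine (norm_sub_le _ _).trans ?_
      rw [norm_mul]
      have h1 := mul_le_mul_of_nonneg_left (ih (j + 1)) (norm_nonneg (τ x))
      have h2 := ih j
      linarith

/-- the roots of the form -/
theorem exists_pr {e : ℕ} {F : Fin (e + 2) → ℂ} (hl : F (Fin.last _) ≠ 0)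
    (hD : dsf e (pol F) ≠ 0) : ∃ τ : Fin (e + 1) → ℂ, Function.Injective τ ∧
      pol F = pr (F (Fin.last _)) τ := by
  have hdeg : (pol F).natDegree = e + 1 := natDegree_pol hl
  have hne : pol F ≠ 0 := by
    intro h0
    rw [h0, natDegree_zero] at hdeg
    omega
  obtain ⟨r, hr⟩ := exists_rd (K := ℂ) (L := ℂ) hne hdeg.le hD (IsAlgClosed.splits _)
  have hlc : (pol F).leadingCoeff = F (Fin.last _) := by
    rw [leadingCoeff, hdeg]
    exact coeff_pol F (Fin.last _)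
  have h1 := hr.eq
  rw [Algebra.algebraMap_self, Polynomial.map_id, RingHom.id_apply, hlc] at h1
  let ee : Fin (e + 1) ≃ Fin (pol F).natDegree := finCongr hdeg.symm
  refine ⟨fun i => r (ee i), fun i j hij => ee.injective (hr.inj hij), ?_⟩
  refine h1.trans ?_
  unfold pr
  congr 1
  exact (Equiv.prod_comp ee fun k => X - C (r k)).symm

theorem der_ne {e : ℕ} {F : Fin (e + 2) → ℂ} (hl : F (Fin.last _) ≠ 0)
    (hD : dsf e (pol F) ≠ 0) {t : ℂ} (ht : (pol F).eval t = 0) :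
    (derivative (pol F)).eval t ≠ 0 := by
  obtain ⟨τ, hτ, hF⟩ := exists_pr hl hD
  rw [hF] at ht ⊢
  unfold pr at ht
  rw [eval_mul, eval_C, eval_prod] at ht
  obtain ⟨k, -, hk⟩ := Finset.prod_eq_zero_iff.1 ((mul_eq_zero.1 ht).resolve_left hl)
  rw [eval_sub, eval_X, eval_C, sub_eq_zero] at hk
  rw [hk]
  exact der_pr_ne hl hτ k

/-- the derivative of a root -/
theorem root_der {e : ℕ} {F : ℂ → Fin (e + 2) → ℂ} {z : ℂ} (hF : AnA F z) {ρ : ℂ → ℂ}
    (hρ : DifferentiableAt ℂ ρ z) (h0 : ∀ᶠ w in 𝓝 z, (pol (F w)).eval (ρ w) = 0) :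
    (pol (dF F z)).eval (ρ z) = -((derivative (pol (F z))).eval (ρ z) * deriv ρ z) := by
  have h1 : HasDerivAt (fun w => ∑ j : Fin (e + 2), F w j * ρ w ^ (j : ℕ))
      (∑ j : Fin (e + 2), (dF F z j * ρ z ^ (j : ℕ) +
        F z j * ((j : ℕ) * ρ z ^ ((j : ℕ) - 1) * deriv ρ z))) z := by
    refine HasDerivAt.fun_sum fun j _ => ?_
    exact ((hF j).differentiableAt.hasDerivAt).fun_mul (hρ.hasDerivAt.fun_pow _)
  have h2 : HasDerivAt (fun w => ∑ j : Fin (e + 2), F w j * ρ w ^ (j : ℕ)) 0 z := by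
    refine (hasDerivAt_const z (0 : ℂ)).congr_of_eventuallyEq ?_
    filter_upwards [h0] with w hw
    rw [← pol_eval, hw]
  have h3 := h1.unique h2
  rw [Finset.sum_add_distrib] at h3
  rw [pol_eval, pol_der_eval, Finset.sum_mul]
  have h4 : ∑ j : Fin (e + 2), F z j * ((j : ℕ) * ρ z ^ ((j : ℕ) - 1) * deriv ρ z) =
      ∑ j : Fin (e + 2), F z j * ((j : ℕ) * ρ z ^ ((j : ℕ) - 1)) * deriv ρ z :=
    Finset.sum_congr rfl fun j _ => by ring
  rw [h4] at h3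
  linear_combination h3

/-- **The pointwise inequality.** -/
theorem pi_ineq {e q m k : ℕ} (hq : 2 ≤ q) (hk : k + 2 * (m + 1) = q * m) (a : Fin q → ℂ)
    (ha : Function.Injective a) : ∃ C : ℝ, 1 ≤ C ∧ ∀ (F : ℂ → Fin (e + 2) → ℂ) (z : ℂ) (ε : ℝ),
    0 < ε → (∀ w ∈ ball z ε, AnA F w) → (∀ w ∈ ball z ε, F w (Fin.last _) ≠ 0) →
    (∀ w ∈ ball z ε, dsf e (pol (F w)) ≠ 0) →
    (∀ i, ∀ w ∈ ball z ε, (pol (F w)).eval (a i) ≠ 0) →
    ‖Pf F z‖ ^ (m + 1) * (∑ j, ‖F z j‖) ^ k ≤ C * (1 / ε) ^ ((e + 1) * (m + 1)) *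
      ‖dsf e (pol (F z))‖ ^ (m + 1) * ∏ i, ‖(pol (F z)).eval (a i)‖ ^ m := by
  classical
  obtain ⟨C0, hC0, hL⟩ := landau2 hq hk a ha
  refine ⟨((e : ℝ) + 1) ^ (m + 1) * C0 ^ (e + 1) * ((e : ℝ) + 2) ^ k, ?_, ?_⟩
  · refine one_le_mul_of_one_le_of_one_le (one_le_mul_of_one_le_of_one_le (one_le_pow₀ ?_)
      (one_le_pow₀ hC0)) (one_le_pow₀ ?_)
    · have : (0 : ℝ) ≤ e := Nat.cast_nonneg _
      linarith
    · have : (0 : ℝ) ≤ e := Nat.cast_nonneg _
      linarith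
  intro F z ε hε hF hl hD hU
  have hz : z ∈ ball z ε := mem_ball_self hε
  obtain ⟨τ, hτ, hpr⟩ := exists_pr (hl z hz) (hD z hz)
  set h : ℂ := F z (Fin.last _) with hh
  have hroot : ∀ x, (pol (F z)).eval (τ x) = 0 := by
    intro x
    rw [hpr]
    unfold pr
    rw [eval_mul, eval_prod, Finset.prod_eq_zero (Finset.mem_univ x), mul_zero]
    simp
  -- the root functions
  have hpv : ∀ w t, pv (fun j w => F w j) w t = (pol (F w)).eval t := fun w t =>
    (pol_eval _ _).symm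
  have hpdv : ∀ w t, pdv (fun j w => F w j) w t = (derivative (pol (F w))).eval t := fun w t =>
    (pol_der_eval _ _).symm
  have hex : ∀ x, ∃ ρ : ℂ → ℂ, DifferentiableOn ℂ ρ (ball z ε) ∧ ρ z = τ x ∧
      ∀ w ∈ ball z ε, pv (fun j w => F w j) w (ρ w) = 0 := fun x =>
    exists_root hε (fun w hw j => hF w hw j) hl (fun w hw t ht => by
      rw [hpv] at ht
      rw [hpdv]
      exact der_ne (hl w hw) (hD w hw) ht) (by rw [hpv]; exact hroot x)
  choose ρ hρd hρz hρ0 using hex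
  have hρ0' : ∀ x, ∀ w ∈ ball z ε, (pol (F w)).eval (ρ x w) = 0 := fun x w hw => by
    rw [← hpv]
    exact hρ0 x w hw
  have hnb : ball z ε ∈ 𝓝 z := isOpen_ball.mem_nhds hz
  have hder : ∀ x, (pol (dF F z)).eval (τ x) =
      -((derivative (pr h τ)).eval (τ x) * deriv (ρ x) z) := by
    intro x
    have h1 := root_der (hF z hz) ((hρd x).differentiableAt hnb) (by
      filter_upwards [hnb] with w hw
      exact hρ0' x w hw)
    rw [hρz, hpr] at h1
    exact h1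
  have hland : ∀ x, (ε * ‖deriv (ρ x) z‖) ^ (m + 1) * (1 + ‖τ x‖) ^ k ≤
      C0 * ∏ i, ‖τ x - a i‖ ^ m := by
    intro x
    have h1 := hL (ρ x) z ε hε (hρd x) (fun i w hw h0 => hU i w hw (by
      rw [← h0]
      exact hρ0' x w hw))
    rwa [hρz] at h1
  have hres := res_der (hl z hz) τ (Fintype.card_fin _) (natDegree_pol_le (dF F z))
    (fun x => deriv (ρ x) z) hder
  rw [← hpr] at hres
  have hPf : resultant (pol (F z)) (pol (dF F z)) (e + 1) (e + 1) = Pf F z := rfl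
  rw [hPf] at hres
  have he0 : (0 : ℝ) ≤ e := Nat.cast_nonneg _
  have hn1 : ‖((e + 1 : ℕ) : ℂ)‖ = (e : ℝ) + 1 := by
    rw [Complex.norm_natCast]
    push_cast
    rfl
  -- the norm of the resultant
  set Dz : ℝ := ‖dsf e (pol (F z))‖ with hDz
  have hP1 : ‖Pf F z‖ ≤ ((e : ℝ) + 1) * ‖h‖ ^ 2 * Dz * ∏ x, ‖deriv (ρ x) z‖ := by
    have h1 := congrArg norm hres
    simp only [norm_mul, norm_pow, norm_neg, norm_one, one_pow, one_mul, _root_.norm_prod] at h1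
    rw [hn1] at h1
    change ‖Pf F z‖ ≤ ((e : ℝ) + 1) * ‖F z (Fin.last (e + 1))‖ ^ 2 * ‖dsf e (pol (F z))‖ *
      ∏ x, ‖deriv (ρ x) z‖
    rw [← h1]
    refine le_mul_of_one_le_left (norm_nonneg _) (one_le_pow₀ (by linarith))
  -- the values
  have hUi : ∀ i, ‖(pol (F z)).eval (a i)‖ = ‖h‖ * ∏ x, ‖τ x - a i‖ := by
    intro i
    rw [hpr]
    unfold pr
    rw [eval_mul, eval_C, eval_prod, norm_mul, _root_.norm_prod]
    congr 1
    refine Finset.prod_congr rfl fun x _ => ?_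
    rw [eval_sub, eval_X, eval_C, norm_sub_rev]
  have hprod : ∏ i, ‖(pol (F z)).eval (a i)‖ ^ m = ‖h‖ ^ (q * m) * ∏ x, ∏ i, ‖τ x - a i‖ ^ m := by
    rw [Finset.prod_congr rfl fun i _ => by rw [hUi i, mul_pow], Finset.prod_mul_distrib,
      Finset.prod_const, Finset.card_univ, Fintype.card_fin, ← pow_mul, mul_comm m q,
      Finset.prod_comm]
    congr 1
    exact Finset.prod_congr rfl fun i _ => (Finset.prod_pow _ _ _).symm
  -- the coefficients
  set A : ℝ := ∏ x, (1 + ‖τ x‖) with hA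
  have hA0 : 0 ≤ A := Finset.prod_nonneg fun x _ => by positivity
  have hS : ∑ j, ‖F z j‖ ≤ ((e : ℝ) + 2) * (‖h‖ * A) := by
    have h1 : ∀ j : Fin (e + 2), ‖F z j‖ ≤ ‖h‖ * A := by
      intro j
      rw [← coeff_pol (F z) j, hpr]
      unfold pr
      rw [coeff_C_mul, norm_mul]
      exact mul_le_mul_of_nonneg_left (coeff_bound τ _ _) (norm_nonneg _)
    refine (Finset.sum_le_sum fun j _ => h1 j).trans (le_of_eq ?_)
    rw [Finset.sum_const, Finset.card_univ, Fintype.card_fin, nsmul_eq_mul]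
    push_cast
    ring
  have hS0 : 0 ≤ ∑ j, ‖F z j‖ := Finset.sum_nonneg fun _ _ => norm_nonneg _
  have hDz0 : 0 ≤ Dz := norm_nonneg _
  have hT0 : 0 ≤ ∏ x, ‖deriv (ρ x) z‖ := Finset.prod_nonneg fun _ _ => norm_nonneg _
  have hprodL : ((∏ x, ‖deriv (ρ x) z‖) * ε ^ (e + 1)) ^ (m + 1) * A ^ k ≤
      C0 ^ (e + 1) * ∏ x, ∏ i, ‖τ x - a i‖ ^ m := by
    have h1 : ((∏ x, ‖deriv (ρ x) z‖) * ε ^ (e + 1)) ^ (m + 1) * A ^ k =
        ∏ x, ((ε * ‖deriv (ρ x) z‖) ^ (m + 1) * (1 + ‖τ x‖) ^ k) := by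
      rw [Finset.prod_mul_distrib, Finset.prod_pow, Finset.prod_pow, Finset.prod_mul_distrib,
        Finset.prod_const, Finset.card_univ, Fintype.card_fin, hA]
      ring
    have h2 : C0 ^ (e + 1) * ∏ x, ∏ i, ‖τ x - a i‖ ^ m = ∏ x, (C0 * ∏ i, ‖τ x - a i‖ ^ m) := by
      rw [Finset.prod_mul_distrib, Finset.prod_const, Finset.card_univ, Fintype.card_fin]
    rw [h1, h2]
    exact Finset.prod_le_prod (fun x _ => by positivity) fun x _ => hland x
  have hε' : (1 / ε) ^ ((e + 1) * (m + 1)) * (ε ^ (e + 1)) ^ (m + 1) = 1 := by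
    rw [← pow_mul, ← mul_pow, one_div, inv_mul_cancel₀ hε.ne', one_pow]
  set Q : ℝ := ∏ x, ∏ i, ‖τ x - a i‖ ^ m with hQ
  have hQ0 : 0 ≤ Q := Finset.prod_nonneg fun _ _ => Finset.prod_nonneg fun _ _ => by positivity
  have hE : 0 ≤ 1 / ε := by positivity
  rw [hprod]
  calc ‖Pf F z‖ ^ (m + 1) * (∑ j, ‖F z j‖) ^ k
      ≤ (((e : ℝ) + 1) * ‖h‖ ^ 2 * Dz * ∏ x, ‖deriv (ρ x) z‖) ^ (m + 1) *
          (((e : ℝ) + 2) * (‖h‖ * A)) ^ k :=
        mul_le_mul (pow_le_pow_left₀ (norm_nonneg _) hP1 _) (pow_le_pow_left₀ hS0 hS _)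
          (by positivity) (by positivity)
    _ = ((e : ℝ) + 1) ^ (m + 1) * ((e : ℝ) + 2) ^ k * ‖h‖ ^ (k + 2 * (m + 1)) * Dz ^ (m + 1) *
          ((∏ x, ‖deriv (ρ x) z‖) ^ (m + 1) * A ^ k) *
          ((1 / ε) ^ ((e + 1) * (m + 1)) * (ε ^ (e + 1)) ^ (m + 1)) := by
        rw [hε', mul_pow, mul_pow, mul_pow, mul_pow, mul_pow, pow_add, ← pow_mul]
        ring
    _ = ((e : ℝ) + 1) ^ (m + 1) * ((e : ℝ) + 2) ^ k * ‖h‖ ^ (q * m) * Dz ^ (m + 1) *
          (1 / ε) ^ ((e + 1) * (m + 1)) *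
          (((∏ x, ‖deriv (ρ x) z‖) * ε ^ (e + 1)) ^ (m + 1) * A ^ k) := by
        rw [hk, mul_pow (∏ x, ‖deriv (ρ x) z‖)]
        ring
    _ ≤ ((e : ℝ) + 1) ^ (m + 1) * ((e : ℝ) + 2) ^ k * ‖h‖ ^ (q * m) * Dz ^ (m + 1) *
          (1 / ε) ^ ((e + 1) * (m + 1)) * (C0 ^ (e + 1) * Q) :=
        mul_le_mul_of_nonneg_left hprodL (by positivity)
    _ = _ := by ring

end Pool.Agent.H910.Dsc
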