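import Pool.Agent.H910.Dsc.Ord
import Pool.Agent.H910.Dsc.Mono
import Pool.Graph.R_seed8.Y216.LG.Disc

/-!
The polynomial functions of a binary form, and the bound at a point for the core statement.
-/

set_option autoImplicit false

open Polynomial Filter Topology Set Metric

namespace Pool.Agent.H910.Dsc

open Pool.Agent.Y190.BV Pool.Agent.Y216 Pool.Agent.W601.PH Pool.Agent.W601.SM
  Pool.Agent.W603.BP Pool.Agent.Y190.AN

/-- monomials near infinity, with an arbitrary index type -/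
theorem core_mono' {O I : Type} [Fintype O] [DecidableEq O] [Fintype I] [DecidableEq I]
    {r0 : ℝ} (hr0 : 0 < r0)
    (f : O → ℂ → ℂ) (hf : ∀ o, AnalyticOnNhd ℂ (f o) (Ext r0))
    (hne : ∀ o, ∃ z ∈ Ext r0, f o z ≠ 0) (α β : O → ℕ) (γ : I → O → ℕ)
    (hord : ∀ z ∈ Ext r0, ∀ b : O → ℕ, (∀ o, analyticOrderAt (f o) z = b o) →
      ∑ o, β o * b o ≤ ∑ o, α o * b o)
    {C : ℝ} (hC : 1 ≤ C) (D : ℕ)
    (hpt : ∀ z ε, 0 < ε → ε ≤ 1 → closedBall z ε ⊆ Ext r0 →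
      (∀ m o, γ m o ≠ 0 → ∀ w ∈ closedBall z ε, f o w ≠ 0) →
      ∀ m, (∏ o, ‖f o z‖ ^ α o) * ∏ o, ‖f o z‖ ^ γ m o ≤ C * (1 / ε) ^ D * ∏ o, ‖f o z‖ ^ β o)
    (j0 j : I) :
    ∃ R : ℂ → ℂ, MeromorphicAt (fun w => R w⁻¹) 0 ∧ ∃ R0 : ℝ, ∀ z, R0 < ‖z‖ →
      ∏ o, f o z ^ γ j o = R z * ∏ o, f o z ^ γ j0 o := by
  obtain ⟨N, hN⟩ : ∃ N, Fintype.card I = N + 1 :=
    ⟨Fintype.card I - 1, by
      have : 0 < Fintype.card I := Fintype.card_pos_iff.2 ⟨j0⟩
      omega⟩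
  let E0 : Fin (N + 1) ≃ I := (Fintype.equivFinOfCardEq hN).symm
  let E : Fin (N + 1) ≃ I := (Equiv.swap 0 (E0.symm j0)).trans E0
  have hE0 : E 0 = j0 := by simp [E]
  obtain ⟨R, hR, R0, h⟩ := core_mono hr0 f hf hne α β (fun m => γ (E m)) hord hC D
    (fun z ε h1 h2 h3 h4 m => hpt z ε h1 h2 h3 (fun m' o ho w hw => by
      refine h4 (E.symm m') o ?_ w hw
      rwa [E.apply_symm_apply]) (E m)) (E.symm j)
  refine ⟨R, hR, R0, fun z hz => ?_⟩
  have h1 := h z hz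
  simp only [E.apply_symm_apply, hE0] at h1
  exact h1

/-- homogeneous functions are bounded -/
theorem hom_bound {N k : ℕ} (Φ : (Fin N → ℂ) → ℂ) (hc : Continuous Φ)
    (hh : ∀ (t : ℂ) (F : Fin N → ℂ), Φ (fun j => t * F j) = t ^ k * Φ F) :
    ∃ C : ℝ, 1 ≤ C ∧ ∀ F, ‖Φ F‖ ≤ C * (∑ j, ‖F j‖) ^ k := by
  have hcpt : IsCompact {F : Fin N → ℂ | ∑ j, ‖F j‖ ≤ 1} := by
    refine (isCompact_closedBall (0 : Fin N → ℂ) 1).of_isClosed_subset ?_ ?_
    · exact isClosed_le (continuous_finsetSum _ fun j _ => (continuous_apply j).norm)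
        continuous_const
    · intro F hF
      rw [mem_closedBall, dist_zero_right, pi_norm_le_iff_of_nonneg zero_le_one]
      intro j
      have h1 : ∑ j, ‖F j‖ ≤ 1 := hF
      exact (Finset.single_le_sum (f := fun j => ‖F j‖) (fun _ _ => norm_nonneg _)
        (Finset.mem_univ j)).trans h1
  obtain ⟨C, hC⟩ := hcpt.exists_bound_of_continuousOn hc.continuousOn
  refine ⟨max C 1, le_max_right _ _, fun F => ?_⟩
  set S : ℝ := ∑ j, ‖F j‖ with hS
  have hS0 : 0 ≤ S := Finset.sum_nonneg fun _ _ => norm_nonneg _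
  rcases hS0.eq_or_lt with h0 | h0
  · have hF : F = 0 := by
      funext j
      have h1 := (Finset.sum_eq_zero_iff_of_nonneg fun j _ => norm_nonneg (F j)).1 h0.symm j
        (Finset.mem_univ j)
      exact norm_eq_zero.1 h1
    rcases Nat.eq_zero_or_pos k with hk | hk
    · rw [hk, pow_zero, mul_one]
      refine (hC F ?_).trans (le_max_left _ _)
      change S ≤ 1
      rw [← h0]
      exact zero_le_one
    · have h1 := hh 0 F
      rw [zero_pow hk.ne', zero_mul] at h1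
      have h2 : (fun j => (0 : ℂ) * F j) = F := by
        funext j
        rw [hF]
        simp
      rw [h2] at h1
      rw [h1, norm_zero]
      positivity
  · have h1 := hh (S : ℂ) fun j => (S : ℂ)⁻¹ * F j
    have hSc : (S : ℂ) ≠ 0 := Complex.ofReal_ne_zero.2 h0.ne'
    have h2 : (fun j => (S : ℂ) * ((S : ℂ)⁻¹ * F j)) = F := by
      funext j
      rw [mul_inv_cancel_left₀ hSc]
    rw [h2] at h1
    rw [h1, norm_mul, norm_pow, Complex.norm_real, Real.norm_of_nonneg hS0, mul_comm]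
    refine mul_le_mul_of_nonneg_right ((hC _ ?_).trans (le_max_left _ _)) (by positivity)
    change ∑ j, ‖(S : ℂ)⁻¹ * F j‖ ≤ 1
    simp only [norm_mul, norm_inv, Complex.norm_real, Real.norm_of_nonneg hS0]
    rw [← Finset.mul_sum, ← hS, inv_mul_cancel₀ h0.ne']

/-- the discriminant of the product with a fixed polynomial -/
noncomputable def phiE (n e : ℕ) (Pc : ℂ[X]) : MvPolynomial (Fin (e + 2)) ℂ :=
  dsf n (pol (fun j => MvPolynomial.X j) * Pc.map MvPolynomial.C)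

/-- the value at a constant -/
noncomputable def phiU (e : ℕ) (a : ℂ) : MvPolynomial (Fin (e + 2)) ℂ :=
  (pol (fun j => (MvPolynomial.X j : MvPolynomial (Fin (e + 2)) ℂ))).eval (MvPolynomial.C a)

theorem aeval_phiE {R : Type} [CommRing R] [Algebra ℂ R] (n e : ℕ) (Pc : ℂ[X])
    (x : Fin (e + 2) → R) :
    MvPolynomial.aeval x (phiE n e Pc) = dsf n (pol x * Pc.map (algebraMap ℂ R)) := by
  unfold phiE
  obtain ⟨φ, hφ⟩ : ∃ φ : MvPolynomial (Fin (e + 2)) ℂ →+* R,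
      φ = (MvPolynomial.aeval x : MvPolynomial (Fin (e + 2)) ℂ →ₐ[ℂ] R).toRingHom := ⟨_, rfl⟩
  have h1 := map_dsf (n := n) φ
    (pol (fun j => (MvPolynomial.X j : MvPolynomial (Fin (e + 2)) ℂ)) * Pc.map MvPolynomial.C)
  rw [Polynomial.map_mul, map_pol, Polynomial.map_map] at h1
  have h2 : (fun j => φ (MvPolynomial.X j)) = x := by
    funext j
    rw [hφ]
    exact MvPolynomial.aeval_X x j
  have h3 : φ.comp MvPolynomial.C = algebraMap ℂ R := by
    rw [hφ]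
    ext t
    exact MvPolynomial.aeval_C x t
  rw [h2, h3] at h1
  rw [h1, hφ]
  rfl

theorem aeval_phiU {R : Type} [CommRing R] [Algebra ℂ R] (e : ℕ) (a : ℂ)
    (x : Fin (e + 2) → R) :
    MvPolynomial.aeval x (phiU e a) = (pol x).eval (algebraMap ℂ R a) := by
  unfold phiU
  rw [pol_eval, pol_eval, map_sum]
  refine Finset.sum_congr rfl fun j _ => ?_
  rw [map_mul, map_pow, MvPolynomial.aeval_X, MvPolynomial.aeval_C]

theorem eval_phiE (n e : ℕ) (Pc : ℂ[X]) (x : Fin (e + 2) → ℂ) :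
    MvPolynomial.eval x (phiE n e Pc) = dsf n (pol x * Pc) := by
  rw [← MvPolynomial.coe_aeval_eq_eval]
  refine (aeval_phiE n e Pc x).trans ?_
  rw [Algebra.algebraMap_self, Polynomial.map_id]

theorem eval_phiU (e : ℕ) (a : ℂ) (x : Fin (e + 2) → ℂ) :
    MvPolynomial.eval x (phiU e a) = (pol x).eval a := by
  rw [← MvPolynomial.coe_aeval_eq_eval]
  exact aeval_phiU e a x

theorem eval_an {e : ℕ} (Φ : MvPolynomial (Fin (e + 2)) ℂ) {G : ℂ → Fin (e + 2) → ℂ} {z : ℂ}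
    (hG : AnA G z) : AnalyticAt ℂ (fun z => MvPolynomial.eval (G z) Φ) z := by
  simp only [MvPolynomial.eval_eq']
  apply Finset.analyticAt_fun_sum
  intro α _
  apply AnalyticAt.fun_mul analyticAt_const
  apply Finset.analyticAt_fun_prod
  intro s _
  exact (hG s).fun_pow _

theorem bound_phiE (n e : ℕ) (Pc : ℂ[X]) : ∃ C : ℝ, 1 ≤ C ∧ ∀ x : Fin (e + 2) → ℂ,
    ‖MvPolynomial.eval x (phiE n e Pc)‖ ≤ C * (∑ j, ‖x j‖) ^ (2 * n) :=
  hom_bound (fun x => MvPolynomial.eval x (phiE n e Pc)) (MvPolynomial.continuous_eval _)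
    fun t F => by
      rw [eval_phiE, eval_phiE, pol_smul, mul_assoc, dsf_C_mul]

theorem bound_phiU (e : ℕ) (a : ℂ) : ∃ C : ℝ, 1 ≤ C ∧ ∀ x : Fin (e + 2) → ℂ,
    ‖MvPolynomial.eval x (phiU e a)‖ ≤ C * ∑ j, ‖x j‖ := by
  obtain ⟨C, hC, h⟩ := hom_bound (k := 1) (fun x => MvPolynomial.eval x (phiU e a))
    (MvPolynomial.continuous_eval _) fun t F => by
      rw [eval_phiU, eval_phiU, pol_smul, eval_mul, eval_C, pow_one]
  exact ⟨C, hC, fun x => by simpa using h x⟩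

theorem prod_pow_single {O R : Type*} [Fintype O] [DecidableEq O] [CommMonoid R] (x : O → R)
    (o1 : O) (K : ℕ) : ∏ o, x o ^ (if o = o1 then K else 0) = x o1 ^ K := by
  rw [Finset.prod_eq_single o1]
  · rw [if_pos rfl]
  · intro o _ ho
    rw [if_neg ho, pow_zero]
  · intro h
    exact absurd (Finset.mem_univ _) h

theorem real_main {q N M d n cD κ k0 m2 : ℕ} {ν c : Fin q → ℕ} {P S Dz E A B B2 mem : ℝ}
    {U : Fin q → ℝ} (hP : 0 ≤ P) (hS : 0 < S) (hD : 0 ≤ Dz) (hE0 : 0 ≤ E) (hU0 : ∀ i, 0 ≤ U i)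
    (hA : 0 ≤ A) (hB : 1 ≤ B) (hB2 : 0 ≤ B2)
    (h1 : P ^ N * S ^ k0 ≤ A * Dz ^ N * ∏ i, U i ^ (N - 1)) (hE : E ≤ B * S ^ (2 * n))
    (hU : ∀ i, U i ≤ B * S) (hν : ∀ i, ν i ≤ (N - 1) * M)
    (hk : k0 * M = ∑ i, ((N - 1) * M - ν i) + d * N * (∑ i, c i + 2 * n * cD) + κ)
    (hm : mem ≤ B2 * (S ^ κ) ^ m2) :
    (P ^ (N * M) * E ^ (d * N * cD) * ∏ i, U i ^ (d * N * c i)) ^ m2 * mem ≤
      B2 * (B ^ (d * N * cD + ∑ i, d * N * c i + ∑ i, ((N - 1) * M - ν i))) ^ m2 *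
        A ^ (M * m2) * (Dz ^ (N * M) * ∏ i, U i ^ ν i) ^ m2 := by
  have hB0 : 0 ≤ B := by linarith
  set σ : ℕ := ∑ i, ((N - 1) * M - ν i) with hσ
  have hV : ∏ i, U i ^ (d * N * c i) ≤ B ^ (∑ i, d * N * c i) * S ^ (∑ i, d * N * c i) := by
    rw [← mul_pow, ← Finset.prod_pow_eq_pow_sum]
    exact Finset.prod_le_prod (fun i _ => pow_nonneg (hU0 i) _) fun i _ =>
      pow_le_pow_left₀ (hU0 i) (hU i) _
  have hE' : E ^ (d * N * cD) ≤ B ^ (d * N * cD) * S ^ (2 * n * (d * N * cD)) := by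
    rw [pow_mul S, ← mul_pow]
    exact pow_le_pow_left₀ hE0 hE _
  have hUp : 0 ≤ ∏ i, U i ^ (d * N * c i) := Finset.prod_nonneg fun i _ => pow_nonneg (hU0 i) _
  have hpr : 0 ≤ ∏ i, U i ^ (N - 1) := Finset.prod_nonneg fun i _ => pow_nonneg (hU0 i) _
  have hQν : 0 ≤ ∏ i, U i ^ ν i := Finset.prod_nonneg fun i _ => pow_nonneg (hU0 i) _
  have hlow : ∏ i, U i ^ ((N - 1) * M) ≤ (∏ i, U i ^ ν i) * (B ^ σ * S ^ σ) := by
    rw [hσ, ← mul_pow, ← Finset.prod_pow_eq_pow_sum, ← Finset.prod_mul_distrib]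
    refine Finset.prod_le_prod (fun i _ => pow_nonneg (hU0 i) _) fun i _ => ?_
    have h2 : (N - 1) * M = ν i + ((N - 1) * M - ν i) := by
      have := hν i
      omega
    conv_lhs => rw [h2, pow_add]
    exact mul_le_mul_of_nonneg_left (pow_le_pow_left₀ (hU0 i) (hU i) _) (pow_nonneg (hU0 i) _)
  have h2 : P ^ (N * M) * S ^ (k0 * M) ≤
      A ^ M * (Dz ^ (N * M) * ((∏ i, U i ^ ν i) * (B ^ σ * S ^ σ))) := by
    have h3 := pow_le_pow_left₀ (by positivity) h1 M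
    have h4 : (∏ i, U i ^ (N - 1)) ^ M = ∏ i, U i ^ ((N - 1) * M) := by
      rw [← Finset.prod_pow]
      exact Finset.prod_congr rfl fun i _ => (pow_mul _ _ _).symm
    calc P ^ (N * M) * S ^ (k0 * M) = (P ^ N * S ^ k0) ^ M := by
          rw [mul_pow, ← pow_mul, ← pow_mul]
      _ ≤ (A * Dz ^ N * ∏ i, U i ^ (N - 1)) ^ M := h3
      _ = A ^ M * (Dz ^ (N * M) * ∏ i, U i ^ ((N - 1) * M)) := by
          rw [mul_pow, mul_pow, h4, ← pow_mul]
          ring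
      _ ≤ _ := mul_le_mul_of_nonneg_left (mul_le_mul_of_nonneg_left hlow (by positivity))
          (by positivity)
  have hexp : 2 * n * (d * N * cD) + ∑ i, d * N * c i + κ + σ = k0 * M := by
    rw [hk, ← Finset.mul_sum]
    ring
  have hσ0 : 0 < S ^ σ := pow_pos hS _
  have h2' : P ^ (N * M) * S ^ (2 * n * (d * N * cD) + ∑ i, d * N * c i + κ) ≤
      B ^ σ * (A ^ M * (Dz ^ (N * M) * ∏ i, U i ^ ν i)) := by
    refine le_of_mul_le_mul_right ?_ hσ0
    calc P ^ (N * M) * S ^ (2 * n * (d * N * cD) + ∑ i, d * N * c i + κ) * S ^ σ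
        = P ^ (N * M) * S ^ (k0 * M) := by rw [← hexp, pow_add _ _ σ]; ring
      _ ≤ _ := h2
      _ = _ := by ring
  have h5 : P ^ (N * M) * E ^ (d * N * cD) * (∏ i, U i ^ (d * N * c i)) * S ^ κ ≤
      B ^ (d * N * cD + ∑ i, d * N * c i + σ) *
        (A ^ M * (Dz ^ (N * M) * ∏ i, U i ^ ν i)) := by
    calc P ^ (N * M) * E ^ (d * N * cD) * (∏ i, U i ^ (d * N * c i)) * S ^ κ
        ≤ P ^ (N * M) * (B ^ (d * N * cD) * S ^ (2 * n * (d * N * cD))) *
          (B ^ (∑ i, d * N * c i) * S ^ (∑ i, d * N * c i)) * S ^ κ := by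
          refine mul_le_mul_of_nonneg_right (mul_le_mul (mul_le_mul_of_nonneg_left hE'
            (by positivity)) hV hUp (by positivity)) (by positivity)
      _ = B ^ (d * N * cD + ∑ i, d * N * c i) * (P ^ (N * M) *
            S ^ (2 * n * (d * N * cD) + ∑ i, d * N * c i + κ)) := by
          rw [pow_add, pow_add, pow_add]
          ring
      _ ≤ B ^ (d * N * cD + ∑ i, d * N * c i) *
            (B ^ σ * (A ^ M * (Dz ^ (N * M) * ∏ i, U i ^ ν i))) :=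
          mul_le_mul_of_nonneg_left h2' (by positivity)
      _ = _ := by rw [pow_add _ _ σ]; ring
  calc (P ^ (N * M) * E ^ (d * N * cD) * ∏ i, U i ^ (d * N * c i)) ^ m2 * mem
      ≤ (P ^ (N * M) * E ^ (d * N * cD) * ∏ i, U i ^ (d * N * c i)) ^ m2 *
          (B2 * (S ^ κ) ^ m2) := mul_le_mul_of_nonneg_left hm (by positivity)
    _ = B2 * (P ^ (N * M) * E ^ (d * N * cD) * (∏ i, U i ^ (d * N * c i)) * S ^ κ) ^ m2 := by
        rw [mul_pow _ (S ^ κ)]
        ring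
    _ ≤ B2 * (B ^ (d * N * cD + ∑ i, d * N * c i + σ) *
          (A ^ M * (Dz ^ (N * M) * ∏ i, U i ^ ν i))) ^ m2 :=
        mul_le_mul_of_nonneg_left (pow_le_pow_left₀ (by positivity) h5 _) hB2
    _ = _ := by
        rw [mul_pow, mul_pow, ← pow_mul A]
        ring

end Pool.Agent.H910.Dsc
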