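import Mathlib

/-!
Holomorphic roots, on a disc, of polynomials with holomorphic coefficients and simple roots.
-/

set_option autoImplicit false

open Metric Set Topology Filter

namespace Pool.Agent.H910.Dsc

section top

variable {X : Type*} [TopologicalSpace X] {P : X → ℂ → ℂ}

/-- the space of the roots -/
abbrev RS (P : X → ℂ → ℂ) : Type _ := {x : X × ℂ // P x.1 x.2 = 0}

/-- the projection -/
def prR (P : X → ℂ → ℂ) : RS P → X := fun x => x.1.1

theorem prR_cont : Continuous (prR P) := continuous_fst.comp continuous_subtype_val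

theorem prR_closed [T2Space X] (hP : Continuous fun x : X × ℂ => P x.1 x.2) (R : X → ℝ)
    (hR : Continuous R) (hb : ∀ w τ, P w τ = 0 → ‖τ‖ ≤ R w) : IsClosedMap (prR P) := by
  have h : IsProperMap (prR P) := by
    rw [isProperMap_iff_ultrafilter]
    refine ⟨prR_cont, fun {U y} hU => ?_⟩
    have h1 : ∀ᶠ x in (U : Filter (RS P)), ‖x.1.2‖ ≤ R y + 1 := by
      have h2 : ∀ᶠ w in 𝓝 y, R w < R y + 1 :=
        (hR.tendsto y).eventually_lt_const (by linarith)
      filter_upwards [hU.eventually h2] with x hx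
      exact (hb _ _ x.2).trans hx.le
    have h3 : (U.map fun x : RS P => x.1.2 : Filter ℂ) ≤ 𝓟 (closedBall 0 (R y + 1)) := by
      rw [le_principal_iff]
      exact Filter.mem_map.2 (by
        filter_upwards [h1] with x hx
        simpa using hx)
    obtain ⟨t, -, ht⟩ := isCompact_iff_ultrafilter_le_nhds.1 (isCompact_closedBall (0 : ℂ) (R y + 1))
      (U.map fun x : RS P => x.1.2) h3
    have h4 : Tendsto (fun x : RS P => x.1) (U : Filter (RS P)) (𝓝 (y, t)) := by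
      rw [nhds_prod_eq]
      exact Tendsto.prodMk hU ht
    have h5 : P y t = 0 := by
      have h6 : Tendsto (fun x : RS P => P x.1.1 x.1.2) (U : Filter (RS P)) (𝓝 (P y t)) :=
        (hP.tendsto (y, t)).comp h4
      have h7 : (fun x : RS P => P x.1.1 x.1.2) = fun _ => 0 := funext fun x => x.2
      rw [h7] at h6
      exact tendsto_nhds_unique h6 tendsto_const_nhds |>.symm ▸ rfl
    refine ⟨⟨(y, t), h5⟩, rfl, ?_⟩
    rw [nhds_subtype_eq_comap]
    exact h4.le_comap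
  exact h.isClosedMap

/-- the roots are locally functions -/
def LocFun (P : X → ℂ → ℂ) : Prop := ∀ w τ, P w τ = 0 → ∃ ψ : X → ℂ, ContinuousAt ψ w ∧ ψ w = τ ∧
  ∀ᶠ v : X × ℂ in 𝓝 (w, τ), P v.1 v.2 = 0 ↔ ψ v.1 = v.2

theorem prR_open (h : LocFun P) : IsOpenMap (prR P) := by
  rw [isOpenMap_iff_nhds_le]
  intro e
  obtain ⟨ψ, hc, hv, hev⟩ := h e.1.1 e.1.2 e.2
  intro N hN
  rw [Filter.mem_map] at hN
  rw [nhds_subtype_eq_comap, Filter.mem_comap] at hN
  obtain ⟨N', hN', hNN⟩ := hN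
  have hs : ContinuousAt (fun w => (w, ψ w)) e.1.1 := continuousAt_id.prodMk hc
  have hs2 : Tendsto (fun w => (w, ψ w)) (𝓝 e.1.1) (𝓝 e.1) := by
    have := hs.tendsto
    simp only [hv] at this
    exact this
  change N ∈ 𝓝 e.1.1
  filter_upwards [hs2 hN', hs2.eventually hev] with w h1 h2
  have h3 : P w (ψ w) = 0 := h2.2 rfl
  exact hNN (show (⟨(w, ψ w), h3⟩ : RS P) ∈ Subtype.val ⁻¹' N' from h1)

theorem prR_locHomeo (h : LocFun P) : IsLocalHomeomorph (prR P) := by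
  rw [isLocalHomeomorph_iff_isOpenEmbedding_restrict]
  intro e
  obtain ⟨ψ, hc, hv, hev⟩ := h e.1.1 e.1.2 e.2
  obtain ⟨V, hV, hVo, heV⟩ := eventually_nhds_iff.1 hev
  refine ⟨Subtype.val ⁻¹' V, (hVo.preimage continuous_subtype_val).mem_nhds heV, ?_⟩
  refine .of_continuous_injective_isOpenMap (prR_cont.comp continuous_subtype_val) ?_
    ((prR_open h).domRestrict (hVo.preimage continuous_subtype_val))
  rintro ⟨⟨⟨w, t⟩, h1⟩, h2⟩ ⟨⟨⟨w', t'⟩, h1'⟩, h2'⟩ h3
  have h4 : w = w' := h3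
  subst h4
  have h5 := (hV (w, t) h2).1 h1
  have h6 := (hV (w, t') h2').1 h1'
  have h7 : t = t' := h5.symm.trans h6
  subst h7
  rfl

/-- lifting -/
theorem lift_root [T2Space X] [SimplyConnectedSpace X] [LocallyPathConnectedSpace X]
    (hP : Continuous fun x : X × ℂ => P x.1 x.2) (R : X → ℝ)
    (hR : Continuous R) (hb : ∀ w τ, P w τ = 0 → ‖τ‖ ≤ R w) (h : LocFun P)
    (hfin : ∀ w, {τ | P w τ = 0}.Finite) (w0 : X) (t0 : ℂ) (h0 : P w0 t0 = 0) :
    ∃ ρ : X → ℂ, Continuous ρ ∧ ρ w0 = t0 ∧ ∀ w, P w (ρ w) = 0 := by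
  have hcov : IsCoveringMap (prR P) := by
    rw [isCoveringMap_iff_isCoveringMapOn_univ]
    refine (prR_closed hP R hR hb).isCoveringMapOn_of_isLocalHomeomorphOn (fun w _ => ?_)
      (prR_locHomeo h).isLocalHomeomorphOn
    refine Set.Finite.of_finite_image (f := fun x : RS P => x.1.2) ((hfin w).subset ?_) ?_
    · rintro _ ⟨⟨⟨w', t⟩, h1⟩, h2, rfl⟩
      have h3 : w' = w := h2
      subst h3
      exact h1
    · rintro ⟨⟨w', t⟩, h1⟩ h2 ⟨⟨w'', t'⟩, h1'⟩ h2' h3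
      have h4 : w' = w := h2
      have h5 : w'' = w := h2'
      have h6 : t = t' := h3
      subst h4 h5 h6
      rfl
  obtain ⟨F, ⟨hF0, hF⟩, -⟩ := hcov.existsUnique_continuousMap_lifts
    (⟨id, continuous_id⟩ : C(X, X)) w0 (⟨(w0, t0), h0⟩ : RS P) rfl
  have hF' : ∀ w, (F w).1.1 = w := fun w => congrFun hF w
  refine ⟨fun w => (F w).1.2, continuous_snd.comp (continuous_subtype_val.comp F.continuous), ?_, ?_⟩
  · simp only [hF0]
  · intro w
    have h1 := (F w).2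
    rwa [hF' w] at h1

end top

section hol

variable {d : ℕ}

/-- the value of the polynomial with coefficients `c j w` -/
def pv (c : Fin (d + 1) → ℂ → ℂ) (w τ : ℂ) : ℂ := ∑ j, c j w * τ ^ (j : ℕ)

/-- the value of the derivative of the polynomial with coefficients `c j w` -/
def pdv (c : Fin (d + 1) → ℂ → ℂ) (w τ : ℂ) : ℂ := ∑ j, c j w * ((j : ℕ) * τ ^ ((j : ℕ) - 1))

theorem pv_deriv (c : Fin (d + 1) → ℂ → ℂ) (w τ : ℂ) :
    HasDerivAt (fun t => pv c w t) (pdv c w τ) τ := by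
  unfold pv pdv
  exact HasDerivAt.fun_sum fun j _ => (hasDerivAt_pow (j : ℕ) τ).const_mul (c j w)

theorem pv_an {c : Fin (d + 1) → ℂ → ℂ} {w : ℂ} (hc : ∀ j, AnalyticAt ℂ (c j) w) (τ : ℂ) :
    AnalyticAt ℂ (fun v : ℂ × ℂ => pv c v.1 v.2) (w, τ) := by
  unfold pv
  exact Finset.analyticAt_fun_sum _ fun j _ =>
    ((hc j).comp_of_eq (analyticAt_fst) rfl).fun_mul (analyticAt_snd.fun_pow _)

/-- the root bound -/
theorem pv_bound {c : Fin (d + 1) → ℂ → ℂ} {w τ : ℂ} (hd : c (Fin.last d) w ≠ 0)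
    (h : pv c w τ = 0) : ‖τ‖ ≤ 1 + ∑ j, ‖c j w / c (Fin.last d) w‖ := by
  have hnn : 0 ≤ ∑ j, ‖c j w / c (Fin.last d) w‖ := Finset.sum_nonneg fun i _ => norm_nonneg _
  by_cases hy : ‖τ‖ ≤ 1
  · linarith
  push Not at hy
  unfold pv at h
  rw [Fin.sum_univ_castSucc] at h
  have h1 : τ ^ d = -∑ j : Fin d, c j.castSucc w / c (Fin.last d) w * τ ^ (j : ℕ) := by
    have h2 : c (Fin.last d) w * τ ^ d = - ∑ j : Fin d, c j.castSucc w * τ ^ (j : ℕ) := by
      have h3 : ((Fin.last d : Fin (d + 1)) : ℕ) = d := Fin.val_last d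
      rw [h3] at h
      have h4 : ∀ j : Fin d, ((j.castSucc : Fin (d + 1)) : ℕ) = j := fun j => rfl
      simp only [h4] at h
      linear_combination h
    have h5 : ∑ j : Fin d, c j.castSucc w / c (Fin.last d) w * τ ^ (j : ℕ) =
        (∑ j : Fin d, c j.castSucc w * τ ^ (j : ℕ)) / c (Fin.last d) w := by
      rw [Finset.sum_div]
      exact Finset.sum_congr rfl fun j _ => by ring
    rw [h5, eq_comm, ← neg_div, ← h2, mul_comm, mul_div_assoc, div_self hd, mul_one]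
  rcases Nat.eq_zero_or_pos d with rfl | hd0
  · simp at h1
  obtain ⟨e, rfl⟩ : ∃ e, d = e + 1 := ⟨d - 1, by omega⟩
  have h2 : ‖τ‖ ^ (e + 1) ≤ (∑ j, ‖c j w / c (Fin.last (e + 1)) w‖) * ‖τ‖ ^ e := by
    have e1 := Fin.sum_univ_castSucc (fun j : Fin (e + 1 + 1) => ‖c j w / c (Fin.last (e + 1)) w‖)
    rw [← norm_pow, h1, norm_neg, e1, add_mul]
    refine (norm_sum_le _ _).trans ?_
    rw [Finset.sum_mul]
    refine le_add_of_le_of_nonneg (Finset.sum_le_sum fun j _ => ?_) (by positivity)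
    rw [norm_mul, norm_pow]
    refine mul_le_mul_of_nonneg_left (pow_le_pow_right₀ hy.le ?_) (norm_nonneg _)
    have := j.2
    omega
  have h3 : ‖τ‖ ≤ ∑ j, ‖c j w / c (Fin.last (e + 1)) w‖ := by
    rw [pow_succ, mul_comm] at h2
    exact le_of_mul_le_mul_right h2 (pow_pos (by linarith) e)
  linarith

theorem pv_poly (c : Fin (d + 1) → ℂ → ℂ) (w : ℂ) : ∃ p : Polynomial ℂ,
    (∀ τ, p.eval τ = pv c w τ) ∧ (c (Fin.last d) w ≠ 0 → p ≠ 0) := by
  refine ⟨∑ j : Fin (d + 1), Polynomial.C (c j w) * Polynomial.X ^ (j : ℕ), fun τ => ?_,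
    fun h h0 => h ?_⟩
  · rw [Polynomial.eval_finsetSum]
    unfold pv
    exact Finset.sum_congr rfl fun j _ => by simp
  · have h1 := congrArg (fun p => Polynomial.coeff p d) h0
    simp only [Polynomial.finsetSum_coeff, Polynomial.coeff_C_mul_X_pow, Polynomial.coeff_zero] at h1
    rw [Finset.sum_eq_single (Fin.last d)] at h1
    · simpa using h1
    · intro b _ hb
      rw [if_neg]
      intro hdb
      apply hb
      exact Fin.ext (by rw [Fin.val_last]; exact hdb.symm)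
    · simp

theorem pv_fin {c : Fin (d + 1) → ℂ → ℂ} {w : ℂ} (hd : c (Fin.last d) w ≠ 0) :
    {τ | pv c w τ = 0}.Finite := by
  obtain ⟨p, hp, hp0⟩ := pv_poly c w
  refine (p.roots.toFinset.finite_toSet).subset fun τ hτ => ?_
  rw [Finset.mem_coe, Multiset.mem_toFinset, Polynomial.mem_roots (hp0 hd), Polynomial.IsRoot, hp]
  exact hτ

/-- the local roots -/
theorem local_root {c : Fin (d + 1) → ℂ → ℂ} {w τ : ℂ} (hc : ∀ j, AnalyticAt ℂ (c j) w)
    (h0 : pv c w τ = 0) (h1 : pdv c w τ ≠ 0) :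
    ∃ ψ : ℂ → ℂ, DifferentiableAt ℂ ψ w ∧ ψ w = τ ∧
      ∀ᶠ v : ℂ × ℂ in 𝓝 (w, τ), pv c v.1 v.2 = 0 ↔ ψ v.1 = v.2 := by
  have han := pv_an hc τ
  have hs : HasStrictFDerivAt (fun v : ℂ × ℂ => pv c v.1 v.2)
      (fderiv ℂ (fun v : ℂ × ℂ => pv c v.1 v.2) (w, τ)) (w, τ) := han.hasStrictFDerivAt
  have hpart : ∀ y : ℂ, (fderiv ℂ (fun v : ℂ × ℂ => pv c v.1 v.2) (w, τ)) (0, y) =
      pdv c w τ * y := by
    intro y
    have e1 : HasFDerivAt (fun t : ℂ => ((w, t) : ℂ × ℂ)) (ContinuousLinearMap.inr ℂ ℂ ℂ) τ := by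
      have := (hasFDerivAt_const w τ).prodMk (hasFDerivAt_id (𝕜 := ℂ) τ)
      refine this.congr_fderiv ?_
      ext <;> simp
    have e2 : HasFDerivAt (fun t : ℂ => pv c w t) ((fderiv ℂ (fun v : ℂ × ℂ => pv c v.1 v.2)
        (w, τ)).comp (ContinuousLinearMap.inr ℂ ℂ ℂ)) τ :=
      HasFDerivAt.comp (g := fun v : ℂ × ℂ => pv c v.1 v.2) (f := fun t : ℂ => ((w, t) : ℂ × ℂ)) τ
        hs.hasFDerivAt e1
    have e3 := (pv_deriv c w τ).hasFDerivAt.unique e2
    have e4 := congrArg (fun L : ℂ →L[ℂ] ℂ => L y) e3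
    simp at e4
    rw [← e4]
    ring
  have hinv : ((fderiv ℂ (fun v : ℂ × ℂ => pv c v.1 v.2) (w, τ)) ∘L
      ContinuousLinearMap.inr ℂ ℂ ℂ).IsInvertible := by
    refine ⟨ContinuousLinearEquiv.unitsEquivAut ℂ (Units.mk0 _ h1), ?_⟩
    ext
    simp [hpart]
  refine ⟨hs.implicitFunctionOfProdDomain hinv,
    (hs.hasStrictFDerivAt_implicitFunctionOfProdDomain hinv).differentiableAt, ?_, ?_⟩
  · exact (hs.eventually_apply_eq_iff_implicitFunctionOfProdDomain hinv).self_of_nhds.mp rfl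
  · have := hs.eventually_apply_eq_iff_implicitFunctionOfProdDomain hinv
    filter_upwards [this] with v hv
    rwa [h0] at hv

/-- **Holomorphic roots on a disc.** -/
theorem exists_root {c : Fin (d + 1) → ℂ → ℂ} {z : ℂ} {ε : ℝ} (hε : 0 < ε)
    (hc : ∀ w ∈ ball z ε, ∀ j, AnalyticAt ℂ (c j) w)
    (hl : ∀ w ∈ ball z ε, c (Fin.last d) w ≠ 0)
    (hs : ∀ w ∈ ball z ε, ∀ τ, pv c w τ = 0 → pdv c w τ ≠ 0) {t0 : ℂ} (h0 : pv c z t0 = 0) :
    ∃ ρ : ℂ → ℂ, DifferentiableOn ℂ ρ (ball z ε) ∧ ρ z = t0 ∧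
      ∀ w ∈ ball z ε, pv c w (ρ w) = 0 := by
  classical
  have hz : z ∈ ball z ε := mem_ball_self hε
  have hconv : Convex ℝ (ball z ε) := convex_ball z ε
  have : ContractibleSpace (ball z ε) := hconv.contractibleSpace ⟨z, hz⟩
  have : LocallyPathConnectedSpace (ball z ε) := isOpen_ball.locallyPathConnectedSpace
  have hcc : ∀ j, Continuous fun w : ball z ε => c j w := fun j =>
    continuous_iff_continuousAt.2 fun w =>
      (hc w w.2 j).continuousAt.comp continuousAt_subtype_val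
  obtain ⟨ρ, hρ, hρ0, hρr⟩ := lift_root (X := ball z ε) (P := fun w τ => pv c w τ)
    (by
      unfold pv
      exact continuous_finsetSum _ fun j _ =>
        ((hcc j).comp continuous_fst).mul (continuous_snd.pow _))
    (fun w => 1 + ∑ j, ‖c j w / c (Fin.last d) w‖)
    (continuous_const.add (continuous_finsetSum _ fun j _ =>
      ((hcc j).div (hcc _) fun w => hl w w.2).norm))
    (fun w τ h => pv_bound (hl w w.2) h)
    (by
      intro w τ hw
      obtain ⟨ψ, h1, h2, h3⟩ := local_root (hc w w.2) hw (hs w w.2 τ hw)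
      refine ⟨fun w => ψ w, h1.continuousAt.comp continuousAt_subtype_val, h2, ?_⟩
      have h4 : Tendsto (fun v : ball z ε × ℂ => ((v.1 : ℂ), v.2)) (𝓝 (w, τ)) (𝓝 ((w : ℂ), τ)) := by
        have h5 : Continuous (fun v : ball z ε × ℂ => ((v.1 : ℂ), v.2)) := by fun_prop
        exact h5.tendsto (w, τ)
      exact h4.eventually h3)
    (fun w => pv_fin (hl w w.2)) ⟨z, hz⟩ t0 h0
  refine ⟨fun w => if h : w ∈ ball z ε then ρ ⟨w, h⟩ else 0, ?_, ?_, ?_⟩
  · intro w hw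
    refine DifferentiableAt.differentiableWithinAt ?_
    obtain ⟨ψ, h1, h2, h3⟩ := local_root (hc w hw) (hρr ⟨w, hw⟩) (hs w hw _ (hρr ⟨w, hw⟩))
    refine h1.congr_of_eventuallyEq ?_
    have h4 : Tendsto (fun v : ball z ε => ((v : ℂ), ρ v)) (𝓝 ⟨w, hw⟩) (𝓝 (w, ρ ⟨w, hw⟩)) := by
      have h5 : Continuous (fun v : ball z ε => ((v : ℂ), ρ v)) := by fun_prop
      exact h5.tendsto _
    have h5 := h4.eventually h3
    rw [nhds_subtype_eq_comap, eventually_comap] at h5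
    filter_upwards [h5, isOpen_ball.mem_nhds hw] with v h6 h7
    rw [dif_pos h7]
    have h8 := h6 ⟨v, h7⟩ rfl
    exact (h8.1 (hρr ⟨v, h7⟩)).symm
  · simp only [hz, dite_true, hρ0]
  · intro w hw
    simp only [hw, dite_true]
    exact hρr ⟨w, hw⟩

end hol

end Pool.Agent.H910.Dsc
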